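import Pool.Agent.Lib.MP_9277c3_lc.NC.NTM

/-!
# Nondeterministic pushdown automata whose choices are made when the stack is low
-/

set_option autoImplicit false

namespace Pool.Agent.Lib.MP_9277c3_lc

/-- A nondeterministic pushdown automaton. `next q c X` is the finite set of the possible moves in
state `q`, when the head sees `c` and `X` is on top of the stack: a new state, a move of the head,
and the list of symbols (first symbol on top) which replaces `X`. The automaton accepts as soon as
its state and the cell under its head are `accepting`. In a one-way automaton no move of the head
goes to the left. -/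
structure NPDA (α : Type) where
  State : Type
  Stack : Type
  finite_state : Finite State
  finite_stack : Finite Stack
  start : State
  bottom : Stack
  accepting : State → Cell α → Prop
  next : State → Cell α → Stack → Set (State × Move × List Stack)
  finite_next : ∀ q c X, (next q c X).Finite

namespace NPDA

variable {α : Type} (M : NPDA α)

/-- No move of the head goes to the left. -/
def OneWay : Prop := ∀ q c X, ∀ r ∈ M.next q c X, r.2.1 ≠ Move.left

/-- Configurations: the state, the position of the head, the stack. -/
abbrev Cfg := M.State × ℕ × List M.Stack

/-- One step on the input `x`. A step at which there is more than one possible move is only allowed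
if there are at most `h` symbols on the stack. -/
inductive Step (x : List α) (h : ℕ) : M.Cfg → M.Cfg → Prop
  | mk (q : M.State) (i : ℕ) (X : M.Stack) (γ : List M.Stack) (r : M.State × Move × List M.Stack)
      (hr : r ∈ M.next q (cell x i) X)
      (hl : (X :: γ).length ≤ h ∨ M.next q (cell x i) X = {r}) :
      Step x h (q, i, X :: γ) (r.1, r.2.1.apply x.length i, r.2.2 ++ γ)

/-- Started in the state `start`, with its head on the first position after the left marker and
`bottom` on its stack, the automaton reaches an accepting configuration by a run which makes
nondeterministic choices only when there are at most `h` symbols on the stack. -/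
def AcceptsLow (h : ℕ) (x : List α) : Prop :=
  ∃ q i γ, Relation.ReflTransGen (M.Step x h) (M.start, 1, [M.bottom]) (q, i, γ) ∧
    M.accepting q (cell x i)

/-- One deterministic step. -/
inductive DStep (x : List α) : M.Cfg → M.Cfg → Prop
  | mk (q : M.State) (i : ℕ) (X : M.Stack) (γ : List M.Stack) (r : M.State × Move × List M.Stack)
      (hr : M.next q (cell x i) X = {r}) :
      DStep x (q, i, X :: γ) (r.1, r.2.1.apply x.length i, r.2.2 ++ γ)

/-- Macro steps: if there are at most `h` symbols on the stack, one step; otherwise the topmost
symbol is removed by deterministic steps. -/
inductive MStep (x : List α) (h : ℕ) : M.Cfg → M.Cfg → Prop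
  | low (q : M.State) (i : ℕ) (X : M.Stack) (γ : List M.Stack)
      (r : M.State × Move × List M.Stack) (hr : r ∈ M.next q (cell x i) X)
      (hl : (X :: γ).length ≤ h) :
      MStep x h (q, i, X :: γ) (r.1, r.2.1.apply x.length i, r.2.2 ++ γ)
  | high (q : M.State) (i : ℕ) (X : M.Stack) (γ : List M.Stack) (q' : M.State) (i' : ℕ)
      (hl : h < (X :: γ).length)
      (hD : Relation.ReflTransGen (M.DStep x) (q, i, [X]) (q', i', [])) :
      MStep x h (q, i, X :: γ) (q', i', γ)

/-- The configuration is accepting, or there are more than `h` symbols on the stack and an accepting
configuration is reached by deterministic steps on the topmost symbol. -/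
inductive MAcc (x : List α) (h : ℕ) : M.Cfg → Prop
  | here (q : M.State) (i : ℕ) (γ : List M.Stack) (ha : M.accepting q (cell x i)) :
      MAcc x h (q, i, γ)
  | high (q : M.State) (i : ℕ) (X : M.Stack) (γ : List M.Stack) (q' : M.State) (i' : ℕ)
      (γ' : List M.Stack) (hl : h < (X :: γ).length)
      (hD : Relation.ReflTransGen (M.DStep x) (q, i, [X]) (q', i', γ'))
      (ha : M.accepting q' (cell x i')) : MAcc x h (q, i, X :: γ)

/-- The symbols on the virtual input: the cell of the input, two flags, and a state, a stack symbol
and possibly a state. -/
abbrev Sym2 := Cell α × Bool × Bool × M.State × M.Stack × Option M.State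

/-- The virtual input for the query `(q, i, X, d, i')`; its letter number `p`, for
`p = 0, ..., |x| + 1`, is the cell `p` of the input with the flags `p = i` and `p = i'`. -/
def vword (x : List α) (q : M.State) (i : ℕ) (X : M.Stack) (d : Option M.State) (i' : ℕ) :
    List M.Sym2 :=
  (List.range (x.length + 2)).map fun p => (cell x p, decide (p = i), decide (p = i'), q, X, d)

/-- The query: if `d` is a state `q'`, then the symbol `X` is removed by deterministic steps, from
the state `q` at position `i` to the state `q'` at position `i'`; otherwise an accepting
configuration is reached. -/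
def Query (x : List α) (q : M.State) (i : ℕ) (X : M.Stack) (d : Option M.State) (i' : ℕ) : Prop :=
  match d with
  | some q' => Relation.ReflTransGen (M.DStep x) (q, i, [X]) (q', i', [])
  | none => ∃ q' j γ, Relation.ReflTransGen (M.DStep x) (q, i, [X]) (q', j, γ) ∧
      M.accepting q' (cell x j)

end NPDA

/-! ### Codes of the elements of finite types -/

/-- A number for each element of a finite type. -/
noncomputable def cod {T : Type} [Finite T] (t : T) : ℕ := (Finite.equivFin T t : ℕ)

/-- The element with a given number. -/
noncomputable def dcd {T : Type} [Finite T] [Inhabited T] (n : ℕ) : T :=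
  if h : n < Nat.card T then (Finite.equivFin T).symm ⟨n, h⟩ else default

section

variable {T : Type} [Finite T]

theorem cod_lt (t : T) : cod t < Nat.card T := (Finite.equivFin T t).2

theorem dcd_cod [Inhabited T] (t : T) : dcd (cod t) = t := by
  unfold dcd
  rw [dif_pos (cod_lt t)]
  exact (Finite.equivFin T).symm_apply_apply t

theorem cod_inj {s t : T} (h : cod s = cod t) : s = t :=
  (Finite.equivFin T).injective (Fin.ext h)

theorem cod_dcd [Inhabited T] {n : ℕ} (h : n < Nat.card T) : cod (dcd n : T) = n := by
  unfold dcd cod
  rw [dif_pos h, (Finite.equivFin T).apply_symm_apply]

end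

end Pool.Agent.Lib.MP_9277c3_lc
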