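import Pool.Agent.Lib.MP_9277c3_lc.RC.Defs

/-!
# The queries are answered by one deterministic pushdown automaton
-/

set_option autoImplicit false

namespace Pool.Agent.Lib.MP_9277c3_lc

/-- The states of the automaton for the queries. -/
inductive QSt (S : Type) : Type
  | scan : QSt S
  | sim (q : S) : QSt S
  | fin : QSt S

instance {S : Type} [Finite S] : Finite (QSt S) := by
  refine Finite.of_injective (β := Option (Option S)) (fun q => match q with
    | .scan => none
    | .sim q => some (some q)
    | .fin => some none) ?_
  intro a b h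
  cases a <;> cases b <;> simp_all

namespace NPDA

variable {α : Type} (M : NPDA α)

open Classical in
/-- The move, if it is unique. -/
noncomputable def uniq (q : M.State) (c : Cell α) (X : M.Stack) :
    Option (M.State × Move × List M.Stack) :=
  if h : ∃ r, M.next q c X = {r} then some h.choose else none

theorem uniq_eq {q : M.State} {c : Cell α} {X : M.Stack} {r : M.State × Move × List M.Stack} :
    M.uniq q c X = some r ↔ M.next q c X = {r} := by
  unfold uniq
  constructor
  · intro h
    split_ifs at h with h1
    rw [Option.some.injEq] at h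
    rw [← h]
    exact h1.choose_spec
  · intro h
    have h1 : ∃ r, M.next q c X = {r} := ⟨r, h⟩
    rw [dif_pos h1, Option.some.injEq]
    exact (Set.singleton_injective (h.symm.trans h1.choose_spec)).symm

/-- The moves at the ends of the tape are replaced. -/
def vmove : Cell α → Move → Move
  | Cell.left, Move.left => Move.stay
  | Cell.right, Move.right => Move.stay
  | _, mv => mv

open Classical in
/-- The moves of the automaton for the queries. -/
noncomputable def qnext : QSt M.State → Cell M.Sym2 → Option M.Stack →
    Option (QSt M.State × Move × List (Option M.Stack))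
  | .scan, Cell.letter (_, f, _, q, X, _), s =>
    if f = true then some (.sim q, Move.stay, [some X, none]) else some (.scan, Move.right, [s])
  | .sim p, Cell.letter (c, _, _, _, _, _), some Y =>
    (M.uniq p c Y).map fun r => (.sim r.1, vmove c r.2.1, r.2.2.map some)
  | .sim p, Cell.letter (_, _, f, _, _, d), none =>
    if f = true ∧ d = some p then some (.fin, Move.stay, [none]) else none
  | _, _, _ => none

/-- The accepting situations of the automaton for the queries. -/
def qacc : QSt M.State → Cell M.Sym2 → Prop
  | .fin, _ => True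
  | .sim p, Cell.letter (c, _, _, _, _, none) => M.accepting p c
  | _, _ => False

/-- The automaton for the queries. -/
noncomputable def qM : DPDA M.Sym2 where
  State := QSt M.State
  Stack := Option M.Stack
  finite_state := by
    have := M.finite_state
    infer_instance
  finite_stack := by
    have := M.finite_stack
    infer_instance
  start := .scan
  bottom := none
  accepting := M.qacc
  next := M.qnext

theorem vmove_ne_left {c : Cell α} {mv : Move} (h : mv ≠ Move.left) : vmove c mv ≠ Move.left := by
  cases c <;> cases mv <;> simp_all [vmove]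

theorem qnext_ne_left (hM : M.OneWay) (s : QSt M.State) (c : Cell M.Sym2) (X : Option M.Stack)
    (q' : QSt M.State) (mv : Move) (b : List (Option M.Stack))
    (h : M.qnext s c X = some (q', mv, b)) : mv ≠ Move.left := by
  cases s with
  | scan =>
    cases c with
    | letter a =>
      obtain ⟨c, f, f', q₀, X₀, d⟩ := a
      simp only [qnext] at h
      split_ifs at h
      · simp only [Option.some.injEq, Prod.mk.injEq] at h
        rw [← h.2.1]
        simp
      · simp only [Option.some.injEq, Prod.mk.injEq] at h
        rw [← h.2.1]
        simp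
    | left => simp [qnext] at h
    | right => simp [qnext] at h
  | sim p =>
    cases c with
    | letter a =>
      obtain ⟨c, f, f', q₀, X₀, d⟩ := a
      cases X with
      | some Y =>
        simp only [qnext, Option.map_eq_some_iff, Prod.mk.injEq] at h
        obtain ⟨r, h1, h2, h3, h4⟩ := h
        rw [← h3]
        refine vmove_ne_left ?_
        have h5 := M.uniq_eq.1 h1
        exact hM p c Y r (by rw [h5]; exact Set.mem_singleton _)
      | none =>
        simp only [qnext] at h
        split_ifs at h
        simp only [Option.some.injEq, Prod.mk.injEq] at h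
        rw [← h.2.1]
        simp
    | left => simp [qnext] at h
    | right => simp [qnext] at h
  | fin => simp [qnext] at h

theorem qM_oneWay (hM : M.OneWay) : ∀ q c X q' mv b, M.qM.next q c X = some (q', mv, b) →
    mv ≠ Move.left := fun q c X q' mv b h => M.qnext_ne_left hM q c X q' mv b h

/-- Configurations of the automaton for the queries. -/
abbrev VCfg := QSt M.State × ℕ × List (Option M.Stack)

/-- The steps of the automaton for the queries. -/
def VStep (w : List M.Sym2) (c c' : M.VCfg) : Prop :=
  ∃ s i Y γ s' mv β, c = (s, i, Y :: γ) ∧ M.qnext s (cell w i) Y = some (s', mv, β) ∧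
    c' = (s', mv.apply w.length i, β ++ γ)

theorem vstep_iff {w : List M.Sym2} {c c' : M.VCfg} : M.VStep w c c' ↔ M.qM.Step w c c' := by
  constructor
  · rintro ⟨s, i, Y, γ, s', mv, β, rfl, h, rfl⟩
    exact DPDA.Step.mk (M := M.qM) s i Y γ s' mv β h
  · have h' : ∀ a b : M.qM.State × ℕ × List M.qM.Stack, M.qM.Step w a b → M.VStep w a b := by
      intro a b h
      cases h with
      | mk q i X γ q' mv β h => exact ⟨q, i, X, γ, q', mv, β, rfl, h, rfl⟩
    exact h' c c'

section

variable (x : List α) (q : M.State) (i : ℕ) (X : M.Stack) (d : Option M.State) (i' : ℕ)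

theorem vword_length : (M.vword x q i X d i').length = x.length + 2 := by
  simp [vword]

theorem cell_vword {p : ℕ} (hp : p ≤ x.length + 1) : cell (M.vword x q i X d i') (p + 1) =
    Cell.letter (cell x p, decide (p = i), decide (p = i'), q, X, d) := by
  unfold cell vword
  simp only [List.getElem?_map]
  rw [List.getElem?_range (by omega)]
  rfl

end

theorem cell_eq_left {x : List α} {p : ℕ} : cell x p = Cell.left ↔ p = 0 := by
  cases p with
  | zero => simp [cell]
  | succ p =>
    simp only [cell]
    cases x[p]? <;> simp

theorem cell_eq_right {x : List α} {p : ℕ} : cell x p = Cell.right ↔ x.length + 1 ≤ p := by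
  cases p with
  | zero => simp [cell]
  | succ p =>
    simp only [cell]
    cases h : x[p]? with
    | none =>
      rw [List.getElem?_eq_none_iff] at h
      simpa using h
    | some a =>
      have := (List.getElem?_eq_some_iff.1 h).1
      simp only [reduceCtorEq, false_iff, not_le]
      omega

theorem apply_le {n : ℕ} {mv : Move} {i : ℕ} (hi : i ≤ n + 1) : mv.apply n i ≤ n + 1 := by
  cases mv <;> simp only [Move.apply] <;> omega

theorem vmove_apply {x : List α} {p : ℕ} (hp : p ≤ x.length + 1) (mv : Move) :
    (vmove (cell x p) mv).apply (x.length + 2) (p + 1) = mv.apply x.length p + 1 := by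
  cases mv with
  | left =>
    cases h : cell x p with
    | left =>
      rw [cell_eq_left] at h
      subst h
      simp [vmove, Move.apply]
    | letter a =>
      have h1 : p ≠ 0 := fun h' => by rw [cell_eq_left.2 h'] at h; simp at h
      simp only [vmove, Move.apply]
      omega
    | right =>
      rw [cell_eq_right] at h
      simp only [vmove, Move.apply]
      omega
  | stay => cases cell x p <;> simp [vmove, Move.apply]
  | right =>
    cases h : cell x p with
    | left =>
      rw [cell_eq_left] at h
      subst h
      simp [vmove, Move.apply]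
    | letter a =>
      have h1 : ¬x.length + 1 ≤ p := fun h' => by rw [cell_eq_right.2 h'] at h; simp at h
      simp only [vmove, Move.apply]
      omega
    | right =>
      rw [cell_eq_right] at h
      simp only [vmove, Move.apply]
      omega

section

variable {M} {x : List α} {q : M.State} {i : ℕ} {X : M.Stack} {d : Option M.State} {i' : ℕ}

theorem dstep_le {c c' : M.Cfg} (h : M.DStep x c c') (hc : c.2.1 ≤ x.length + 1) :
    c'.2.1 ≤ x.length + 1 := by
  cases h with
  | mk p j Y γ r hr => exact apply_le hc

theorem dsteps_le {c c' : M.Cfg} (h : Relation.ReflTransGen (M.DStep x) c c')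
    (hc : c.2.1 ≤ x.length + 1) : c'.2.1 ≤ x.length + 1 := by
  induction h with
  | refl => exact hc
  | tail _ h ih => exact dstep_le h ih

/-- The configuration of the simulation. -/
def vcfg (c : M.Cfg) : M.VCfg := (QSt.sim c.1, c.2.1 + 1, c.2.2.map some ++ [none])

theorem step_vcfg {c c' : M.Cfg} (h : M.DStep x c c') (hc : c.2.1 ≤ x.length + 1) :
    M.VStep (M.vword x q i X d i') (vcfg c) (vcfg c') := by
  cases h with
  | mk p j Y γ r hr =>
    refine ⟨QSt.sim p, j + 1, some Y, γ.map some ++ [none], QSt.sim r.1, vmove (cell x j) r.2.1,
      r.2.2.map some, rfl, ?_, ?_⟩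
    · rw [M.cell_vword x q i X d i' hc]
      simp only [qnext]
      rw [M.uniq_eq.2 hr]
      rfl
    · rw [M.vword_length, vmove_apply hc]
      simp [vcfg]

theorem steps_vcfg {c c' : M.Cfg} (h : Relation.ReflTransGen (M.DStep x) c c')
    (hc : c.2.1 ≤ x.length + 1) :
    Relation.ReflTransGen (M.VStep (M.vword x q i X d i')) (vcfg c) (vcfg c') := by
  induction h with
  | refl => exact Relation.ReflTransGen.refl
  | tail h h' ih => exact ih.tail (step_vcfg h' (dsteps_le h hc))

/-- The reachable configurations. -/
inductive QInv (M : NPDA α) (x : List α) (q : M.State) (i : ℕ) (X : M.Stack) (d : Option M.State)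
    (i' : ℕ) : M.VCfg → Prop
  | scan (p : ℕ) (hp : p ≤ i) : QInv M x q i X d i' (QSt.scan, p + 1, [none])
  | sim (c : M.Cfg) (h : Relation.ReflTransGen (M.DStep x) (q, i, [X]) c) :
      QInv M x q i X d i' (vcfg c)
  | fin (q' : M.State) (hd : d = some q')
      (h : Relation.ReflTransGen (M.DStep x) (q, i, [X]) (q', i', [])) :
      QInv M x q i X d i' (QSt.fin, i' + 1, [none])

theorem QInv.step (hi : i ≤ x.length + 1) {c c' : M.VCfg}
    (hc : QInv M x q i X d i' c) (h : M.VStep (M.vword x q i X d i') c c') :
    QInv M x q i X d i' c' := by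
  obtain ⟨s, j, Y, γ, s', mv, β, rfl, h, rfl⟩ := h
  generalize hcc : (s, j, Y :: γ) = cc at hc
  cases hc with
  | scan p hp =>
    simp only [Prod.mk.injEq, List.cons.injEq] at hcc
    obtain ⟨rfl, rfl, rfl, rfl⟩ := hcc
    rw [M.cell_vword x q i X d i' (by omega)] at h
    simp only [qnext, decide_eq_true_eq] at h
    split_ifs at h with h1
    · simp only [Option.some.injEq, Prod.mk.injEq] at h
      obtain ⟨rfl, rfl, rfl⟩ := h
      subst h1
      exact QInv.sim _ Relation.ReflTransGen.refl
    · simp only [Option.some.injEq, Prod.mk.injEq] at h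
      obtain ⟨rfl, rfl, rfl⟩ := h
      have e : Move.right.apply (M.vword x q i X d i').length (p + 1) = p + 1 + 1 := by
        rw [M.vword_length]
        simp only [Move.apply]
        omega
      rw [e]
      exact QInv.scan _ (by omega)
  | sim c hD =>
    have hle := dsteps_le hD hi
    obtain ⟨p, k, δ⟩ := c
    simp only [vcfg, Prod.mk.injEq] at hcc
    obtain ⟨rfl, rfl, hcc⟩ := hcc
    cases δ with
    | nil =>
      simp only [List.map_nil, List.nil_append, List.cons.injEq] at hcc
      obtain ⟨rfl, rfl⟩ := hcc
      rw [M.cell_vword x q i X d i' hle] at h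
      simp only [qnext, decide_eq_true_eq] at h
      split_ifs at h with h1
      simp only [Option.some.injEq, Prod.mk.injEq] at h
      obtain ⟨rfl, rfl, rfl⟩ := h
      obtain ⟨h0, h2⟩ := h1
      obtain rfl : k = i' := by simpa using h0
      exact QInv.fin p h2 hD
    | cons Z δ =>
      simp only [List.map_cons, List.cons_append, List.cons.injEq] at hcc
      obtain ⟨rfl, rfl⟩ := hcc
      rw [M.cell_vword x q i X d i' hle] at h
      simp only [qnext, Option.map_eq_some_iff, Prod.mk.injEq] at h
      obtain ⟨r, h1, rfl, rfl, rfl⟩ := h
      have h2 := M.uniq_eq.1 h1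
      have h3 := QInv.sim (i' := i') (d := d) _ (hD.tail (DStep.mk p k Z δ r h2))
      rw [M.vword_length, vmove_apply hle]
      have e : vcfg (M := M) (r.1, r.2.1.apply x.length k, r.2.2 ++ δ) =
          (QSt.sim r.1, r.2.1.apply x.length k + 1, r.2.2.map some ++ (δ.map some ++ [none])) := by
        simp [vcfg]
      rw [e] at h3
      exact h3
  | fin q' hd hD =>
    simp only [Prod.mk.injEq, List.cons.injEq] at hcc
    obtain ⟨rfl, rfl, rfl, rfl⟩ := hcc
    simp [qnext] at h

theorem QInv.steps (hi : i ≤ x.length + 1) {t : ℕ} : ∀ a b : M.qM.State × ℕ × List M.qM.Stack,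
    M.qM.Steps (M.vword x q i X d i') t a b → QInv M x q i X d i' a → QInv M x q i X d i' b := by
  intro a b h
  induction h with
  | refl c => exact id
  | head t c c' c'' h _ ih => exact fun hc => ih (hc.step hi (M.vstep_iff.2 h))

theorem exists_steps {w : List M.Sym2} {c c' : M.VCfg}
    (h : Relation.ReflTransGen (M.VStep w) c c') : ∃ t, M.qM.Steps w t c c' := by
  induction h using Relation.ReflTransGen.head_induction_on with
  | refl => exact ⟨0, DPDA.Steps.refl _⟩
  | head h _ ih =>
    obtain ⟨t, ht⟩ := ih
    exact ⟨t + 1, DPDA.Steps.head _ _ _ _ (M.vstep_iff.1 h) ht⟩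

theorem scan_to (hi : i ≤ x.length + 1) : ∀ p, p ≤ i →
    Relation.ReflTransGen (M.VStep (M.vword x q i X d i')) (QSt.scan, 1, [none])
      (QSt.scan, p + 1, [none]) := by
  intro p
  induction p with
  | zero => exact fun _ => Relation.ReflTransGen.refl
  | succ p ih =>
    intro hp
    refine (ih (by omega)).tail ⟨QSt.scan, p + 1, none, [], QSt.scan, Move.right, [none], rfl,
      ?_, ?_⟩
    · rw [M.cell_vword x q i X d i' (by omega)]
      simp only [qnext, decide_eq_true_eq]
      rw [if_neg (by omega)]
    · rw [M.vword_length]
      have e : Move.right.apply (x.length + 2) (p + 1) = p + 1 + 1 := by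
        simp only [Move.apply]
        omega
      rw [e]
      rfl

theorem start_to (hi : i ≤ x.length + 1) :
    Relation.ReflTransGen (M.VStep (M.vword x q i X d i')) (QSt.scan, 1, [none])
      (vcfg (q, i, [X])) := by
  refine (scan_to hi i le_rfl).tail ⟨QSt.scan, i + 1, none, [], QSt.sim q, Move.stay,
    [some X, none], rfl, ?_, rfl⟩
  rw [M.cell_vword x q i X d i' hi]
  simp [qnext]

end

/-- **The queries are answered by the automaton `qM`.** -/
theorem qM_accepts (x : List α) (q : M.State) (i : ℕ) (X : M.Stack) (d : Option M.State) (i' : ℕ)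
    (hi : i ≤ x.length + 1) (_hi' : i' ≤ x.length + 1) :
    M.qM.Accepts (M.vword x q i X d i') ↔ M.Query x q i X d i' := by
  constructor
  · rintro ⟨t, l, q₁, i₁, γ₁, h1, -, h3⟩
    have h4 : QInv M x q i X d i' (q₁, i₁, γ₁) :=
      QInv.steps hi _ _ h1 (QInv.scan 0 (Nat.zero_le _))
    have key : ∀ c : M.VCfg, QInv M x q i X d i' c →
        M.qacc c.1 (cell (M.vword x q i X d i') c.2.1) → M.Query x q i X d i' := by
      intro c h4 h3
      cases h4 with
      | scan p hp => simp [qacc] at h3
      | sim c hD =>
        obtain ⟨p, j, γ⟩ := c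
        have hle := dsteps_le hD hi
        change M.qacc (QSt.sim p) (cell (M.vword x q i X d i') (j + 1)) at h3
        rw [M.cell_vword x q i X d i' hle] at h3
        cases d with
        | none => exact ⟨p, j, γ, hD, h3⟩
        | some d => simp [qacc] at h3
      | fin q' hd hD =>
        subst hd
        exact hD
    exact key _ h4 h3
  · intro hQ
    have key : ∀ {c : M.VCfg},
        Relation.ReflTransGen (M.VStep (M.vword x q i X d i')) (vcfg (q, i, [X])) c →
        M.qacc c.1 (cell (M.vword x q i X d i') c.2.1) →
        M.qM.Accepts (M.vword x q i X d i') := by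
      rintro ⟨q₁, i₁, γ₁⟩ h h'
      obtain ⟨t, ht⟩ := exists_steps ((start_to hi).trans h)
      exact ⟨t, γ₁.length, q₁, i₁, γ₁, ht, rfl, h'⟩
    cases d with
    | none =>
      obtain ⟨q', j, γ, hD, ha⟩ := hQ
      have hle := dsteps_le hD hi
      refine key (steps_vcfg hD hi) ?_
      show M.qacc (QSt.sim q') (cell (M.vword x q i X none i') (j + 1))
      rw [M.cell_vword x q i X none i' hle]
      exact ha
    | some q' =>
      have hle := dsteps_le hQ hi
      refine key (c := (QSt.fin, i' + 1, [none])) ((steps_vcfg hQ hi).tail ⟨QSt.sim q', i' + 1,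
        none, [], QSt.fin, Move.stay, [none], rfl, ?_, rfl⟩) trivial
      rw [M.cell_vword x q i X (some q') i' hle]
      simp [qnext]

end NPDA

end Pool.Agent.Lib.MP_9277c3_lc
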