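import Pool.Agent.Lib.MP_9277c3_lc.RC.Spec
import Pool.Agent.Lib.MP_9277c3_lc.RC.Query

/-!
# Specification of the simulation
-/

set_option autoImplicit false

namespace Pool.Agent.Lib.MP_9277c3_lc

namespace RC

open CM NC

/-- The simulation of a nondeterministic Turing machine on the virtual input, statement: the queries
are decided, if the machine accepts the language of the pushdown automaton `M.qM` in space `sp`. -/
def SimSpec {α : Type} [Finite α] (M : NPDA α) : Prop :=
  ∀ (T : NTM M.Sym2), ∃ (K₀ : ℕ) (S : Type) (_ : Finite S) (res : S), ∀ (F : Type),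
    ∃ qry : NStmt (S ⊕ RO) F, ∀ sp : ℕ → ℕ, T.AcceptsIn M.qM.Accepts sp →
      ∀ (x : List α) (A k : ℕ) (body : F → NStmt (S ⊕ RO) F),
        K₀ * ((x.length + 4) * K₀ ^ sp (x.length + 2)) ≤ A → QryOK M x A body k res qry

end RC

end Pool.Agent.Lib.MP_9277c3_lc
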