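import Pool.Agent.Lib.MP_9277c3_lc.RC.SpecO
import Pool.Agent.Lib.MP_9277c3_lc.RC.SpecS
import Pool.Agent.Lib.MP_9277c3_lc.NS.Top

/-!
# Nondeterministic choices with a low stack: assembly of the machine
-/

set_option autoImplicit false

namespace Pool.Agent.Lib.MP_9277c3_lc

namespace RC

open CM NC

/-! ### Numbers -/

/-- The space. -/
def W (n : ℕ) : ℕ := Nat.log 2 (n + 2) * (Nat.sqrt (Nat.log 2 (n + 2)) + 1)

theorem one_le_log (n : ℕ) : 1 ≤ Nat.log 2 (n + 2) :=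
  Nat.le_log_of_pow_le (by norm_num) (by omega)

theorem log_le_W (n : ℕ) : Nat.log 2 (n + 2) ≤ W n := Nat.le_mul_of_pos_right _ (Nat.succ_pos _)

theorem W_pos (n : ℕ) : 1 ≤ W n := (one_le_log n).trans (log_le_W n)

theorem W_add_two (n : ℕ) : W (n + 2) ≤ 4 * W n := by
  have h1 := one_le_log n
  have h2 : Nat.log 2 (n + 2 + 2) ≤ Nat.log 2 (n + 2) + 1 := by
    have h3 : n + 2 < 2 ^ (Nat.log 2 (n + 2) + 1) := Nat.lt_pow_succ_log_self (by norm_num) _
    have h4 : n + 2 + 2 < 2 ^ (Nat.log 2 (n + 2) + 1 + 1) := by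
      rw [pow_succ]
      omega
    exact Nat.lt_succ_iff.1 (Nat.log_lt_of_lt_pow (by omega) h4)
  unfold W
  generalize Nat.log 2 (n + 2 + 2) = m at h2 ⊢
  generalize Nat.log 2 (n + 2) = L at h1 h2 ⊢
  have h5 : Nat.sqrt m ≤ Nat.sqrt L + 1 := by
    have h6 : L < (Nat.sqrt L + 1) * (Nat.sqrt L + 1) := Nat.lt_succ_sqrt L
    have h7 : m < (Nat.sqrt L + 1 + 1) * (Nat.sqrt L + 1 + 1) := by nlinarith
    exact Nat.lt_succ_iff.1 (Nat.sqrt_lt.2 h7)
  calc m * (Nat.sqrt m + 1) ≤ (2 * L) * (2 * (Nat.sqrt L + 1)) :=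
        Nat.mul_le_mul (by omega) (by omega)
    _ = 4 * (L * (Nat.sqrt L + 1)) := by ring

theorem le_two_pow_W (n : ℕ) : n + 2 ≤ 2 ^ (2 * W n) := by
  have h1 := one_le_log n
  have h2 := log_le_W n
  have h3 : n + 2 < 2 ^ (Nat.log 2 (n + 2) + 1) := Nat.lt_pow_succ_log_self (by norm_num) _
  exact h3.le.trans (Nat.pow_le_pow_right (by norm_num) (by omega))

theorem const_le (K n : ℕ) : K ≤ 2 ^ (K * W n) :=
  (Nat.lt_two_pow_self (n := K)).le.trans
    (Nat.pow_le_pow_right (by norm_num) (Nat.le_mul_of_pos_right _ (W_pos n)))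

theorem pow_le_two (B m : ℕ) : B ^ m ≤ 2 ^ (B * m) := by
  rw [pow_mul]
  exact Nat.pow_le_pow_left (Nat.lt_two_pow_self (n := B)).le _

theorem mul_le_two_pow {x y p q : ℕ} (h1 : x ≤ 2 ^ p) (h2 : y ≤ 2 ^ q) : x * y ≤ 2 ^ (p + q) := by
  rw [pow_add]
  exact Nat.mul_le_mul h1 h2

/-! ### The initial program -/

/-- The registers after the initial program. -/
def finI (b kq B D n : ℕ) : RI → ℕ
  | .n => n
  | .L => Nat.log 2 (n + 2)
  | .s => Nat.sqrt (Nat.log 2 (n + 2))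
  | .h => b * W n
  | .C => kq * (n + 2) * B ^ (b * W n + D + 1)
  | .i => 0
  | .t => 0

/-- The initial program, statement. -/
def InitSpec (α : Type) [Finite α] (b kq B D : ℕ) : Prop :=
  ∃ (P : AStmt RI Empty) (K : ℕ), ∀ (x : List α) (A : ℕ), 2 ^ (K * W x.length) ≤ A →
    RunA x cod A (fun f : Empty => (nomatch f : AStmt RI Empty)) 0 P (fun _ => 0)
      (finI b kq B D x.length)

/-- The registers of the initial program in the large program. -/
def rI (S : Type) : RI → S ⊕ RO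
  | .n => Sum.inr .n
  | .L => Sum.inr .t'
  | .s => Sum.inr .vv
  | .h => Sum.inr .h
  | .C => Sum.inr .C
  | .i => Sum.inr .t
  | .t => Sum.inr .ky

theorem rI_inj (S : Type) : Function.Injective (rI S) := by
  intro a b h
  cases a <;> cases b <;> first | rfl | (simp only [rI, Sum.inr.injEq, reduceCtorEq] at h)

theorem rI_init (S : Type) (b kq B D n : ℕ) :
    upd (upd (mrg (rI S) (finI b kq B D n) (fun _ => 0)) (Sum.inr .t') 0) (Sum.inr .vv) 0 =
      Sum.elim (fun _ => 0) (iniO n (b * W n) (kq * (n + 2) * B ^ (b * W n + D + 1))) := by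
  have hi := rI_inj S
  funext q
  by_cases h1 : q = Sum.inr .vv
  · subst h1
    rw [upd_self]
    rfl
  rw [upd_ne h1]
  by_cases h2 : q = Sum.inr .t'
  · subst h2
    rw [upd_self]
    rfl
  rw [upd_ne h2]
  rcases q with s | r
  · rw [mrg_of_not _ _ (by intro r; cases r <;> simp [rI])]
    rfl
  · have h3 : ∀ a : RI, mrg (rI S) (finI b kq B D n) (fun _ => 0) (rI S a) = finI b kq B D n a :=
      fun a => mrg_apply hi _ _ a
    have h4 : ∀ r : RO, (∀ a : RI, rI S a ≠ Sum.inr r) →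
        mrg (rI S) (finI b kq B D n) (fun _ => 0) (Sum.inr r) = 0 :=
      fun r hr => mrg_of_not _ _ hr
    cases r
    case n => exact h3 .n
    case h => exact h3 .h
    case C => exact h3 .C
    case t => exact h3 .i
    case ky => exact h3 .t
    case vv => exact absurd rfl h1
    case t' => exact absurd rfl h2
    all_goals
      rw [h4 _ (by intro a; cases a <;> simp [rI])]
      rfl

instance : Finite RO := by
  have h : ∀ r : RO, r ∈ ({.n, .h, .C, .q, .i, .Z, .H, .X, .d, .j, .go, .res, .ky, .op, .vv, .fl,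
      .t, .t'} : Set RO) := by
    intro r
    cases r <;> simp
  exact Set.finite_univ_iff.1 ((Set.toFinite _).subset fun r _ => h r)

/-! ### The bound for the pushed lists -/

theorem exists_pushLe {α : Type} [Finite α] (M : NPDA α) : ∃ D, PushLe M D := by
  have h1 : (⋃ k : M.State × Cell α × M.Stack, M.next k.1 k.2.1 k.2.2).Finite :=
    Set.finite_iUnion fun k => M.finite_next _ _ _
  obtain ⟨D, hD⟩ := (h1.image fun r => r.2.2.length).bddAbove
  exact ⟨D, fun q c X r hr => hD ⟨r, Set.mem_iUnion.2 ⟨(q, c, X), hr⟩, rfl⟩⟩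

/-! ### Assembly -/

theorem AcceptsIn.mono {α : Type} {T : NTM α} {L : List α → Prop} {s s' : ℕ → ℕ}
    (h : T.AcceptsIn L s) (hs : ∀ n, s n ≤ s' n) : T.AcceptsIn L s' := fun x =>
  ⟨(h x).1, (h x).2.1, fun c hc j => ((h x).2.2 c hc j).trans_le (hs _)⟩

/-- The machine, from the parts. -/
theorem machine_of {α : Type} [Finite α] (M : NPDA α) (hM : M.OneWay) (b : ℕ) {D K₀ : ℕ}
    (hI : InitSpec α b (Nat.card M.State) (Nat.card M.Stack + 1) D) (hO : OuterSpec M K₀ D)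
    (hS : SimSpec M) :
    ∃ (c : ℕ) (T : NTM α), T.AcceptsIn (fun x => M.AcceptsLow (b * W x.length) x)
      fun n => c * W n := by
  obtain ⟨c₁, T, -, hT, -, -, -⟩ := NS.dpda_unambiguous M.Sym2 M.qM (M.qM_oneWay hM)
  obtain ⟨K₁, S, _, res, hS⟩ := hS T
  obtain ⟨qry, hq⟩ := hS Empty
  have hq := hq _ hT
  obtain ⟨P, hP⟩ := hO S Empty res qry
  obtain ⟨PI, KI, hPI⟩ := hI
  let body : Empty → NStmt (S ⊕ RO) Empty := fun f => nomatch f
  let prog : NStmt (S ⊕ RO) Empty := sqN [NC.ren (rI S) (fun f => f) PI,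
    NC.asg (Sum.inr .t') 0, NC.asg (Sum.inr .vv) 0, P]
  obtain ⟨c₂, hc₂⟩ := exists_NTM_of_run (α := α) cod body prog (Sum.inr .res)
  obtain ⟨a, ha1, ha2, ha3, ha4⟩ : ∃ a : ℕ, KI ≤ a ∧
      K₀ + (2 + (Nat.card M.Stack + 1) * (b + D + 1)) ≤ a ∧
      K₁ + (3 + K₁ * (c₁ * 4)) ≤ a ∧ 1 ≤ a :=
    ⟨KI + (K₀ + (2 + (Nat.card M.Stack + 1) * (b + D + 1))) + (K₁ + (3 + K₁ * (c₁ * 4))),
      by omega, by omega, by omega, by omega⟩
  have hA : ∀ {k : ℕ} (n : ℕ), k ≤ a → 2 ^ (k * W n) ≤ 2 ^ (a * W n) := fun n hk =>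
    Nat.pow_le_pow_right (by norm_num) (Nat.mul_le_mul_right _ hk)
  have hA2 : ∀ n, 2 ≤ 2 ^ (a * W n) := fun n => by
    have h1 : 1 ≤ a * W n := Nat.one_le_iff_ne_zero.2
      (Nat.mul_ne_zero (by omega) (by have := W_pos n; omega))
    calc 2 = 2 ^ 1 := rfl
      _ ≤ 2 ^ (a * W n) := Nat.pow_le_pow_right (by norm_num) h1
  have hO' : ∀ n, K₀ * ((n + 2) * (Nat.card M.Stack + 1) ^ (b * W n + D + 1)) ≤
      2 ^ (a * W n) := fun n => by
    have h1 : (Nat.card M.Stack + 1) ^ (b * W n + D + 1) ≤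
        2 ^ ((Nat.card M.Stack + 1) * (b + D + 1) * W n) := by
      refine (pow_le_two _ _).trans (Nat.pow_le_pow_right (by norm_num) ?_)
      rw [Nat.mul_assoc]
      refine Nat.mul_le_mul_left _ ?_
      have := W_pos n
      nlinarith
    refine (mul_le_two_pow (const_le K₀ n) (mul_le_two_pow (le_two_pow_W n) h1)).trans ?_
    rw [← Nat.add_mul, ← Nat.add_mul]
    exact hA n ha2
  have hS' : ∀ n, K₁ * ((n + 4) * K₁ ^ (c₁ * W (n + 2))) ≤ 2 ^ (a * W n) := fun n => by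
    have h1 : K₁ ^ (c₁ * W (n + 2)) ≤ 2 ^ (K₁ * (c₁ * 4) * W n) := by
      refine (pow_le_two _ _).trans (Nat.pow_le_pow_right (by norm_num) ?_)
      rw [Nat.mul_assoc, Nat.mul_assoc]
      exact Nat.mul_le_mul_left _ (Nat.mul_le_mul_left _ (W_add_two n))
    have h2 : n + 4 ≤ 2 ^ (3 * W n) := by
      have h3 := le_two_pow_W n
      have h4 := W_pos n
      calc n + 4 ≤ 2 * 2 ^ (2 * W n) := by omega
        _ = 2 ^ (2 * W n + 1) := by rw [pow_succ, Nat.mul_comm]
        _ ≤ 2 ^ (3 * W n) := Nat.pow_le_pow_right (by norm_num) (by omega)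
    refine (mul_le_two_pow (const_le K₁ n) (mul_le_two_pow h2 h1)).trans ?_
    rw [← Nat.add_mul, ← Nat.add_mul]
    exact hA n ha3
  have hrun : ∀ (x : List α) {u v : ℕ → Bool} {t : S ⊕ RO → ℕ},
      RunN x cod (2 ^ (a * W x.length)) body 0 P (Sum.elim (fun _ => 0) (iniO x.length
        (b * W x.length) (Nat.card M.State * (x.length + 2) *
          (Nat.card M.Stack + 1) ^ (b * W x.length + D + 1)))) u t v →
      RunN x cod (2 ^ (a * W x.length)) body 0 prog (fun _ => 0) u t v := fun x u v t h => by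
    have h0 : 0 < 2 ^ (a * W x.length) := Nat.two_pow_pos _
    have h1 := hPI x (2 ^ (a * W x.length)) (hA _ ha1)
    have h2 := RunA.ren (rI_inj S) (φ := fun f : Empty => f) (body := body)
      (fun f => nomatch f) h1 (fun _ => 0) u
    have h3 : mrg (rI S) (fun _ => 0) (fun _ => 0) = (fun _ : S ⊕ RO => (0 : ℕ)) := by
      funext q
      by_cases hq : ∃ r, rI S r = q
      · obtain ⟨r, rfl⟩ := hq
        exact mrg_apply (rI_inj S) _ _ r
      · exact mrg_of_not _ _ fun r hr => hq ⟨r, hr⟩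
    rw [h3] at h2
    refine RunN.cons h2 (RunN.set 0 rfl h0 (RunN.set 0 rfl h0 (RunN.cons ?_ RunN.nil)))
    rw [rI_init]
    exact h
  have hmain := fun x : List α => hP x (2 ^ (a * W x.length)) 0 body
    (hq x _ 0 body (hS' x.length)) (b * W x.length) _ (hO' x.length) rfl
  obtain ⟨T', hT'⟩ := hc₂ (fun x => M.AcceptsLow (b * W x.length) x) (fun n => 2 ^ (a * W n))
    (fun _ => 0) hA2
    (fun x u => by
      obtain ⟨t, v, h, -⟩ := (hmain x).1 u
      exact ⟨t, v, hrun x h⟩)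
    (fun x => by
      constructor
      · intro hx
        obtain ⟨u, t, v, h, ht⟩ := (hmain x).2 hx
        exact ⟨u, t, v, hrun x h, ht⟩
      · rintro ⟨u, t, v, h, ht⟩
        obtain ⟨t', v', h', ht'⟩ := (hmain x).1 u
        obtain ⟨rfl, -⟩ := RunN.det h (hrun x h')
        exact ht' ht)
  refine ⟨c₂ * (a + 1), T', AcceptsIn.mono hT' fun n => ?_⟩
  rw [Nat.log_pow (by norm_num), Nat.mul_assoc]
  refine Nat.mul_le_mul_left _ ?_
  have := W_pos n
  rw [Nat.add_mul]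
  omega

end RC

end Pool.Agent.Lib.MP_9277c3_lc
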