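import Pool.Agent.Lib.MP_9277c3_lc.RC.SpecO

/-!
# The steps with a high stack
-/

set_option autoImplicit false

namespace Pool.Agent.Lib.MP_9277c3_lc

namespace RC

open CM NC

namespace High

section

variable {α : Type} (M : NPDA α)

theorem card_pos : 0 < Nat.card M.Stack := Nat.card_pos

theorem scode_cons (X : M.Stack) (γ : List M.Stack) :
    scode M (X :: γ) = (cod X + 1) + (Nat.card M.Stack + 1) * scode M γ := rfl

theorem scode_mod (X : M.Stack) (γ : List M.Stack) :
    scode M (X :: γ) % (Nat.card M.Stack + 1) - 1 = cod X := by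
  have h1 := cod_lt X
  rw [scode_cons, Nat.add_mul_mod_self_left, Nat.mod_eq_of_lt (by omega)]
  omega

theorem scode_div (X : M.Stack) (γ : List M.Stack) :
    scode M (X :: γ) / (Nat.card M.Stack + 1) = scode M γ := by
  have h1 := cod_lt X
  rw [scode_cons, Nat.add_mul_div_left _ _ (by omega), Nat.div_eq_of_lt (by omega), Nat.zero_add]

theorem scode_lt (γ : List M.Stack) : scode M γ < (Nat.card M.Stack + 1) ^ γ.length := by
  induction γ with
  | nil => simp [scode]
  | cons X γ ih =>
    have h1 := cod_lt X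
    rw [scode_cons, List.length_cons, pow_succ']
    have h2 : (Nat.card M.Stack + 1) * (scode M γ + 1) ≤
        (Nat.card M.Stack + 1) * (Nat.card M.Stack + 1) ^ γ.length := Nat.mul_le_mul_left _ ih
    rw [Nat.mul_add] at h2
    omega

end

section

variable {α S F : Type} (M : NPDA α)

theorem upd_r (a : S → ℕ) (o : RO → ℕ) (r : RO) (v : ℕ) :
    upd (Sum.elim a o) (Sum.inr r) v = Sum.elim a (upd o r v) := by
  funext b
  cases b with
  | inl b => simp [upd]
  | inr b =>
    by_cases h : b = r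
    · subst h
      simp
    · rw [upd_ne (by simpa using h)]
      simp [upd_ne h]

theorem upd_l (a : S → ℕ) (o : RO → ℕ) (r : S) (v : ℕ) :
    upd (Sum.elim a o) (Sum.inl r) v = Sum.elim (upd a r v) o := by
  funext b
  cases b with
  | inr b => simp [upd]
  | inl b =>
    by_cases h : b = r
    · subst h
      simp
    · rw [upd_ne (by simpa using h)]
      simp [upd_ne h]

/-- A register of the main loop. -/
abbrev ro (r : RO) : Exp (S ⊕ RO) := Exp.var (Sum.inr r)

open Classical in
/-- The part after the query. -/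
noncomputable def endP : NStmt (S ⊕ RO) F :=
  Stmt.ite (Sum.inr .t)
    (sqN [asg (Sum.inr .t) (tabE (fun d : Option M.State => if d = none then 1 else 0) (ro .d)),
      Stmt.ite (Sum.inr .t) (sqN [asg (Sum.inr .res) 1, asg (Sum.inr .go) 0])
        (sqN [asg (Sum.inr .q) (tabE (fun d : Option M.State => cod (d.getD default)) (ro .d)),
          asg (Sum.inr .i) (ro .j), asg (Sum.inr .Z) (ro .Z / Exp.lit (Nat.card M.Stack + 1)),
          asg (Sum.inr .H) (ro .H - 1)])])
    (asg (Sum.inr .go) 0)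

/-- The program. -/
noncomputable def prog (K : ℕ) (res : S) (qry : NStmt (S ⊕ RO) F) : NStmt (S ⊕ RO) F :=
  sqN [asg (Sum.inr .X) (ro .Z % Exp.lit (Nat.card M.Stack + 1) - 1),
    gk (Sum.inr .d) (Sum.inr .fl) K,
    asg (Sum.inr .d) (ro .d % Exp.lit (Nat.card (Option M.State))),
    asg (Sum.inr .t') (ro .n + 2),
    guess (Sum.inr .j) (Sum.inr .t') (Sum.inr .t) (Sum.inr .fl),
    qry,
    asg (Sum.inr .t) (1 - (1 - Exp.var (Sum.inl res))),
    asg (Sum.inl res) 0,
    endP M,
    asg (Sum.inr .X) 0, asg (Sum.inr .d) 0, asg (Sum.inr .j) 0, asg (Sum.inr .t) 0,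
    asg (Sum.inr .t') 0]

/-- The registers before the query. -/
noncomputable def midO (n h C : ℕ) (c : M.Cfg) (X : M.Stack) (d j : ℕ) : RO → ℕ :=
  upd (upd (upd (upd (stO M n h C c 1 0) .X (cod X)) .d d) .t' (n + 2)) .j j

end

section

variable {α S F : Type} [Finite α] {M : NPDA α} {x : List α} {A k : ℕ}
  {body : F → NStmt (S ⊕ RO) F}

/-- The bounds. -/
structure Bd (M : NPDA α) (x : List α) (A K : ℕ) (X : M.Stack) (γ : List M.Stack) : Prop where
  hK : 2 ^ K ≤ A
  hN : Nat.card (Option M.State) ≤ 2 ^ K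
  hn : 2 * (x.length + 2) ≤ A
  hn' : x.length + 2 < A
  hZ : scode M (X :: γ) < A
  hH : γ.length + 1 < A
  hQ : Nat.card M.State < A

theorem bd_of_big {K D : ℕ} (hN : Nat.card (Option M.State) ≤ 2 ^ K) {q : M.State} {i : ℕ}
    {X : M.Stack} {γ : List M.Stack}
    (h : Big M x A (2 ^ K + Nat.card M.State + 4) (q, i, X :: γ) D) : Bd M x A K X γ := by
  obtain ⟨-, h⟩ := h
  have hB : 2 ≤ Nat.card M.Stack + 1 := by
    have := card_pos M
    omega
  simp only at h
  set B := Nat.card M.Stack + 1 with hBdef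
  have h1 : B ^ (X :: γ).length ≤ B ^ ((X :: γ).length + D) :=
    Nat.pow_le_pow_right (by omega) (Nat.le_add_right _ _)
  have h2 : (x.length + 2) * B ^ (X :: γ).length ≤ (x.length + 2) * B ^ ((X :: γ).length + D) :=
    Nat.mul_le_mul_left _ h1
  have h3 := scode_lt M (X :: γ)
  rw [← hBdef] at h3
  have h4 : (X :: γ).length < B ^ (X :: γ).length := Nat.lt_pow_self (by omega)
  have h5 : 1 ≤ B ^ (X :: γ).length := Nat.one_le_pow _ _ (by omega)
  set p := B ^ (X :: γ).length with hp
  have h6 : (x.length + 2) * p ≤ (x.length + 2) * B ^ ((X :: γ).length + D) := h2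
  have h7 : (2 ^ K + Nat.card M.State + 4) * ((x.length + 2) * p) ≤ A :=
    (Nat.mul_le_mul_left _ h6).trans h
  have h8 : x.length + 2 ≤ (x.length + 2) * p := Nat.le_mul_of_pos_right _ (by omega)
  have h9 : 2 * p ≤ (x.length + 2) * p := Nat.mul_le_mul_right _ (by omega)
  set P := (x.length + 2) * p with hP
  have h10 : (2 ^ K + Nat.card M.State + 4) * P = 2 ^ K * P + Nat.card M.State * P + 4 * P := by
    ring
  rw [h10] at h7
  have h11 : 2 ^ K ≤ 2 ^ K * P := Nat.le_mul_of_pos_right _ (by omega)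
  have h12 : Nat.card M.State ≤ Nat.card M.State * P := Nat.le_mul_of_pos_right _ (by omega)
  have h13 : (X :: γ).length = γ.length + 1 := rfl
  rw [h13] at h4
  exact ⟨by omega, hN, by omega, by omega, by omega, by omega, by omega⟩

theorem run_pre {K : ℕ} {h C : ℕ} {q : M.State} {i : ℕ} {X : M.Stack} {γ : List M.Stack}
    (hB : Bd M x A K X γ) {l : List (NStmt (S ⊕ RO) F)} {u v : ℕ → Bool} {s : S ⊕ RO → ℕ}
    (hl : RunN x cod A body k (sqN l) (Sum.elim (fun _ => 0) (midO M x.length h C (q, i, X :: γ) X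
      (gb K u % Nat.card (Option M.State)) (gval (x.length + 2) (sh K u))))
      (grest (x.length + 2) (sh K u)) s v) :
    RunN x cod A body k (sqN (asg (Sum.inr .X) (ro .Z % Exp.lit (Nat.card M.Stack + 1) - 1) ::
      gk (Sum.inr .d) (Sum.inr .fl) K ::
      asg (Sum.inr .d) (ro .d % Exp.lit (Nat.card (Option M.State))) ::
      asg (Sum.inr .t') (ro .n + 2) ::
      guess (Sum.inr .j) (Sum.inr .t') (Sum.inr .t) (Sum.inr .fl) :: l))
      (stA M S x.length h C (q, i, X :: γ) 1 0) u s v := by
  have hA := hB.hK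
  have hX := cod_lt X
  have hgb := gb_lt K u
  refine RunN.set (cod X) ?_ ?_ ?_
  · simp only [stA, eval_sub, eval_mod, eval_var, eval_one, Sum.elim_inr, stO]
    exact scode_mod M X γ
  · have h1 := hB.hZ
    rw [scode_cons] at h1
    omega
  refine RunN.cons (run_gk (by simp) (by simp [stA, upd, stO]) hA k u) ?_
  refine RunN.set (gb K u % Nat.card (Option M.State)) ?_ ?_ ?_
  · simp only [eval_mod, eval_var, upd_self]
    rfl
  · exact (Nat.mod_le _ _).trans_lt (hgb.trans_le hA)
  refine RunN.set (x.length + 2) ?_ hB.hn' ?_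
  · simp only [stA, eval_add, eval_ofNat, eval_var, upd_r, Sum.elim_inr]
    simp [stO]
  refine RunN.cons (run_guess (by simp) (by simp) (by simp) (by simp) (by simp) (by simp)
    (by simp [stA, upd_r, stO]) (by simp [stA, upd_r, stO]) ?_ ?_ k (sh K u)) ?_
  · rw [upd_self]
    exact hB.hn
  · rw [upd_self]
    omega
  · rw [upd_self]
    refine hl.congr_left ?_
    simp only [stA, upd_r, midO, upd_upd]

/-- The end of the program. -/
noncomputable def postL (M : NPDA α) (res : S) : List (NStmt (S ⊕ RO) F) :=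
  [asg (Sum.inr .t) (1 - (1 - Exp.var (Sum.inl res))), asg (Sum.inl res) 0, endP M,
    asg (Sum.inr .X) 0, asg (Sum.inr .d) 0, asg (Sum.inr .j) 0, asg (Sum.inr .t) 0,
    asg (Sum.inr .t') 0]

theorem zero_l (res : S) (r : ℕ) : upd (upd (fun _ : S => 0) res r) res 0 = fun _ => 0 := by
  rw [upd_upd]
  funext a
  by_cases h : a = res
  · subst h
    simp
  · simp [upd_ne h]

theorem run_post {h C : ℕ} {c c' : M.Cfg} {X : M.Stack} {D J r go' res' : ℕ} {res : S}
    (hA : 2 < A) {o : RO → ℕ} (u : ℕ → Bool)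
    (he : RunN x cod A body k (endP M) (Sum.elim (fun _ => 0)
      (upd (midO M x.length h C c X D J) .t (1 - (1 - r)))) u (Sum.elim (fun _ => 0) o) u)
    (ho : upd (upd (upd (upd (upd o .X 0) .d 0) .j 0) .t 0) .t' 0 =
      stO M x.length h C c' go' res') :
    RunN x cod A body k (sqN (postL M res)) (Sum.elim (upd (fun _ => 0) res r)
      (midO M x.length h C c X D J)) u (stA M S x.length h C c' go' res') u := by
  refine RunN.set (1 - (1 - r)) ?_ (by omega) (RunN.set 0 rfl (by omega) (RunN.cons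
    (t := Sum.elim (fun _ => 0) o) (v := u) ?_ ?_))
  · simp only [eval_sub, eval_one, eval_var, Sum.elim_inl, upd_self]
  · refine he.congr_left ?_
    rw [upd_r, upd_l, zero_l]
  · refine RunN.set 0 rfl (by omega) (RunN.set 0 rfl (by omega) (RunN.set 0 rfl (by omega)
      (RunN.set 0 rfl (by omega) (RunN.set 0 rfl (by omega) ((RunN.nil).cast ?_)))))
    simp only [upd_r, ho, stA]

/-- The query is not confirmed. -/
theorem run_post_zero {h C : ℕ} {q : M.State} {i : ℕ} {X : M.Stack} {γ : List M.Stack} {D J : ℕ}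
    {res : S} (hA : 2 < A) (u : ℕ → Bool) :
    RunN x cod A body k (sqN (postL M res)) (Sum.elim (upd (fun _ => 0) res 0)
      (midO M x.length h C (q, i, X :: γ) X D J)) u
      (stA M S x.length h C (q, i, X :: γ) 0 0) u := by
  refine run_post hA u (RunN.iteF _ _ _ _ _ _ _ _ ?_ (RunN.asg _ _ _ _ _ ?_) |>.cast (upd_r _ _ _ _)) ?_
  · simp
  · simp only [Exp.eval]
    show 0 < A
    omega
  · funext a
    cases a <;> simp [midO, stO, upd]

/-- An accepting configuration is reached. -/
theorem run_post_none {h C : ℕ} {q : M.State} {i : ℕ} {X : M.Stack} {γ : List M.Stack} {J r : ℕ}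
    {res : S} (hA : 2 < A) (hr : r ≠ 0) (u : ℕ → Bool) :
    RunN x cod A body k (sqN (postL M res)) (Sum.elim (upd (fun _ => 0) res r)
      (midO M x.length h C (q, i, X :: γ) X (cod (none : Option M.State)) J)) u
      (stA M S x.length h C (q, i, X :: γ) 0 1) u := by
  classical
  refine run_post (o := upd (upd (upd (midO M x.length h C (q, i, X :: γ) X
    (cod (none : Option M.State)) J) .t 1) .res 1) .go 0) hA u
    (RunN.iteT _ _ _ _ _ _ _ _ ?_ (RunN.set 1 ?_ (by omega) (RunN.cons (RunN.iteT _ _ _ _ _ _ _ _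
      ?_ (RunN.set 1 rfl (by omega) (RunN.set 0 rfl (by omega) RunN.nil))) ((RunN.nil).cast ?_))))
      ?_
  · simp only [Sum.elim_inr, upd_self]
    omega
  · rw [eval_tabE (t := (none : Option M.State)) _ (by
      simp only [eval_var, Sum.elim_inr]
      simp [midO])]
    simp
  · simp
  · simp only [upd_r, upd_upd]
  · funext a
    cases a <;> simp [midO, stO, upd]

/-- The topmost symbol is removed. -/
theorem run_post_some {K h C : ℕ} {q q' : M.State} {i : ℕ} {X : M.Stack} {γ : List M.Stack}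
    {J r : ℕ} {res : S} (hB : Bd M x A K X γ) (hJ : J < x.length + 2) (hr : r ≠ 0)
    (u : ℕ → Bool) :
    RunN x cod A body k (sqN (postL M res)) (Sum.elim (upd (fun _ => 0) res r)
      (midO M x.length h C (q, i, X :: γ) X (cod (some q')) J)) u
      (stA M S x.length h C (q', J, γ) 1 0) u := by
  classical
  have h1 := hB.hn'
  have h2 := hB.hZ
  have h3 := hB.hH
  have h4 := cod_lt q'
  have h5 := hB.hQ
  rw [scode_cons] at h2
  have h6 : scode M γ ≤ (Nat.card M.Stack + 1) * scode M γ := Nat.le_mul_of_pos_left _ (by omega)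
  refine run_post (o := upd (upd (upd (upd (upd (midO M x.length h C (q, i, X :: γ) X
    (cod (some q')) J) .t 0) .q (cod q')) .i J) .Z (scode M γ)) .H γ.length) (by omega) u
    (RunN.iteT _ _ _ _ _ _ _ _ ?_ (RunN.set 0 ?_ (by omega) (RunN.cons (RunN.iteF _ _ _ _ _ _ _ _
      ?_ (RunN.set (cod q') ?_ (by omega) (RunN.set J ?_ (by omega) (RunN.set (scode M γ) ?_
      (by omega) (RunN.set γ.length ?_ (by omega) RunN.nil))))) ((RunN.nil).cast ?_)))) ?_
  · simp only [Sum.elim_inr, upd_self]
    omega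
  · rw [eval_tabE (t := some q') _ (by
      simp only [eval_var, Sum.elim_inr]
      simp [midO])]
    simp
  · simp
  · rw [eval_tabE (t := some q') _ (by
      simp only [eval_var, upd_r, Sum.elim_inr]
      simp [midO])]
    simp
  · simp only [eval_var, upd_r, Sum.elim_inr]
    simp [midO]
  · simp only [eval_var, eval_div, upd_r, Sum.elim_inr]
    have e : (upd (upd (upd (upd (midO M x.length h C (q, i, X :: γ) X (cod (some q')) J) RO.t
      (1 - (1 - r))) RO.t 0) RO.q (cod q')) RO.i J) RO.Z = scode M (X :: γ) := by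
      simp [midO, stO]
    rw [e]
    exact scode_div M X γ
  · simp only [eval_var, eval_sub, eval_one, upd_r, Sum.elim_inr]
    simp [midO, stO]
  · simp only [upd_r, upd_upd]
  · funext a
    cases a <;> simp [midO, stO, upd]

theorem midO_spec {n h C : ℕ} {q : M.State} {i : ℕ} {X : M.Stack} {γ : List M.Stack} {D J : ℕ} :
    midO M n h C (q, i, X :: γ) X D J .n = n ∧ midO M n h C (q, i, X :: γ) X D J .q = cod q ∧
    midO M n h C (q, i, X :: γ) X D J .i = i ∧ midO M n h C (q, i, X :: γ) X D J .X = cod X ∧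
    midO M n h C (q, i, X :: γ) X D J .d = D ∧ midO M n h C (q, i, X :: γ) X D J .j = J := by
  refine ⟨?_, ?_, ?_, ?_, ?_, ?_⟩ <;> simp [midO, stO]

end

section

variable {α : Type} [Finite α] (M : NPDA α)

theorem highOK {S F : Type} {K D : ℕ} (hK : Nat.card (Option M.State) ≤ 2 ^ K) (res : S)
    (qry : NStmt (S ⊕ RO) F) (x : List α) (A k : ℕ) (body : F → NStmt (S ⊕ RO) F)
    (hq : QryOK M x A body k res qry) :
    HighOK M x A (2 ^ K + Nat.card M.State + 4) D body k (prog M K res qry) where
  total := by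
    intro h C q i X γ hbig u
    have hB := bd_of_big hK hbig
    have hc : 0 < Nat.card (Option M.State) := Nat.card_pos
    have hD : gb K u % Nat.card (Option M.State) < Nat.card (Option M.State) := Nat.mod_lt _ hc
    have hJ := gval_lt (show 0 < x.length + 2 by omega) (sh K u)
    set Dn := gb K u % Nat.card (Option M.State) with hDn
    set J := gval (x.length + 2) (sh K u) with hJn
    obtain ⟨s1, s2, s3, s4, s5, s6⟩ := midO_spec (M := M) (n := x.length) (h := h) (C := C)
      (q := q) (i := i) (X := X) (γ := γ) (D := Dn) (J := J)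
    have hdc : cod (dcd Dn : Option M.State) = Dn := cod_dcd hD
    obtain ⟨r, v, h1, h2⟩ := hq.total _ q i X (dcd Dn) J hbig.1 (by omega) s1 s2 s3 s4
      (s5.trans hdc.symm) s6 (grest (x.length + 2) (sh K u))
    have hn' := hB.hn'
    by_cases hr : r = 0
    · subst hr
      exact ⟨(q, i, X :: γ), 0, 0, v, run_pre hB (RunN.cons h1 (run_post_zero (by omega) v)),
        Or.inl ⟨rfl, rfl⟩⟩
    · have hQ := h2 hr
      cases hd : (dcd Dn : Option M.State) with
      | none =>
        rw [hd] at hdc hQ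
        refine ⟨(q, i, X :: γ), 0, 1, v, run_pre hB (RunN.cons h1 ?_), Or.inr (Or.inl ⟨rfl, rfl, hQ⟩)⟩
        rw [← hdc]
        exact run_post_none (by omega) hr v
      | some q' =>
        rw [hd] at hdc hQ
        refine ⟨(q', J, γ), 1, 0, v, run_pre hB (RunN.cons h1 ?_),
          Or.inr (Or.inr ⟨rfl, rfl, q', J, by omega, hQ, rfl⟩)⟩
        rw [← hdc]
        exact run_post_some hB hJ hr v
  accept := by
    intro h C q i X γ hbig hQ v
    have hB := bd_of_big hK hbig
    have hn' := hB.hn'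
    obtain ⟨s1, s2, s3, s4, s5, s6⟩ := midO_spec (M := M) (n := x.length) (h := h) (C := C)
      (q := q) (i := i) (X := X) (γ := γ) (D := cod (none : Option M.State)) (J := 0)
    obtain ⟨u₂, r, hr, h1⟩ := hq.complete _ q i X none 0 hbig.1 (by omega) s1 s2 s3 s4 s5 s6 hQ v
    obtain ⟨u₁, g1, g2⟩ := guess_surj (show 0 < x.length + 2 by omega) u₂
    have hd := cod_lt (none : Option M.State)
    obtain ⟨u₀, g3, g4⟩ := gb_surj K (cod (none : Option M.State)) (by omega) u₁
    refine ⟨(q, i, X :: γ), u₀, run_pre hB ?_⟩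
    rw [g3, g4, g1, g2, Nat.mod_eq_of_lt hd]
    exact RunN.cons h1 (run_post_none (by omega) hr v)
  pop := by
    intro h C q i X γ hbig q' j hj hQ v
    have hB := bd_of_big hK hbig
    obtain ⟨s1, s2, s3, s4, s5, s6⟩ := midO_spec (M := M) (n := x.length) (h := h) (C := C)
      (q := q) (i := i) (X := X) (γ := γ) (D := cod (some q')) (J := j)
    obtain ⟨u₂, r, hr, h1⟩ := hq.complete _ q i X (some q') j hbig.1 hj s1 s2 s3 s4 s5 s6 hQ v
    obtain ⟨u₁, g1, g2⟩ := guess_surj (show j < x.length + 2 by omega) u₂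
    have hd := cod_lt (some q')
    obtain ⟨u₀, g3, g4⟩ := gb_surj K (cod (some q')) (by omega) u₁
    refine ⟨u₀, run_pre hB ?_⟩
    rw [g3, g4, g1, g2, Nat.mod_eq_of_lt hd]
    exact RunN.cons h1 (run_post_some hB (by omega) hr v)

end

end High

/-- The program for high steps. -/
theorem highSpec {α : Type} [Finite α] (M : NPDA α) (D : ℕ) : HighSpec M D := by
  obtain ⟨K, hK⟩ : ∃ K, Nat.card (Option M.State) ≤ 2 ^ K :=
    ⟨_, Nat.lt_two_pow_self.le⟩
  exact ⟨2 ^ K + Nat.card M.State + 4, fun S F res qry => ⟨High.prog M K res qry,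
    fun x A k body hq => High.highOK M hK res qry x A k body hq⟩⟩

end RC

end Pool.Agent.Lib.MP_9277c3_lc
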