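import Pool.Agent.Lib.MP_9277c3_lc.RC.Spec
import Pool.Agent.Lib.MP_9277c3_lc.NS.BndOK

/-!
# Computation of the parameters of the search
-/

set_option autoImplicit false

namespace Pool.Agent.Lib.MP_9277c3_lc.RC

open CM NC

/-- The distance of the code of the cell `n + 1` from `rc`. -/
def dstE (rc : ℕ) : Exp RI :=
  (Exp.inp ((Exp.var RI.n : Exp RI) + 1) - (Exp.lit rc : Exp RI)) +
    ((Exp.lit rc : Exp RI) - Exp.inp ((Exp.var RI.n : Exp RI) + 1))

/-- The program. -/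
def iniC (rc kq B D b : ℕ) : AStmt RI Empty :=
  sqA [CM.set .t (dstE rc),
    Stmt.loop .t (sqA [CM.set .n ((Exp.var RI.n : Exp RI) + 1), CM.set .t (dstE rc)]),
    CM.set .s 2, CM.set .t ((Exp.var RI.n : Exp RI) + 3 - (Exp.var RI.s : Exp RI)),
    Stmt.loop .t (sqA [CM.set .L ((Exp.var RI.L : Exp RI) + 1), CM.set .s (2 * (Exp.var RI.s : Exp RI)),
      CM.set .t ((Exp.var RI.n : Exp RI) + 3 - (Exp.var RI.s : Exp RI))]),
    CM.set .s 0, CM.set .t ((Exp.var RI.L : Exp RI) + 1 - ((Exp.var RI.s : Exp RI) + 1) * ((Exp.var RI.s : Exp RI) + 1)),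
    Stmt.loop .t (sqA [CM.set .s ((Exp.var RI.s : Exp RI) + 1),
      CM.set .t ((Exp.var RI.L : Exp RI) + 1 - ((Exp.var RI.s : Exp RI) + 1) * ((Exp.var RI.s : Exp RI) + 1))]),
    CM.set .h ((Exp.lit b : Exp RI) * ((Exp.var RI.L : Exp RI) * ((Exp.var RI.s : Exp RI) + 1))),
    CM.set .C ((Exp.lit kq : Exp RI) * ((Exp.var RI.n : Exp RI) + 2)),
    CM.set .t ((Exp.var RI.h : Exp RI) + (Exp.lit D : Exp RI) + 1),
    Stmt.loop .t (sqA [CM.set .C ((Exp.var RI.C : Exp RI) * (Exp.lit B : Exp RI)), CM.set .t ((Exp.var RI.t : Exp RI) - 1)])]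

/-- The height. -/
def hI (b n : ℕ) : ℕ := b * (Nat.log 2 (n + 2) * (Nat.sqrt (Nat.log 2 (n + 2)) + 1))

/-- The bound for the number of macro configurations. -/
def cI (kq B D b n : ℕ) : ℕ := kq * (n + 2) * B ^ (hI b n + D + 1)

/-- The values of the parameters. -/
def iniS (kq B D b n : ℕ) : RI → ℕ
  | .n => n
  | .L => Nat.log 2 (n + 2)
  | .s => Nat.sqrt (Nat.log 2 (n + 2))
  | .h => hI b n
  | .C => cI kq B D b n
  | .i => 0
  | .t => 0

section

variable {α : Type} {x : List α}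

theorem evI_lit {cc : Cell α → ℕ} (s : RI → ℕ) (k : ℕ) : (Exp.lit k).eval x cc s = k := rfl

theorem evI_inp {cc : Cell α → ℕ} (s : RI → ℕ) (a : Exp RI) :
    (Exp.inp a).eval x cc s = cc (cell x (a.eval x cc s)) := rfl

theorem cell_letter {i : ℕ} (hi : i < x.length) : cell x (i + 1) = Cell.letter x[i] := by
  simp only [cell]
  rw [List.getElem?_eq_getElem hi]

theorem cell_right {i : ℕ} (hi : x.length ≤ i) : cell x (i + 1) = Cell.right := by
  simp only [cell]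
  rw [List.getElem?_eq_none hi]

end

section

variable {α : Type} [Finite (Cell α)] {x : List α} {A : ℕ} {kq B D b : ℕ}

theorem run_iniC (hq : 1 ≤ kq) (hB : 2 ≤ B) (h1 : Nat.card (Cell α) ≤ A)
    (h2 : cI kq B D b x.length < A) {body : Empty → AStmt RI Empty} {k : ℕ} :
    RunA x cod A body k (iniC (cod (Cell.right : Cell α)) kq B D b) (fun _ => 0)
      (iniS kq B D b x.length) := by
  set n := x.length with hn
  set L := Nat.log 2 (n + 2) with hL
  set s := Nat.sqrt L with hs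
  set h := hI b n with hh
  have hh' : h = b * (L * (s + 1)) := rfl
  set rc := cod (Cell.right : Cell α) with hrc
  have hcell : ∀ c : Cell α, cod c < Nat.card (Cell α) := cod_lt
  have c1 : 2 ^ (h + D + 1) ≤ B ^ (h + D + 1) := Nat.pow_le_pow_left hB _
  have c2 : h + D + 1 < 2 ^ (h + D + 1) := Nat.lt_two_pow_self
  have c3 : 2 ^ (h + D + 1) = 2 * 2 ^ (h + D) := by rw [pow_succ]; ring
  have c4 : 1 ≤ 2 ^ (h + D) := Nat.one_le_two_pow
  have c5 : kq * (n + 2) * B ^ (h + D + 1) < A := h2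
  have c6 : (n + 2) * 2 ^ (h + D + 1) ≤ kq * (n + 2) * B ^ (h + D + 1) := by
    refine Nat.mul_le_mul ?_ c1
    exact Nat.le_mul_of_pos_left _ (by omega)
  have c7 : (n + 2) * 2 ≤ (n + 2) * 2 ^ (h + D + 1) := Nat.mul_le_mul_left _ (by omega)
  have c8 : 2 * (n + 2) < A := by omega
  have c9 : h + D + 1 < A := by
    have : 2 ^ (h + D + 1) ≤ (n + 2) * 2 ^ (h + D + 1) := Nat.le_mul_of_pos_left _ (by omega)
    omega
  have cL : 2 ^ L ≤ n + 2 := Nat.pow_log_le_self 2 (by omega)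
  have cL' : L < 2 ^ L := Nat.lt_two_pow_self
  have cL2 : n + 2 < 2 ^ (L + 1) := Nat.lt_pow_succ_log_self (by norm_num) _
  have hs1 : s * s ≤ L := Nat.sqrt_le L
  have hs2 : L < (s + 1) * (s + 1) := Nat.lt_succ_sqrt L
  have hs3 : s ≤ L := Nat.sqrt_le_self L
  -- the length
  refine RunA.sets (cod (cell x 1) - rc + (rc - cod (cell x 1))) rfl (by
    have := hcell (cell x 1); have := hcell (Cell.right : Cell α); omega) ?_
  refine RunA.cons ((RunA.seqLoop RI.t _ (fun i => upd (upd (fun _ : RI => 0) .n i) .t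
    (cod (cell x (i + 1)) - rc + (rc - cod (cell x (i + 1))))) n
    (fun i hi => ?_) ?_ (fun i hi => ?_)).congr_left ?_) ?_
  · simp only [upd_self]
    have e1 : cod (cell x (i + 1)) ≠ rc := fun e => by
      have := cod_inj e
      rw [cell_letter hi] at this
      cases this
    omega
  · simp only [upd_self]
    rw [cell_right (le_of_eq hn.symm)]
    omega
  · refine RunA.sets (i + 1) ?_ (by omega) (RunA.sets
      (cod (cell x (i + 1 + 1)) - rc + (rc - cod (cell x (i + 1 + 1)))) ?_ (by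
      have := hcell (cell x (i + 1 + 1)); have := hcell (Cell.right : Cell α); omega)
      (RunA.nil.cast ?_))
    · simp
    · simp [dstE, evI_lit, evI_inp, hrc]
    · funext q; cases q <;> simp
  · funext q; cases q <;> simp
  -- the logarithm
  refine RunA.sets 2 (by simp) (by omega) (RunA.sets (n + 3 - 2) ?_ (by omega) ?_)
  · simp
  refine RunA.cons ((RunA.seqLoop RI.t _ (fun i => upd (upd (upd (upd (fun _ : RI => 0) .n n) .L i) .s
    (2 ^ (i + 1))) .t (n + 3 - 2 ^ (i + 1))) L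
    (fun i hi => ?_) ?_ (fun i hi => ?_)).congr_left ?_) ?_
  · simp only [upd_self]
    have e1 : 2 ^ (i + 1) ≤ 2 ^ L := Nat.pow_le_pow_right (by norm_num) hi
    omega
  · simp only [upd_self]
    omega
  · have e1 : 2 ^ (i + 1) ≤ 2 ^ L := Nat.pow_le_pow_right (by norm_num) hi
    have e2 : 2 ^ (i + 1 + 1) = 2 * 2 ^ (i + 1) := by rw [pow_succ]; ring
    refine RunA.sets (i + 1) ?_ (by omega) (RunA.sets (2 ^ (i + 1 + 1)) ?_ (by omega)
      (RunA.sets (n + 3 - 2 ^ (i + 1 + 1)) ?_ (by omega) (RunA.nil.cast ?_)))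
    · simp
    · simp [e2]
    · simp
    · funext q; cases q <;> simp
  · funext q; cases q <;> simp
  -- the square root
  refine RunA.sets 0 (by simp) (by omega) (RunA.sets (L + 1 - (0 + 1) * (0 + 1)) ?_ (by omega) ?_)
  · simp
  refine RunA.cons ((RunA.seqLoop RI.t _ (fun i => upd (upd (upd (upd (fun _ : RI => 0) .n n) .L L) .s
    i) .t (L + 1 - (i + 1) * (i + 1))) s
    (fun i hi => ?_) ?_ (fun i hi => ?_)).congr_left ?_) ?_
  · simp only [upd_self]
    have e1 : (i + 1) * (i + 1) ≤ s * s := Nat.mul_self_le_mul_self hi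
    omega
  · simp only [upd_self]
    omega
  · refine RunA.sets (i + 1) ?_ (by omega) (RunA.sets (L + 1 - (i + 1 + 1) * (i + 1 + 1)) ?_
      (by omega) (RunA.nil.cast ?_))
    · simp
    · simp
    · funext q; cases q <;> simp
  · funext q; cases q <;> simp
  -- the height
  refine RunA.sets h ?_ (by omega) ?_
  · simp [hh', evI_lit]
  have c10 : ∀ j ≤ h + D + 1, kq * (n + 2) * B ^ j ≤ kq * (n + 2) * B ^ (h + D + 1) :=
    fun j hj => Nat.mul_le_mul_left _ (Nat.pow_le_pow_right (by omega) hj)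
  -- the count
  refine RunA.sets (kq * (n + 2)) ?_ (by have := c10 0 (Nat.zero_le _); rw [pow_zero] at this; omega)
    (RunA.sets (h + D + 1) ?_ c9 ?_)
  · simp [evI_lit]
  · simp [evI_lit]
  refine RunA.cons ((RunA.seqLoop RI.t _ (fun i => upd (upd (upd (upd (upd (upd (fun _ : RI => 0) .n n)
    .L L) .s s) .h h) .C (kq * (n + 2) * B ^ i)) .t (h + D + 1 - i)) (h + D + 1)
    (fun i hi => ?_) ?_ (fun i hi => ?_)).congr_left ?_) (RunA.nil.cast ?_)
  · simp only [upd_self]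
    omega
  · simp only [upd_self]
    omega
  · refine RunA.sets (kq * (n + 2) * B ^ (i + 1)) ?_ ((c10 _ hi).trans_lt c5) (RunA.sets
      (h + D + 1 - (i + 1)) ?_ (by omega) (RunA.nil.cast ?_))
    · simp [pow_succ, Nat.mul_assoc, evI_lit]
    · simp [Nat.sub_sub]
    · funext q; cases q <;> simp
  · funext q; cases q <;> simp
  · funext q
    cases q
    · simp [iniS]
    · simp [iniS, hL]
    · simp [iniS, hs, hL]
    · simp [iniS, hh]
    · simp only [iniS, upd, reduceCtorEq, if_false]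
      rfl
    · simp [iniS]
    · simp [iniS]

/-- The bound for all numbers of the initial program is `2 ^ O(L * (√L + 1))`. -/
theorem cI_bound (kq B D b m : ℕ) : ∃ c : ℕ, ∀ n : ℕ,
    m + cI kq B D b n <
      2 ^ (c * (Nat.log 2 (n + 2) * (Nat.sqrt (Nat.log 2 (n + 2)) + 1))) := by
  refine ⟨m + kq + 4 + B * (b + D + 1), fun n => ?_⟩
  unfold cI hI
  have hL : 1 ≤ Nat.log 2 (n + 2) := Nat.log_pos (by norm_num) (by omega)
  have hn : n + 2 < 2 ^ (Nat.log 2 (n + 2) + 1) := Nat.lt_pow_succ_log_self (by norm_num) _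
  generalize Nat.log 2 (n + 2) = L at *
  have hΛ : L ≤ L * (Nat.sqrt L + 1) := Nat.le_mul_of_pos_right _ (by omega)
  generalize L * (Nat.sqrt L + 1) = Λ at *
  have hΛ1 : 1 ≤ Λ := hL.trans hΛ
  have e1 : kq ≤ 2 ^ kq := Nat.lt_two_pow_self.le
  have e2 : B ^ (b * Λ + D + 1) ≤ 2 ^ (B * (b * Λ + D + 1)) := by
    rw [pow_mul]
    exact Nat.pow_le_pow_left Nat.lt_two_pow_self.le _
  have e3 : m ≤ 2 ^ m := Nat.lt_two_pow_self.le
  have e4 : kq * (n + 2) * B ^ (b * Λ + D + 1) ≤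
      2 ^ kq * 2 ^ (L + 1) * 2 ^ (B * (b * Λ + D + 1)) := by gcongr
  have e5 : m + kq * (n + 2) * B ^ (b * Λ + D + 1) ≤
      2 * (2 ^ m * (2 ^ kq * 2 ^ (L + 1) * 2 ^ (B * (b * Λ + D + 1)))) := by
    have f1 : 1 ≤ 2 ^ m := Nat.one_le_two_pow
    have f2 : 1 ≤ 2 ^ kq * 2 ^ (L + 1) * 2 ^ (B * (b * Λ + D + 1)) := Nat.pos_of_ne_zero (by positivity)
    calc m + kq * (n + 2) * B ^ (b * Λ + D + 1)
        ≤ 2 ^ m + 2 ^ kq * 2 ^ (L + 1) * 2 ^ (B * (b * Λ + D + 1)) := Nat.add_le_add e3 e4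
      _ ≤ 2 ^ m * (2 ^ kq * 2 ^ (L + 1) * 2 ^ (B * (b * Λ + D + 1))) +
          2 ^ m * (2 ^ kq * 2 ^ (L + 1) * 2 ^ (B * (b * Λ + D + 1))) :=
          Nat.add_le_add (Nat.le_mul_of_pos_right _ f2) (Nat.le_mul_of_pos_left _ f1)
      _ = _ := by ring
  refine e5.trans_lt ?_
  have e6 : 2 * (2 ^ m * (2 ^ kq * 2 ^ (L + 1) * 2 ^ (B * (b * Λ + D + 1)))) =
      2 ^ (1 + (m + (kq + (L + 1) + B * (b * Λ + D + 1)))) := by
    rw [pow_add 2 1, pow_add 2 m, pow_add 2 (kq + (L + 1)), pow_add 2 kq, pow_one]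
  rw [e6]
  refine Nat.pow_lt_pow_right (by norm_num) ?_
  have g1 : m ≤ m * Λ := Nat.le_mul_of_pos_right _ hΛ1
  have g2 : kq ≤ kq * Λ := Nat.le_mul_of_pos_right _ hΛ1
  have g3 : B * (b * Λ + D + 1) ≤ B * ((b + D + 1) * Λ) := by
    refine Nat.mul_le_mul_left _ ?_
    have : D + 1 ≤ (D + 1) * Λ := Nat.le_mul_of_pos_right _ hΛ1
    calc b * Λ + D + 1 ≤ b * Λ + (D + 1) * Λ := by omega
      _ = (b + D + 1) * Λ := by ring
  calc 1 + (m + (kq + (L + 1) + B * (b * Λ + D + 1)))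
      ≤ 2 * Λ + (m * Λ + (kq * Λ + Λ + B * ((b + D + 1) * Λ))) := by omega
    _ < 2 * Λ + (m * Λ + (kq * Λ + Λ + B * ((b + D + 1) * Λ))) + Λ := by omega
    _ = (m + kq + 4 + B * (b + D + 1)) * Λ := by ring

end

end Pool.Agent.Lib.MP_9277c3_lc.RC
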