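import Pool.Agent.Lib.MP_9277c3_lc.RC.SpecO

/-!
# The program for steps with a low stack
-/

set_option autoImplicit false

namespace Pool.Agent.Lib.MP_9277c3_lc

namespace RC

open CM NC

section

variable {α : Type} (M : NPDA α)

/-- What a move depends on. -/
abbrev Ky : Type := M.State × Cell α × M.Stack

/-- The set of moves. -/
def nx (p : Ky M) : Set (M.State × Move × List M.Stack) := M.next p.1 p.2.1 p.2.2

instance instInhabitedFinPow (K : ℕ) : Inhabited (Fin (2 ^ K)) := ⟨⟨0, Nat.two_pow_pos K⟩⟩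

theorem exists_opt [Finite α] : ∃ (K : ℕ) (opt : Ky M → Fin (2 ^ K) → M.State × Move × List M.Stack),
    ∀ p, (nx M p).Nonempty → (∀ o, opt p o ∈ nx M p) ∧ ∀ r ∈ nx M p, ∃ o, opt p o = r := by
  classical
  obtain ⟨N, hN⟩ : ∃ N, ∀ p, Nat.card (nx M p) ≤ N := by
    obtain ⟨N, hN⟩ := (Set.finite_range fun p => Nat.card (nx M p)).bddAbove
    exact ⟨N, fun p => hN ⟨p, rfl⟩⟩
  have key : ∀ p, ∃ g : Fin (2 ^ N) → M.State × Move × List M.Stack,
      (nx M p).Nonempty → (∀ o, g o ∈ nx M p) ∧ ∀ r ∈ nx M p, ∃ o, g o = r := by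
    intro p
    by_cases hne : (nx M p).Nonempty
    · obtain ⟨r0, hr0⟩ := hne
      have hfin : Finite (nx M p) := M.finite_next p.1 p.2.1 p.2.2
      refine ⟨fun o => if h : (o : ℕ) < Nat.card (nx M p) then
        (((Finite.equivFin (nx M p)).symm ⟨o, h⟩ : nx M p) : M.State × Move × List M.Stack)
        else r0, fun _ => ⟨fun o => ?_, fun r hr => ?_⟩⟩
      · dsimp only
        split_ifs with h
        · exact Subtype.coe_prop _
        · exact hr0
      · have h1 : ((Finite.equivFin (nx M p)) ⟨r, hr⟩ : ℕ) < Nat.card (nx M p) := Fin.isLt _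
        refine ⟨⟨(Finite.equivFin (nx M p)) ⟨r, hr⟩,
          h1.trans_le ((hN p).trans (Nat.lt_two_pow_self).le)⟩, ?_⟩
        dsimp only
        rw [dif_pos h1]
        exact congrArg Subtype.val ((Finite.equivFin (nx M p)).symm_apply_apply ⟨r, hr⟩)
    · exact ⟨fun _ => default, fun h => absurd h hne⟩
  choose opt hopt using key
  exact ⟨N, opt, hopt⟩

theorem scode_lt (σ : List M.Stack) : scode M σ < (Nat.card M.Stack + 1) ^ σ.length := by
  induction σ with
  | nil => simp [scode]
  | cons X γ ih =>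
    have h1 : cod X < Nat.card M.Stack := cod_lt X
    rw [scode, List.length_cons, pow_succ']
    have h2 : (Nat.card M.Stack + 1) * (scode M γ + 1) ≤
        (Nat.card M.Stack + 1) * (Nat.card M.Stack + 1) ^ γ.length := Nat.mul_le_mul_left _ ih
    have h3 : (Nat.card M.Stack + 1) * (scode M γ + 1) =
        (Nat.card M.Stack + 1) * scode M γ + (Nat.card M.Stack + 1) := by ring
    omega

theorem scode_append (β γ : List M.Stack) : scode M (β ++ γ) =
    scode M γ * (Nat.card M.Stack + 1) ^ β.length + scode M β := by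
  induction β with
  | nil => simp [scode]
  | cons X β ih =>
    rw [List.cons_append, scode, scode, ih, List.length_cons, pow_succ']
    ring

theorem scode_mod (X : M.Stack) (γ : List M.Stack) :
    scode M (X :: γ) % (Nat.card M.Stack + 1) = cod X + 1 := by
  have h1 : cod X < Nat.card M.Stack := cod_lt X
  rw [scode, Nat.add_mul_mod_self_left, Nat.mod_eq_of_lt (by omega)]

theorem scode_div (X : M.Stack) (γ : List M.Stack) :
    scode M (X :: γ) / (Nat.card M.Stack + 1) = scode M γ := by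
  have h1 : cod X < Nat.card M.Stack := cod_lt X
  rw [scode, Nat.add_mul_div_left _ _ (Nat.succ_pos _), Nat.div_eq_of_lt (by omega), Nat.zero_add]

/-- Codes of moves. -/
def mvc : Move → ℕ
  | Move.left => 0
  | Move.stay => 1
  | Move.right => 2

theorem mvc_le (mv : Move) : mvc mv ≤ 2 := by
  cases mv <;> simp [mvc]

theorem mvc_apply {n i : ℕ} (hi : i ≤ n + 1) (mv : Move) :
    (i + mvc mv) - ((i + mvc mv) - (n + 2)) - 1 = mv.apply n i := by
  cases mv with
  | left => simp only [mvc, Move.apply]; omega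
  | stay => simp only [mvc, Move.apply]; omega
  | right => simp only [mvc, Move.apply]; omega

end

section

variable {α S F : Type} {x : List α} {cc : Cell α → ℕ} {A : ℕ} {body : F → NStmt (S ⊕ RO) F}

theorem upd_inr (f : S → ℕ) (o : RO → ℕ) (r : RO) (n : ℕ) :
    upd (Sum.elim f o) (Sum.inr r) n = Sum.elim f (upd o r n) := by
  funext p
  cases p with
  | inl p => rw [upd_ne (by simp)]; rfl
  | inr p =>
    by_cases h : p = r
    · subst h
      simp
    · rw [upd_ne (by simpa using h), Sum.elim_inr, Sum.elim_inr, upd_ne h]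

/-- The first instruction of a list is an assignment to a register of the main loop. -/
theorem setO {k : ℕ} {f : S → ℕ} {o : RO → ℕ} {r : RO} {ex : Exp (S ⊕ RO)}
    {l : List (NStmt (S ⊕ RO) F)} {t : S ⊕ RO → ℕ} {u v : ℕ → Bool} (n : ℕ)
    (hn : ex.eval x cc (Sum.elim f o) = n) (hA : n < A)
    (h₂ : RunN x cc A body k (sqN l) (Sum.elim f (upd o r n)) u t v) :
    RunN x cc A body k (sqN (asg (Sum.inr r) ex :: l)) (Sum.elim f o) u t v := by
  refine RunN.set n hn hA ?_
  rw [upd_inr]
  exact h₂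

end

section

variable {α S F : Type} [Finite α] (M : NPDA α)

/-- A register of the main loop. -/
abbrev vO (r : RO) : Exp (S ⊕ RO) := Exp.var (Sum.inr r)

/-- The part of the program in which a move is guessed and done. -/
noncomputable def lowT (K : ℕ) (opt : Ky M → Fin (2 ^ K) → M.State × Move × List M.Stack) :
    NStmt (S ⊕ RO) F :=
  sqN [gk (Sum.inr .op) (Sum.inr .fl) K,
    asg (Sum.inr .ky) (pairE (Ky M) (Fin (2 ^ K)) (vO .ky) (vO .op)),
    asg (Sum.inr .q) (tabE (T := Ky M × Fin (2 ^ K)) (fun p => cod (opt p.1 p.2).1) (vO .ky)),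
    asg (Sum.inr .t) (vO .i +
      tabE (T := Ky M × Fin (2 ^ K)) (fun p => mvc (opt p.1 p.2).2.1) (vO .ky)),
    asg (Sum.inr .i) (vO .t - (vO .t - (vO .n + 2)) - 1),
    asg (Sum.inr .Z) (vO .Z / Exp.lit (Nat.card M.Stack + 1) *
      tabE (T := Ky M × Fin (2 ^ K))
        (fun p => (Nat.card M.Stack + 1) ^ (opt p.1 p.2).2.2.length) (vO .ky) +
      tabE (T := Ky M × Fin (2 ^ K)) (fun p => scode M (opt p.1 p.2).2.2) (vO .ky)),
    asg (Sum.inr .H) (vO .H - 1 +
      tabE (T := Ky M × Fin (2 ^ K)) (fun p => (opt p.1 p.2).2.2.length) (vO .ky)),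
    asg (Sum.inr .op) 0, asg (Sum.inr .ky) 0, asg (Sum.inr .t) 0, asg (Sum.inr .X) 0]

open Classical in
/-- The program for steps with a low stack. -/
noncomputable def lowP (K : ℕ) (opt : Ky M → Fin (2 ^ K) → M.State × Move × List M.Stack) :
    NStmt (S ⊕ RO) F :=
  sqN [asg (Sum.inr .X) (vO .Z % Exp.lit (Nat.card M.Stack + 1) - 1),
    asg (Sum.inr .ky) (pairE M.State (Cell α × M.Stack) (vO .q)
      (pairE (Cell α) M.Stack (Exp.inp (vO .i)) (vO .X))),
    asg (Sum.inr .t) (tabE (T := Ky M) (fun p => if nx M p = ∅ then 0 else 1) (vO .ky)),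
    Stmt.ite (Sum.inr .t) (lowT M K opt)
      (sqN [asg (Sum.inr .go) 0, asg (Sum.inr .ky) 0, asg (Sum.inr .X) 0])]

variable {M}

/-- The constant. -/
noncomputable def lowK (M : NPDA α) (K : ℕ) : ℕ :=
  Nat.card (Ky M) + Nat.card (Ky M × Fin (2 ^ K)) + 2 ^ K + Nat.card M.State + Nat.card M.Stack + 3

variable {x : List α} {A K D : ℕ} {body : F → NStmt (S ⊕ RO) F} {k : ℕ}
  {opt : Ky M → Fin (2 ^ K) → M.State × Move × List M.Stack}

omit [Finite α] in
theorem lt_of_big {c : M.Cfg} (h : Big M x A (lowK M K) c D) {n : ℕ} (hn : n < lowK M K) :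
    n < A := by
  refine hn.trans_le (le_trans ?_ h.2)
  refine Nat.le_mul_of_pos_right _ ?_
  positivity

theorem run_pre {h C : ℕ} {q : M.State} {i : ℕ} {X : M.Stack} {γ : List M.Stack}
    (hb : Big M x A (lowK M K) (q, i, X :: γ) D) {l : List (NStmt (S ⊕ RO) F)} {u v : ℕ → Bool}
    {t : S ⊕ RO → ℕ} (m : ℕ) (hm : m ≤ 1)
    (hm' : ∀ s : S ⊕ RO → ℕ, s (Sum.inr .ky) = cod ((q, cell x i, X) : Ky M) →
      (tabE (T := Ky M) (fun p => open Classical in if nx M p = ∅ then 0 else 1)
        (vO .ky)).eval x cod s = m)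
    (hr : RunN x cod A body k (sqN l)
      (Sum.elim (fun _ => 0) (upd (upd (upd (stO M x.length h C (q, i, X :: γ) 1 0) .X (cod X))
        .ky (cod ((q, cell x i, X) : Ky M))) .t m)) u t v) :
    RunN x cod A body k (sqN (asg (Sum.inr .X) (vO .Z % Exp.lit (Nat.card M.Stack + 1) - 1) ::
      asg (Sum.inr .ky) (pairE M.State (Cell α × M.Stack) (vO .q)
        (pairE (Cell α) M.Stack (Exp.inp (vO .i)) (vO .X))) ::
      asg (Sum.inr .t) (tabE (T := Ky M)
        (fun p => open Classical in if nx M p = ∅ then 0 else 1) (vO .ky)) :: l))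
      (stA M S x.length h C (q, i, X :: γ) 1 0) u t v := by
  have h1 : cod X < Nat.card M.Stack := cod_lt X
  have h2 : cod ((q, cell x i, X) : Ky M) < Nat.card (Ky M) := cod_lt _
  have h3 : 0 < 2 ^ K := Nat.two_pow_pos K
  refine setO (cod X) ?_ (lt_of_big hb (by unfold lowK; omega))
    (setO (cod ((q, cell x i, X) : Ky M)) ?_ (lt_of_big hb (by unfold lowK; omega))
    (setO m ?_ (lt_of_big hb (by unfold lowK; omega)) hr))
  · simp only [eval_sub, eval_mod, eval_var, eval_one, Sum.elim_inr, stO]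
    change scode M (X :: γ) % (Nat.card M.Stack + 1) - 1 = cod X
    rw [scode_mod]
    omega
  · refine eval_pairE ?_ (eval_pairE ?_ ?_)
    · simp [eval_var, stO]
    · simp [Exp.eval, stO]
    · simp [eval_var]
  · refine hm' _ ?_
    simp

omit [Finite α] in
theorem three_le_lowK : 3 ≤ lowK M K := by
  have := Nat.two_pow_pos K
  unfold lowK
  omega

omit [Finite α] in
theorem lt_of_big2 {c : M.Cfg} (h : Big M x A (lowK M K) c D) {n : ℕ}
    (hn : n < 3 * (x.length + 2)) : n < A := by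
  refine hn.trans_le (le_trans ?_ h.2)
  refine Nat.mul_le_mul three_le_lowK (Nat.le_mul_of_pos_right _ ?_)
  positivity

omit [Finite α] in
theorem lt_of_big3 {c : M.Cfg} (h : Big M x A (lowK M K) c D) {n m : ℕ}
    (hn : n < (Nat.card M.Stack + 1) ^ m) (hm : m ≤ c.2.2.length + D) : n < A := by
  refine hn.trans_le (le_trans ?_ h.2)
  have h1 : 0 < lowK M K := (by norm_num : 0 < 3).trans_le three_le_lowK
  have h2 : (Nat.card M.Stack + 1) ^ m ≤ (Nat.card M.Stack + 1) ^ (c.2.2.length + D) :=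
    Nat.pow_le_pow_right (Nat.succ_pos _) hm
  calc (Nat.card M.Stack + 1) ^ m ≤ 1 * (1 * (Nat.card M.Stack + 1) ^ (c.2.2.length + D)) := by
        rw [one_mul, one_mul]
        exact h2
    _ ≤ _ := Nat.mul_le_mul h1 (Nat.mul_le_mul_right _ (by omega))

theorem run_lowT (hD : PushLe M D) {h C : ℕ} {q : M.State} {i : ℕ} {X : M.Stack}
    {γ : List M.Stack} (hb : Big M x A (lowK M K) (q, i, X :: γ) D) (u : ℕ → Bool)
    {r : M.State × Move × List M.Stack}
    (hr : r = opt (q, cell x i, X) (dcd (gb K u))) (hr' : r ∈ M.next q (cell x i) X) :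
    RunN x cod A body k (lowT M K opt)
      (Sum.elim (fun _ : S => 0) (upd (upd (upd (stO M x.length h C (q, i, X :: γ) 1 0) .X
        (cod X)) .ky (cod ((q, cell x i, X) : Ky M))) .t 1)) u
      (stA M S x.length h C (r.1, r.2.1.apply x.length i, r.2.2 ++ γ) 1 0) (sh K u) := by
  have hcs : 0 < Nat.card M.Stack := Nat.card_pos
  have h3 : 0 < 2 ^ K := Nat.two_pow_pos K
  have hi : i ≤ x.length + 1 := hb.1
  have hA0 : 0 < A := lt_of_big hb (by unfold lowK; omega)
  have h2K : 2 ^ K < A := lt_of_big hb (by unfold lowK; omega)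
  have hlen : r.2.2.length ≤ D := hD _ _ _ r hr'
  set key : Ky M := (q, cell x i, X) with hkey
  set o : Fin (2 ^ K) := dcd (gb K u) with ho
  have hgo : gb K u = cod o := by
    rw [ho, cod_dcd]
    rw [Nat.card_fin]
    exact gb_lt K u
  have hck : cod (key, o) < Nat.card (Ky M × Fin (2 ^ K)) := cod_lt _
  have hcq : cod r.1 < Nat.card M.State := cod_lt _
  have hmv : mvc r.2.1 ≤ 2 := mvc_le _
  have hap : r.2.1.apply x.length i ≤ x.length + 1 := by
    rw [← mvc_apply hi]
    omega
  have hZ : scode M (r.2.2 ++ γ) < (Nat.card M.Stack + 1) ^ (r.2.2 ++ γ).length := scode_lt M _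
  have hH : (r.2.2 ++ γ).length < (Nat.card M.Stack + 1) ^ (r.2.2 ++ γ).length :=
    Nat.lt_pow_self (by omega)
  have hl2 : (r.2.2 ++ γ).length ≤ (X :: γ).length + D := by
    rw [List.length_append, List.length_cons]
    omega
  unfold lowT
  refine RunN.cons (run_gk (by simp) (by simp [stO]) h2K.le k u) ?_
  rw [upd_inr]
  refine setO (cod (key, o)) ?_ (lt_of_big hb (by unfold lowK; omega))
    (setO (cod r.1) ?_ (lt_of_big hb (by unfold lowK; omega))
    (setO (i + mvc r.2.1) ?_ (lt_of_big2 hb (by omega))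
    (setO (r.2.1.apply x.length i) ?_ (lt_of_big2 hb (by omega))
    (setO (scode M (r.2.2 ++ γ)) ?_ (lt_of_big3 hb hZ hl2)
    (setO (r.2.2 ++ γ).length ?_ (lt_of_big3 hb hH hl2)
    (setO 0 rfl hA0 (setO 0 rfl hA0 (setO 0 rfl hA0 (setO 0 rfl hA0
      ((RunN.nil).cast ?_))))))))))
  · refine eval_pairE ?_ ?_
    · simp [eval_var]
    · simp [eval_var, hgo]
  · rw [hr]
    exact eval_tabE _ (t := (key, o)) (by simp [eval_var])
  · have e1 := eval_tabE (x := x) (cc := cod) (T := Ky M × Fin (2 ^ K))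
      (fun p => mvc (opt p.1 p.2).2.1) (e := vO (S := S) .ky) (t := (key, o))
      (s := Sum.elim (fun _ : S => 0) (upd (upd (upd (upd (upd (upd (stO M x.length h C
        (q, i, X :: γ) 1 0) .X (cod X)) .ky (cod key)) .t 1) .op (gb K u)) .ky (cod (key, o)))
        .q (cod r.1))) (by simp [eval_var])
    rw [eval_add, e1, hr]
    simp [eval_var, stO]
  · rw [← mvc_apply hi]
    simp [eval_var, stO]
  · rw [eval_add, eval_mul, eval_div, eval_tabE (T := Ky M × Fin (2 ^ K)) _ (t := (key, o))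
      (by simp [eval_var]), eval_tabE (T := Ky M × Fin (2 ^ K)) _ (t := (key, o))
      (by simp [eval_var]), scode_append, hr]
    congr 2
    simp only [eval_var, Sum.elim_inr, upd_ne, ne_eq, reduceCtorEq, not_false_eq_true, stO]
    exact scode_div M X γ
  · rw [eval_add, eval_tabE (T := Ky M × Fin (2 ^ K)) _ (t := (key, o))
      (by simp [eval_var]), List.length_append, hr]
    simp [eval_var, stO]
    omega
  · unfold stA
    congr 1
    funext p
    cases p <;> simp [stO]

theorem run_low_some (hD : PushLe M D)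
    (hopt : ∀ p, (nx M p).Nonempty → (∀ o, opt p o ∈ nx M p) ∧ ∀ r ∈ nx M p, ∃ o, opt p o = r)
    {h C : ℕ} {q : M.State} {i : ℕ} {X : M.Stack}
    {γ : List M.Stack} (hb : Big M x A (lowK M K) (q, i, X :: γ) D)
    (hne : (M.next q (cell x i) X).Nonempty) (u : ℕ → Bool) :
    RunN x cod A body k (lowP M K opt)
      (stA M S x.length h C (q, i, X :: γ) 1 0) u
      (stA M S x.length h C ((opt (q, cell x i, X) (dcd (gb K u))).1,
        (opt (q, cell x i, X) (dcd (gb K u))).2.1.apply x.length i,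
        (opt (q, cell x i, X) (dcd (gb K u))).2.2 ++ γ) 1 0) (sh K u) := by
  have hr' : opt (q, cell x i, X) (dcd (gb K u)) ∈ M.next q (cell x i) X :=
    (hopt (q, cell x i, X) hne).1 _
  unfold lowP
  refine run_pre hb 1 le_rfl ?_ (RunN.cons (RunN.iteT _ _ _ _ _ _ _ _ ?_
    (run_lowT hD hb u rfl hr')) RunN.nil)
  · intro s hs
    rw [eval_tabE (T := Ky M) _ (t := (q, cell x i, X)) (by simpa using hs)]
    exact if_neg hne.ne_empty
  · simp

theorem run_low_none {h C : ℕ} {q : M.State} {i : ℕ} {X : M.Stack}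
    {γ : List M.Stack} (hb : Big M x A (lowK M K) (q, i, X :: γ) D)
    (hne : M.next q (cell x i) X = ∅) (u : ℕ → Bool) :
    RunN x cod A body k (lowP M K opt)
      (stA M S x.length h C (q, i, X :: γ) 1 0) u
      (stA M S x.length h C (q, i, X :: γ) 0 0) u := by
  have hA0 : 0 < A := lt_of_big hb ((by norm_num : 0 < 3).trans_le three_le_lowK)
  unfold lowP
  refine run_pre hb 0 (Nat.zero_le _) ?_ (RunN.cons (RunN.iteF _ _ _ _ _ _ _ _ ?_
    (setO 0 rfl hA0 (setO 0 rfl hA0 (setO 0 rfl hA0 ((RunN.nil).cast ?_))))) RunN.nil)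
  · intro s hs
    rw [eval_tabE (T := Ky M) _ (t := (q, cell x i, X)) (by simpa using hs)]
    exact if_pos hne
  · simp
  · unfold stA
    congr 1
    funext p
    cases p <;> simp [stO]

end

/-- The program for low steps. -/
theorem lowSpec {α : Type} [Finite α] (M : NPDA α) (D : ℕ) : LowSpec M D := by
  intro hD
  obtain ⟨K, opt, hopt⟩ := exists_opt M
  refine ⟨lowK M K, fun S F => ⟨lowP M K opt, fun x A k body => ⟨?_, ?_, ?_⟩⟩⟩
  · intro h C q i X γ hb he u
    exact ⟨u, run_low_none hb he u⟩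
  · intro h C q i X γ hb hne u
    exact ⟨_, (hopt (q, cell x i, X) hne).1 _, _, run_low_some hD hopt hb hne u⟩
  · intro h C q i X γ hb r hr v
    have hne : (M.next q (cell x i) X).Nonempty := ⟨r, hr⟩
    obtain ⟨o, ho⟩ := (hopt (q, cell x i, X) hne).2 r hr
    have h1 : cod o < 2 ^ K := by
      have := cod_lt o
      rwa [Nat.card_fin] at this
    obtain ⟨u, hu, hu'⟩ := gb_surj K (cod o) h1 v
    refine ⟨u, ?_⟩
    have h2 := run_low_some (S := S) (F := F) (x := x) (A := A) (body := body) (k := k)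
      (h := h) (C := C) hD hopt hb hne u
    rw [hu, dcd_cod, ho, hu'] at h2
    exact h2

end RC

end Pool.Agent.Lib.MP_9277c3_lc
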