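import Pool.Agent.Lib.MP_9277c3_lc.RC.Defs

/-!
# Macro steps of nondeterministic pushdown automata with low choices
-/

set_option autoImplicit false

namespace Pool.Agent.Lib.MP_9277c3_lc

namespace NPDA

open Relation

variable {α : Type} (M : NPDA α)

/-- The configuration with the symbols `γ` put below the stack. -/
def under (γ : List M.Stack) (c : M.Cfg) : M.Cfg := (c.1, c.2.1, c.2.2 ++ γ)

theorem step_under {x : List α} {h : ℕ} {c c' : M.Cfg} (hD : M.DStep x c c')
    (γ : List M.Stack) : M.Step x h (M.under γ c) (M.under γ c') := by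
  cases hD with
  | mk q i X δ r hr =>
    have h1 := Step.mk (M := M) (x := x) (h := h) q i X (δ ++ γ) r
      (by rw [hr]; exact Set.mem_singleton r) (Or.inr hr)
    simpa [under, List.append_assoc] using h1

theorem steps_under {x : List α} {h : ℕ} {c c' : M.Cfg}
    (hD : ReflTransGen (M.DStep x) c c') (γ : List M.Stack) :
    ReflTransGen (M.Step x h) (M.under γ c) (M.under γ c') :=
  ReflTransGen.lift (M.under γ) (fun _ _ hs => M.step_under hs γ) _ _ hD

/-- From the configuration `c` an accepting configuration is reached in `n` steps. -/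
inductive Acc (x : List α) (h : ℕ) : ℕ → M.Cfg → Prop
  | zero (c : M.Cfg) (ha : M.accepting c.1 (cell x c.2.1)) : Acc x h 0 c
  | succ (n : ℕ) (c c' : M.Cfg) (hs : M.Step x h c c') (h' : Acc x h n c') : Acc x h (n + 1) c

theorem acc_of_steps {x : List α} {h : ℕ} {c c' : M.Cfg} (hs : ReflTransGen (M.Step x h) c c')
    (ha : M.accepting c'.1 (cell x c'.2.1)) : ∃ n, M.Acc x h n c := by
  induction hs using ReflTransGen.head_induction_on with
  | refl => exact ⟨0, Acc.zero _ ha⟩
  | head h1 _ ih =>
    obtain ⟨n, hn⟩ := ih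
    exact ⟨n + 1, Acc.succ n _ _ h1 hn⟩

theorem cut {x : List α} {h : ℕ} : ∀ (n : ℕ) (q : M.State) (i : ℕ) (δ γ : List M.Stack),
    M.Acc x h n (q, i, δ ++ γ) → h ≤ γ.length →
    (∃ q' i' γ', ReflTransGen (M.DStep x) (q, i, δ) (q', i', γ') ∧
      M.accepting q' (cell x i')) ∨
    (∃ q' i' m, m ≤ n ∧ (δ ≠ [] → m < n) ∧
      ReflTransGen (M.DStep x) (q, i, δ) (q', i', []) ∧ M.Acc x h m (q', i', γ)) := by
  intro n
  induction n with
  | zero =>
    intro q i δ γ hA _
    cases hA with
    | zero _ ha => exact Or.inl ⟨q, i, δ, ReflTransGen.refl, ha⟩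
  | succ n ih =>
    intro q i δ γ hA hγ
    cases δ with
    | nil => exact Or.inr ⟨q, i, n + 1, le_rfl, fun hn => absurd rfl hn, ReflTransGen.refl, hA⟩
    | cons Y δ =>
      cases hA with
      | succ _ _ c' hs h' =>
        obtain ⟨r, hr, hc'⟩ : ∃ r : M.State × Move × List M.Stack,
            M.next q (cell x i) Y = {r} ∧
              c' = (r.1, r.2.1.apply x.length i, (r.2.2 ++ δ) ++ γ) := by
          rw [List.cons_append] at hs
          cases hs with
          | mk _ _ _ _ r hr hl =>
            refine ⟨r, ?_, by rw [List.append_assoc]⟩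
            rcases hl with hl | hl
            · exfalso
              simp only [List.length_cons, List.length_append] at hl
              omega
            · exact hl
        subst hc'
        have hd : M.DStep x (q, i, Y :: δ) (r.1, r.2.1.apply x.length i, r.2.2 ++ δ) :=
          DStep.mk q i Y δ r hr
        rcases ih _ _ _ _ h' hγ with ⟨q', i', γ', h1, h2⟩ | ⟨q', i', m, hm, _, h1, h2⟩
        · exact Or.inl ⟨q', i', γ', ReflTransGen.head hd h1, h2⟩
        · exact Or.inr ⟨q', i', m, by omega, fun _ => by omega, ReflTransGen.head hd h1, h2⟩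

theorem macro_of_acc {x : List α} {h : ℕ} : ∀ (n : ℕ) (c : M.Cfg), M.Acc x h n c →
    ∃ c', ReflTransGen (M.MStep x h) c c' ∧ M.MAcc x h c' := by
  intro n
  induction n using Nat.strong_induction_on with
  | _ n ih =>
    intro c hc
    obtain ⟨q, i, σ⟩ := c
    cases n with
    | zero =>
      cases hc with
      | zero _ ha => exact ⟨_, ReflTransGen.refl, MAcc.here q i σ ha⟩
    | succ n =>
      cases σ with
      | nil =>
        cases hc with
        | succ _ _ c' hs _ => cases hs
      | cons X γ =>
        by_cases hl : (X :: γ).length ≤ h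
        · cases hc with
          | succ _ _ c' hs h' =>
            cases hs with
            | mk _ _ _ _ r hr _ =>
              obtain ⟨c'', h1, h2⟩ := ih n (Nat.lt_succ_self n) _ h'
              exact ⟨c'', ReflTransGen.head (MStep.low q i X γ r hr hl) h1, h2⟩
        · have hγ : h ≤ γ.length := by
            simp only [List.length_cons] at hl
            omega
          rcases M.cut (n + 1) q i [X] γ hc hγ with
            ⟨q', i', γ', h1, h2⟩ | ⟨q', i', m, _, hm, h1, h2⟩
          · exact ⟨_, ReflTransGen.refl,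
              MAcc.high q i X γ q' i' γ' (not_le.mp hl) h1 h2⟩
          · obtain ⟨c'', h3, h4⟩ := ih m (hm (List.cons_ne_nil _ _)) _ h2
            exact ⟨c'', ReflTransGen.head (MStep.high q i X γ q' i' (not_le.mp hl) h1) h3, h4⟩

theorem steps_of_mstep {x : List α} {h : ℕ} {c c' : M.Cfg} (hm : M.MStep x h c c') :
    ReflTransGen (M.Step x h) c c' := by
  cases hm with
  | low q i X γ r hr hl => exact ReflTransGen.single (Step.mk q i X γ r hr (Or.inl hl))
  | high q i X γ q' i' hl hD =>
    have h1 := M.steps_under (h := h) hD γ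
    simpa [under] using h1

/-- Acceptance with low choices is acceptance by macro steps. -/
theorem acceptsLow_iff (x : List α) (h : ℕ) : M.AcceptsLow h x ↔
    ∃ c, ReflTransGen (M.MStep x h) (M.start, 1, [M.bottom]) c ∧ M.MAcc x h c := by
  constructor
  · rintro ⟨q, i, γ, h1, h2⟩
    obtain ⟨n, hn⟩ := M.acc_of_steps h1 h2
    exact M.macro_of_acc n _ hn
  · rintro ⟨c, h1, h2⟩
    have h3 : ReflTransGen (M.Step x h) (M.start, 1, [M.bottom]) c := by
      clear h2
      induction h1 with
      | refl => exact ReflTransGen.refl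
      | tail _ hm ih => exact ih.trans (M.steps_of_mstep hm)
    cases h2 with
    | here q i γ ha => exact ⟨q, i, γ, h3, ha⟩
    | high q i X γ q' i' γ' hl hD ha =>
      have h4 := M.steps_under (h := h) hD γ
      exact ⟨q', i', γ' ++ γ, h3.trans (by simpa [under] using h4), ha⟩

/-- A path as a function. -/
theorem exists_path {T : Type} {r : T → T → Prop} {a b : T} (hr : ReflTransGen r a b) :
    ∃ (n : ℕ) (f : ℕ → T), f 0 = a ∧ f n = b ∧ ∀ k < n, r (f k) (f (k + 1)) := by
  induction hr with
  | refl => exact ⟨0, fun _ => a, rfl, rfl, fun k hk => absurd hk (Nat.not_lt_zero k)⟩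
  | @tail b c _ hbc ih =>
    obtain ⟨n, f, h0, hn, hf⟩ := ih
    refine ⟨n + 1, fun k => if k ≤ n then f k else c, by simp [h0], by simp, ?_⟩
    intro k hk
    rcases Nat.lt_or_ge k n with h1 | h1
    · have h2 : k ≤ n := h1.le
      have h3 : k + 1 ≤ n := h1
      simp only [h2, h3, if_true]
      exact hf k h1
    · have h2 : k = n := by omega
      subst h2
      simpa [hn] using hbc

/-- A shortest path to a set has no repetition. -/
theorem exists_injective_path {T : Type} {r : T → T → Prop} {P : T → Prop} {a : T}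
    (hr : ∃ b, ReflTransGen r a b ∧ P b) :
    ∃ (n : ℕ) (f : ℕ → T), f 0 = a ∧ P (f n) ∧ (∀ k < n, r (f k) (f (k + 1))) ∧
      ∀ i j, i < j → j ≤ n → f i ≠ f j := by
  classical
  have hex : ∃ n, ∃ f : ℕ → T, f 0 = a ∧ P (f n) ∧ ∀ k < n, r (f k) (f (k + 1)) := by
    obtain ⟨b, h1, h2⟩ := hr
    obtain ⟨n, f, h3, h4, h5⟩ := exists_path h1
    exact ⟨n, f, h3, h4 ▸ h2, h5⟩
  obtain ⟨f, h0, hP, hf⟩ := Nat.find_spec hex
  refine ⟨Nat.find hex, f, h0, hP, hf, ?_⟩
  intro i j hij hj heq
  have hlt : Nat.find hex - (j - i) < Nat.find hex := by omega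
  apply Nat.find_min hex hlt
  refine ⟨fun k => if k ≤ i then f k else f (k + (j - i)), by simp [h0], ?_, ?_⟩
  · by_cases h1 : Nat.find hex - (j - i) ≤ i
    · have h2 : j = Nat.find hex := by omega
      have h3 : Nat.find hex - (j - i) = i := by omega
      show P (if Nat.find hex - (j - i) ≤ i then f (Nat.find hex - (j - i))
        else f (Nat.find hex - (j - i) + (j - i)))
      rw [if_pos h1, h3, heq, h2]
      exact hP
    · have h2 : Nat.find hex - (j - i) + (j - i) = Nat.find hex := by omega
      show P (if Nat.find hex - (j - i) ≤ i then f (Nat.find hex - (j - i))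
        else f (Nat.find hex - (j - i) + (j - i)))
      rw [if_neg h1, h2]
      exact hP
  · intro k hk
    rcases lt_trichotomy k i with h1 | h1 | h1
    · have h2 : k ≤ i := h1.le
      have h3 : k + 1 ≤ i := h1
      simp only [h2, h3, if_true]
      exact hf k (by omega)
    · subst h1
      have h3 : ¬ k + 1 ≤ k := by omega
      simp only [le_refl, h3, if_true, if_false]
      rw [heq]
      have h4 : k + 1 + (j - k) = j + 1 := by omega
      rw [h4]
      exact hf j (by omega)
    · have h2 : ¬ k ≤ i := by omega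
      have h3 : ¬ k + 1 ≤ i := by omega
      simp only [h2, h3, if_false]
      have h4 : k + 1 + (j - i) = k + (j - i) + 1 := by omega
      rw [h4]
      exact hf _ (by omega)

theorem apply_le (n : ℕ) (mv : Move) (i : ℕ) (hi : i ≤ n + 1) : mv.apply n i ≤ n + 1 := by
  cases mv with
  | left => exact (Nat.sub_le i 1).trans hi
  | stay => exact hi
  | right => exact min_le_right _ _

theorem dsteps_le {x : List α} {c c' : M.Cfg} (hD : ReflTransGen (M.DStep x) c c')
    (hc : c.2.1 ≤ x.length + 1) : c'.2.1 ≤ x.length + 1 := by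
  induction hD with
  | refl => exact hc
  | tail _ hs ih =>
    cases hs with
    | mk q i X γ r hr => exact apply_le x.length r.2.1 i ih

theorem mstep_bound {x : List α} {h D : ℕ}
    (hD : ∀ q c X, ∀ r ∈ M.next q c X, r.2.2.length ≤ D) {c c' : M.Cfg}
    (hm : M.MStep x h c c') (hc : c.2.1 ≤ x.length + 1 ∧ c.2.2.length ≤ h + D + 1) :
    c'.2.1 ≤ x.length + 1 ∧ c'.2.2.length ≤ h + D + 1 := by
  cases hm with
  | low q i X γ r hr hl =>
    refine ⟨apply_le x.length r.2.1 i hc.1, ?_⟩
    have h1 := hD _ _ _ r hr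
    simp only [List.length_cons] at hl
    simp only [List.length_append]
    omega
  | high q i X γ q' i' hl hD' =>
    refine ⟨M.dsteps_le (c := (q, i, [X])) (c' := (q', i', [])) hD' hc.1, ?_⟩
    have h1 := hc.2
    simp only [List.length_cons] at h1
    show γ.length ≤ h + D + 1
    omega

/-- There is a macro run without repetitions. -/
theorem exists_short (x : List α) (h D : ℕ)
    (hD : ∀ q c X, ∀ r ∈ M.next q c X, r.2.2.length ≤ D) (hx : M.AcceptsLow h x) :
    ∃ (T : ℕ) (f : ℕ → M.Cfg),
      T < Nat.card M.State * (x.length + 2) * (Nat.card M.Stack + 1) ^ (h + D + 1) ∧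
      f 0 = (M.start, 1, [M.bottom]) ∧
      (∀ k < T, M.MStep x h (f k) (f (k + 1))) ∧ M.MAcc x h (f T) := by
  classical
  obtain ⟨T, f, h0, hP, hf, hinj⟩ := exists_injective_path ((M.acceptsLow_iff x h).mp hx)
  refine ⟨T, f, ?_, h0, hf, hP⟩
  have hb : ∀ k, k ≤ T → (f k).2.1 ≤ x.length + 1 ∧ (f k).2.2.length ≤ h + D + 1 := by
    intro k
    induction k with
    | zero =>
      intro _
      rw [h0]
      exact ⟨by simp, by simp⟩
    | succ k ih =>
      intro hk
      exact M.mstep_bound hD (hf k (by omega)) (ih (by omega))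
  have := M.finite_state
  have := M.finite_stack
  let g : Fin (T + 1) → M.State × Fin (x.length + 2) × (Fin (h + D + 1) → Option M.Stack) :=
    fun k => ((f k).1, ⟨(f k).2.1, Nat.lt_succ_of_le (hb k (Nat.le_of_lt_succ k.2)).1⟩,
      fun j => (f k).2.2[(j : ℕ)]?)
  have hg : Function.Injective g := by
    intro a b hab
    have e1 : (f a).1 = (f b).1 := congrArg (fun t => t.1) hab
    have e2 : (f a).2.1 = (f b).2.1 := congrArg (fun t => (t.2.1 : ℕ)) hab
    have e3 : (f a).2.2 = (f b).2.2 := by
      apply List.ext_getElem?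
      intro j
      by_cases hj : j < h + D + 1
      · exact congrFun (congrArg (fun t => t.2.2) hab) ⟨j, hj⟩
      · rw [List.getElem?_eq_none (by have := (hb a (Nat.le_of_lt_succ a.2)).2; omega),
          List.getElem?_eq_none (by have := (hb b (Nat.le_of_lt_succ b.2)).2; omega)]
    have e : f a = f b := Prod.ext e1 (Prod.ext e2 e3)
    rcases lt_trichotomy (a : ℕ) (b : ℕ) with h1 | h1 | h1
    · exact absurd e (hinj a b h1 (Nat.le_of_lt_succ b.2))
    · exact Fin.ext h1
    · exact absurd e.symm (hinj b a h1 (Nat.le_of_lt_succ a.2))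
  have hcard := Nat.card_le_card_of_injective g hg
  rw [Nat.card_prod, Nat.card_prod, Nat.card_fun, Nat.card_fin, Nat.card_fin, Nat.card_fin,
    Finite.card_option, ← mul_assoc] at hcard
  omega

end NPDA

end Pool.Agent.Lib.MP_9277c3_lc
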