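import Pool.Agent.Lib.MP_9277c3_lc.RC.SpecS

/-!
# Simulation of a nondeterministic Turing machine by a program

The contents of the work tapes are numbers; the input of the simulated machine is virtual, an
expression gives the code of the cell under its head.
-/

set_option autoImplicit false
set_option linter.unusedSectionVars false
set_option linter.unusedSimpArgs false

namespace Pool.Agent.Lib.MP_9277c3_lc

namespace NTM

variable {β : Type} (T : NTM β)

instance : Finite T.State := T.finite_state

instance : Finite T.Tape := T.finite_tape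

instance : Finite T.Sym := T.finite_sym

instance : Inhabited T.State := ⟨T.start⟩

instance : Inhabited T.Sym := ⟨T.blank⟩

end NTM

namespace RC

open CM NC

/-- The registers of the simulation. -/
inductive SR (J : Type) : Type
  | st | ps | ky | op | vv | fl | go | res
  | pw (j : J)
  | ct (j : J)

/-- The values of the registers of the simulation. -/
structure SS (J : Type) where
  st : ℕ
  ps : ℕ
  ky : ℕ
  op : ℕ
  vv : ℕ
  fl : ℕ
  go : ℕ
  res : ℕ
  pw : J → ℕ
  ct : J → ℕ

/-- The values as a function. -/
def SS.toF {J : Type} (r : SS J) : SR J → ℕ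
  | .st => r.st
  | .ps => r.ps
  | .ky => r.ky
  | .op => r.op
  | .vv => r.vv
  | .fl => r.fl
  | .go => r.go
  | .res => r.res
  | .pw j => r.pw j
  | .ct j => r.ct j

instance {J : Type} [Finite J] : Finite (SR J) := by
  refine Finite.of_injective (β := Fin 8 ⊕ (J ⊕ J)) (fun r => match r with
    | .st => Sum.inl 0
    | .ps => Sum.inl 1
    | .ky => Sum.inl 2
    | .op => Sum.inl 3
    | .vv => Sum.inl 4
    | .fl => Sum.inl 5
    | .go => Sum.inl 6
    | .res => Sum.inl 7
    | .pw j => Sum.inr (Sum.inl j)
    | .ct j => Sum.inr (Sum.inr j)) fun a b h => ?_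
  cases a <;> cases b <;> simp_all

section upd

variable {J O : Type} (r : SS J) (o : O → ℕ) (n : ℕ)

theorem upd_st : upd (Sum.elim r.toF o) (Sum.inl .st) n = Sum.elim ({r with st := n} : SS J).toF o := by
  funext q
  rcases q with q | q
  · cases q <;> simp [SS.toF, upd]
  · simp [upd]

theorem upd_ps : upd (Sum.elim r.toF o) (Sum.inl .ps) n = Sum.elim ({r with ps := n} : SS J).toF o := by
  funext q
  rcases q with q | q
  · cases q <;> simp [SS.toF, upd]
  · simp [upd]

theorem upd_ky : upd (Sum.elim r.toF o) (Sum.inl .ky) n = Sum.elim ({r with ky := n} : SS J).toF o := by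
  funext q
  rcases q with q | q
  · cases q <;> simp [SS.toF, upd]
  · simp [upd]

theorem upd_op : upd (Sum.elim r.toF o) (Sum.inl .op) n = Sum.elim ({r with op := n} : SS J).toF o := by
  funext q
  rcases q with q | q
  · cases q <;> simp [SS.toF, upd]
  · simp [upd]

theorem upd_vv : upd (Sum.elim r.toF o) (Sum.inl .vv) n = Sum.elim ({r with vv := n} : SS J).toF o := by
  funext q
  rcases q with q | q
  · cases q <;> simp [SS.toF, upd]
  · simp [upd]

theorem upd_fl : upd (Sum.elim r.toF o) (Sum.inl .fl) n = Sum.elim ({r with fl := n} : SS J).toF o := by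
  funext q
  rcases q with q | q
  · cases q <;> simp [SS.toF, upd]
  · simp [upd]

theorem upd_go : upd (Sum.elim r.toF o) (Sum.inl .go) n = Sum.elim ({r with go := n} : SS J).toF o := by
  funext q
  rcases q with q | q
  · cases q <;> simp [SS.toF, upd]
  · simp [upd]

theorem upd_res : upd (Sum.elim r.toF o) (Sum.inl .res) n =
    Sum.elim ({r with res := n} : SS J).toF o := by
  funext q
  rcases q with q | q
  · cases q <;> simp [SS.toF, upd]
  · simp [upd]

open Classical in
theorem upd_pw (j : J) : upd (Sum.elim r.toF o) (Sum.inl (.pw j)) n =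
    Sum.elim ({r with pw := Function.update r.pw j n} : SS J).toF o := by
  funext q
  rcases q with q | q
  · cases q with
    | pw j' =>
      by_cases h : j' = j
      · subst h
        simp [SS.toF, upd]
      · simp [SS.toF, upd, h, Function.update_of_ne h]
    | _ => simp [SS.toF, upd]
  · simp [upd]

open Classical in
theorem upd_ct (j : J) : upd (Sum.elim r.toF o) (Sum.inl (.ct j)) n =
    Sum.elim ({r with ct := Function.update r.ct j n} : SS J).toF o := by
  funext q
  rcases q with q | q
  · cases q with
    | ct j' =>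
      by_cases h : j' = j
      · subst h
        simp [SS.toF, upd]
      · simp [SS.toF, upd, h, Function.update_of_ne h]
    | _ => simp [SS.toF, upd]
  · simp [upd]

end upd

/-! ### The program -/

section

variable {β : Type} [Finite β] (T : NTM β) {O F : Type}

/-- The base of the numbers of the tapes. -/
noncomputable def bS : ℕ := Nat.card T.Sym + 1

open Classical in
/-- The digit of a symbol. -/
noncomputable def cs (a : T.Sym) : ℕ := if a = T.blank then 0 else cod a + 1

/-- The symbol of a digit. -/
noncomputable def ds (n : ℕ) : T.Sym := if n = 0 then T.blank else dcd (n - 1)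

theorem ds_cs (a : T.Sym) : ds T (cs T a) = a := by
  unfold ds cs
  by_cases h : a = T.blank
  · simp [h]
  · simp [h, dcd_cod]

theorem cs_lt (a : T.Sym) : cs T a < bS T := by
  unfold cs bS
  have := cod_lt a
  split_ifs <;> omega

theorem cs_blank : cs T T.blank = 0 := by simp [cs]

theorem two_le_bS : 2 ≤ bS T := by
  have := cod_lt T.blank
  unfold bS
  omega

/-- What the machine sees. -/
abbrev Key := T.State × Cell β × (T.Tape → T.Sym)

/-- What the machine does. -/
abbrev Val := T.State × Move × (T.Tape → T.Sym × Move)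

/-- The possible moves. -/
def nxt (κ : Key T) : Set (Val T) := T.next κ.1 κ.2.1 κ.2.2

open Classical in
/-- The move with a number. -/
noncomputable def pick (κ : Key T) (m : ℕ) : Val T :=
  if (dcd m : Val T) ∈ nxt T κ then dcd m
  else if h : (nxt T κ).Nonempty then h.some else default

theorem pick_mem {κ : Key T} (h : (nxt T κ).Nonempty) (m : ℕ) : pick T κ m ∈ nxt T κ := by
  unfold pick
  split_ifs with h1
  · exact h1
  · exact h.some_mem

/-- The number of bits for the choice of a move. -/
noncomputable def K0 : ℕ := Nat.card (Val T)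

theorem exists_pick {κ : Key T} {w : Val T} (h : w ∈ nxt T κ) :
    ∃ m < 2 ^ K0 T, pick T κ m = w := by
  refine ⟨cod w, (cod_lt w).trans Nat.lt_two_pow_self, ?_⟩
  unfold pick
  rw [dcd_cod, if_pos h]

/-- All work tapes. -/
noncomputable def tapes : List T.Tape := (@Finset.univ T.Tape (Fintype.ofFinite _)).toList

theorem mem_tapes (j : T.Tape) : j ∈ tapes T := by
  unfold tapes
  rw [Finset.mem_toList]
  exact @Finset.mem_univ _ (Fintype.ofFinite _) j

theorem nodup_tapes : (tapes T).Nodup := Finset.nodup_toList _

/-- A register. -/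
abbrev rg (r : SR T.Tape) : Exp (SR T.Tape ⊕ O) := Exp.var (Sum.inl r)

/-- The digit under the head of the tape `j`. -/
noncomputable def digE (j : T.Tape) : Exp (SR T.Tape ⊕ O) :=
  (rg T (.ct j) / rg T (.pw j)) % Exp.lit (bS T)

/-- The symbol under the head of the tape `j`. -/
noncomputable def symE (j : T.Tape) : Exp (SR T.Tape ⊕ O) :=
  Exp.tab (fun d => cod (ds T d)) (bS T) (digE T j)

/-- What the machine sees. -/
noncomputable def keyE (ve : Exp (SR T.Tape ⊕ O)) : Exp (SR T.Tape ⊕ O) :=
  pairE T.State (Cell β × (T.Tape → T.Sym)) (rg T .st)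
    (pairE (Cell β) (T.Tape → T.Sym) ve (vecE T.Tape T.Sym (symE T) (tapes T)))

/-- The chosen move. -/
noncomputable def valE : Exp (SR T.Tape ⊕ O) :=
  Exp.tab (fun n => cod (pick T (dcd (n / 2 ^ K0 T)) (n % 2 ^ K0 T)))
    (Nat.card (Key T) * 2 ^ K0 T) (rg T .ky * Exp.lit (2 ^ K0 T) + rg T .op)

open Classical in
/-- The new position on the input. -/
noncomputable def psE (nn : Exp (SR T.Tape ⊕ O)) : Exp (SR T.Tape ⊕ O) :=
  (rg T .ps + tabE (fun w : Val T => if w.2.1 = Move.right then 1 else 0) (rg T .vv) -
    tabE (fun w : Val T => if w.2.1 = Move.left then 1 else 0) (rg T .vv)) -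
  ((rg T .ps + tabE (fun w : Val T => if w.2.1 = Move.right then 1 else 0) (rg T .vv) -
    tabE (fun w : Val T => if w.2.1 = Move.left then 1 else 0) (rg T .vv)) - nn)

open Classical in
/-- The new position on the tape `j`, without the left end. -/
noncomputable def pw0 (j : T.Tape) : Exp (SR T.Tape ⊕ O) :=
  rg T (.pw j) * tabE (fun w : Val T => if (w.2.2 j).2 = Move.right then bS T else 1) (rg T .vv) /
    tabE (fun w : Val T => if (w.2.2 j).2 = Move.left then bS T else 1) (rg T .vv)

/-- The instructions for the tape `j`. -/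
noncomputable def tapeL (j : T.Tape) : List (NStmt (SR T.Tape ⊕ O) F) :=
  [asg (Sum.inl (.ct j)) (rg T (.ct j) - digE T j * rg T (.pw j) +
      tabE (fun w : Val T => cs T (w.2.2 j).1) (rg T .vv) * rg T (.pw j)),
    asg (Sum.inl (.pw j)) (pw0 T j + (1 - pw0 T j))]

open Classical in
/-- Is there no move? -/
noncomputable def haltF (κ : Key T) : ℕ := if nxt T κ = ∅ then 1 else 0

open Classical in
/-- Does the machine accept? -/
noncomputable def accF (κ : Key T) : ℕ := if T.accept κ.1 κ.2.2 then 1 else 0

/-- A step of the simulation. -/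
noncomputable def simStep (nn : Exp (SR T.Tape ⊕ O)) : NStmt (SR T.Tape ⊕ O) F :=
  sqN (gk (Sum.inl .op) (Sum.inl .fl) (K0 T) ::
    asg (Sum.inl .vv) (valE T) ::
    asg (Sum.inl .st) (tabE (fun w : Val T => cod w.1) (rg T .vv)) ::
    asg (Sum.inl .ps) (psE T nn) ::
    ((tapes T).flatMap (tapeL T) ++
      [asg (Sum.inl .ky) 0, asg (Sum.inl .op) 0, asg (Sum.inl .vv) 0]))

/-- The body of the loop of the simulation. -/
noncomputable def simB (ve nn : Exp (SR T.Tape ⊕ O)) : NStmt (SR T.Tape ⊕ O) F := sqN [
  asg (Sum.inl .ky) (keyE T ve),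
  asg (Sum.inl .fl) (tabE (haltF T) (rg T .ky)),
  Stmt.ite (Sum.inl .fl)
    (sqN [asg (Sum.inl .res) (tabE (accF T) (rg T .ky)), asg (Sum.inl .go) 0])
    (simStep T nn)]

/-- The registers which are cleared at the end. -/
noncomputable def clrL (O : Type) : List (SR T.Tape ⊕ O) :=
  [Sum.inl .st, Sum.inl .ps, Sum.inl .ky, Sum.inl .op, Sum.inl .vv, Sum.inl .fl, Sum.inl .go] ++
    ((tapes T).map (fun j => Sum.inl (.pw j)) ++ (tapes T).map fun j => Sum.inl (.ct j))

/-- The simulation. -/
noncomputable def simP (ve nn : Exp (SR T.Tape ⊕ O)) : NStmt (SR T.Tape ⊕ O) F :=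
  sqN (asg (Sum.inl .st) (Exp.lit (cod T.start)) :: asg (Sum.inl .go) 1 ::
    (((tapes T).map fun j => asg (Sum.inl (.pw j)) 1) ++
      (Stmt.loop (Sum.inl .go) (simB T ve nn) :: (clrL T O).map fun q => asg q 0)))

/-- The new configuration. -/
def ncf (y : List β) (c : T.Cfg) (w : Val T) : T.Cfg where
  state := w.1
  pos := w.2.1.apply y.length c.pos
  head := fun j => NTM.wmove (w.2.2 j).2 (c.head j)
  tape := fun j => Function.update (c.tape j) (c.head j) (w.2.2 j).1

/-- What the machine sees in a configuration. -/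
def keyC (y : List β) (c : T.Cfg) : Key T := (c.state, cell y c.pos, c.read)

theorem step_iff (y : List β) (c c' : T.Cfg) :
    T.Step y c c' ↔ ∃ w ∈ nxt T (keyC T y c), c' = ncf T y c w := Iff.rfl

/-- The registers which represent a configuration. -/
noncomputable def rp (S : ℕ) (c : T.Cfg) : SS T.Tape where
  st := cod c.state
  ps := c.pos
  ky := 0
  op := 0
  vv := 0
  fl := 0
  go := 1
  res := 0
  pw := fun j => bS T ^ c.head j
  ct := fun j => tn (bS T) S fun k => cs T (c.tape j k)

/-- The sizes of the tables. -/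
noncomputable def simK : ℕ :=
  Nat.card (Key T) + Nat.card (Val T) + Nat.card T.State + 2 ^ K0 T + bS T + 2

end

end RC

end Pool.Agent.Lib.MP_9277c3_lc
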