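import Pool.Agent.Lib.MP_9277c3_lc.RC.Sim

/-!
# Correctness of the simulation of a nondeterministic Turing machine
-/

set_option autoImplicit false
set_option linter.unusedSectionVars false
set_option linter.unusedSimpArgs false

namespace Pool.Agent.Lib.MP_9277c3_lc

namespace RC

open CM NC

section

variable {β : Type} [Finite β] (T : NTM β) {α O F : Type} {x : List α} {cc : Cell α → ℕ} {A : ℕ}
  {body : F → NStmt (SR T.Tape ⊕ O) F} {k : ℕ}

/-- The hypotheses about the virtual input. -/
structure Virt (x : List α) (cc : Cell α → ℕ) (y : List β) (o : O → ℕ)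
    (ve nn : Exp (SR T.Tape ⊕ O)) : Prop where
  ve : ∀ r : SS T.Tape, ve.eval x cc (Sum.elim r.toF o) = cod (cell y r.ps)
  nn : ∀ r : SS T.Tape, nn.eval x cc (Sum.elim r.toF o) = y.length + 1

variable {T}

theorem eval_rg (r : SR T.Tape) (s : SS T.Tape) (o : O → ℕ) :
    (rg T r : Exp (SR T.Tape ⊕ O)).eval x cc (Sum.elim s.toF o) = s.toF r := rfl

theorem eval_digE {S : ℕ} {c : T.Cfg} {s : SS T.Tape} {o : O → ℕ} {j : T.Tape}
    (hj : c.head j < S) (h1 : s.pw j = bS T ^ c.head j)
    (h2 : s.ct j = tn (bS T) S fun k => cs T (c.tape j k)) :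
    (digE T j : Exp (SR T.Tape ⊕ O)).eval x cc (Sum.elim s.toF o) = cs T (c.tape j (c.head j)) := by
  simp only [digE, eval_mod, eval_div, Exp.eval, Sum.elim_inl, SS.toF, h1, h2]
  exact tn_digit (fun k => cs_lt T _) hj

theorem eval_symE {S : ℕ} {c : T.Cfg} {s : SS T.Tape} {o : O → ℕ} {j : T.Tape}
    (hj : c.head j < S) (h1 : s.pw j = bS T ^ c.head j)
    (h2 : s.ct j = tn (bS T) S fun k => cs T (c.tape j k)) :
    (symE T j : Exp (SR T.Tape ⊕ O)).eval x cc (Sum.elim s.toF o) = cod (c.read j) := by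
  rw [symE, Exp.eval, eval_digE hj h1 h2, if_pos (cs_lt T _), ds_cs]
  rfl

/-- What the machine sees. -/
theorem eval_keyE {S : ℕ} {c : T.Cfg} {s : SS T.Tape} {o : O → ℕ} {y : List β}
    {ve nn : Exp (SR T.Tape ⊕ O)} (hv : Virt T x cc y o ve nn)
    (hh : ∀ j, c.head j < S) (h0 : s.st = cod c.state) (h0' : s.ps = c.pos)
    (h1 : ∀ j, s.pw j = bS T ^ c.head j)
    (h2 : ∀ j, s.ct j = tn (bS T) S fun k => cs T (c.tape j k)) :
    (keyE T ve).eval x cc (Sum.elim s.toF o) = cod (keyC T y c) := by
  rw [keyE]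
  have h3 : (vecE T.Tape T.Sym (symE T) (tapes T) : Exp (SR T.Tape ⊕ O)).eval x cc
      (Sum.elim s.toF o) = cod c.read := by
    rw [eval_vecE (r := c.read) (fun j => eval_symE (hh j) (h1 j) (h2 j))]
    congr 1
    funext j
    rw [if_pos (mem_tapes T j)]
  have h4 : ve.eval x cc (Sum.elim s.toF o) = cod (cell y c.pos) := by rw [hv.ve, h0']
  exact eval_pairE (A := T.State) (B := Cell β × (T.Tape → T.Sym)) h0
    (eval_pairE (A := Cell β) (B := T.Tape → T.Sym) h4 h3)

/-- The chosen move. -/
theorem eval_valE {s : SS T.Tape} {o : O → ℕ} {κ : Key T} (h1 : s.ky = cod κ)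
    (h2 : s.op < 2 ^ K0 T) :
    (valE T : Exp (SR T.Tape ⊕ O)).eval x cc (Sum.elim s.toF o) = cod (pick T κ s.op) := by
  have h3 : (rg T .ky * Exp.lit (2 ^ K0 T) + rg T .op : Exp (SR T.Tape ⊕ O)).eval x cc
      (Sum.elim s.toF o) = cod κ * 2 ^ K0 T + s.op := by
    simp only [eval_add, eval_mul, Exp.eval, Sum.elim_inl, SS.toF, h1]
  have h4 := cod_lt κ
  have h5 : cod κ * 2 ^ K0 T + s.op < Nat.card (Key T) * 2 ^ K0 T := by
    calc cod κ * 2 ^ K0 T + s.op < (cod κ + 1) * 2 ^ K0 T := by
          rw [Nat.add_mul, Nat.one_mul]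
          omega
      _ ≤ _ := Nat.mul_le_mul_right _ h4
  rw [valE, Exp.eval, h3, if_pos h5, Nat.mul_comm, Nat.mul_add_div (by positivity),
    Nat.div_eq_of_lt h2, Nat.add_zero, Nat.mul_add_mod, Nat.mod_eq_of_lt h2, dcd_cod]

/-- The new position on the input. -/
theorem eval_psE {s : SS T.Tape} {o : O → ℕ} {y : List β} {w : Val T}
    {ve nn : Exp (SR T.Tape ⊕ O)} (hv : Virt T x cc y o ve nn) (h1 : s.vv = cod w)
    (h2 : s.ps ≤ y.length + 1) :
    (psE T nn).eval x cc (Sum.elim s.toF o) = w.2.1.apply y.length s.ps := by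
  have h3 : (rg T .vv : Exp (SR T.Tape ⊕ O)).eval x cc (Sum.elim s.toF o) = cod w := h1
  rw [psE, eval_sub, eval_sub, eval_sub, hv.nn, eval_sub, eval_add, eval_tabE _ h3,
    eval_tabE _ h3, sub_sub_min]
  have h4 : (rg T .ps : Exp (SR T.Tape ⊕ O)).eval x cc (Sum.elim s.toF o) = s.ps := rfl
  rw [h4]
  cases w.2.1 <;> simp [Move.apply] <;> omega

open Classical in
/-- The new position on a tape. -/
theorem eval_pw0 {s : SS T.Tape} {o : O → ℕ} {w : Val T} {j : T.Tape} {p : ℕ}
    (h1 : s.vv = cod w) (h2 : s.pw j = bS T ^ p) :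
    (pw0 T j + (1 - pw0 T j) : Exp (SR T.Tape ⊕ O)).eval x cc (Sum.elim s.toF o) =
      bS T ^ NTM.wmove (w.2.2 j).2 p := by
  have hb := two_le_bS T
  have h3 : (rg T .vv : Exp (SR T.Tape ⊕ O)).eval x cc (Sum.elim s.toF o) = cod w := h1
  have h4 : (rg T (.pw j) : Exp (SR T.Tape ⊕ O)).eval x cc (Sum.elim s.toF o) = bS T ^ p := h2
  have h5 : (pw0 T j : Exp (SR T.Tape ⊕ O)).eval x cc (Sum.elim s.toF o) =
      bS T ^ p * (if (w.2.2 j).2 = Move.right then bS T else 1) /
        (if (w.2.2 j).2 = Move.left then bS T else 1) := by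
    rw [pw0, eval_div, eval_mul, eval_tabE _ h3, eval_tabE _ h3, h4]
  have hp : 0 < bS T ^ p := by positivity
  rw [eval_add, eval_sub, eval_one, h5]
  cases (w.2.2 j).2 with
  | left =>
    simp only [reduceCtorEq, if_false, if_true, Nat.mul_one, NTM.wmove]
    rcases Nat.eq_zero_or_pos p with rfl | h
    · rw [pow_zero, Nat.div_eq_of_lt (by omega)]
      simp
    · have h6 : bS T ^ p = bS T ^ (p - 1) * bS T := by
        rw [← pow_succ]
        congr 1
        omega
      have h7 : 0 < bS T ^ (p - 1) := by positivity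
      rw [h6, Nat.mul_div_cancel _ (by omega)]
      omega
  | stay =>
    simp only [reduceCtorEq, if_false, Nat.mul_one, Nat.div_one, NTM.wmove]
    omega
  | right =>
    simp only [reduceCtorEq, if_false, if_true, Nat.div_one, NTM.wmove, pow_succ]
    have : 0 < bS T ^ p * bS T := by positivity
    omega

open Classical in
/-- The registers after the instructions for the tapes in the list `l`. -/
noncomputable def aft (y : List β) (S : ℕ) (c : T.Cfg) (w : Val T) (l : List T.Tape)
    (s : SS T.Tape) : SS T.Tape :=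
  {s with
    pw := fun j => if j ∈ l then bS T ^ (ncf T y c w).head j else s.pw j
    ct := fun j => if j ∈ l then tn (bS T) S (fun k => cs T ((ncf T y c w).tape j k)) else s.ct j}

theorem run_tapeL {S : ℕ} {c : T.Cfg} {w : Val T} (y : List β) {o : O → ℕ}
    (hh : ∀ j, c.head j < S) (hh' : ∀ j, (ncf T y c w).head j < S) (hA : bS T ^ S ≤ A)
    (u : ℕ → Bool) (l : List T.Tape) (hl : l.Nodup) (s : SS T.Tape) (h1 : s.vv = cod w)
    (h2 : ∀ j ∈ l, s.pw j = bS T ^ c.head j)
    (h3 : ∀ j ∈ l, s.ct j = tn (bS T) S fun k => cs T (c.tape j k)) :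
    RunN x cc A body k (sqN (l.flatMap (tapeL T))) (Sum.elim s.toF o) u
      (Sum.elim (aft y S c w l s).toF o) u := by
  classical
  induction l generalizing s with
  | nil =>
    refine (RunN.nil).cast ?_
    congr 2
  | cons j l ih =>
    have hj : j ∉ l := (List.nodup_cons.1 hl).1
    have e1 : s.ct j = tn (bS T) S fun k => cs T (c.tape j k) := h3 j (by simp)
    have e2 : s.pw j = bS T ^ c.head j := h2 j (by simp)
    have e3 : (fun k => cs T ((ncf T y c w).tape j k)) =
        Function.update (fun k => cs T (c.tape j k)) (c.head j) (cs T (w.2.2 j).1) := by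
      funext k
      simp only [ncf]
      by_cases hk : k = c.head j
      · subst hk
        simp
      · simp [Function.update_of_ne hk]
    have e4 : (fun k => cs T (c.tape j k)) (c.head j) * bS T ^ c.head j ≤
        tn (bS T) S fun k => cs T (c.tape j k) :=
      le_tn (bS T) (fun k => cs T (c.tape j k)) (hh j)
    have e5 := tn_update (bS T) (fun k => cs T (c.tape j k)) (hh j) (cs T (w.2.2 j).1)
    rw [← e3] at e5
    have e6 := ih (List.nodup_cons.1 hl).2 ({s with
        pw := Function.update s.pw j (bS T ^ (ncf T y c w).head j)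
        ct := Function.update s.ct j (tn (bS T) S fun k => cs T ((ncf T y c w).tape j k))} :
        SS T.Tape) h1 (fun i hi => by
          simp only
          rw [Function.update_of_ne (by rintro rfl; exact hj hi)]
          exact h2 i (by simp [hi])) (fun i hi => by
          simp only
          rw [Function.update_of_ne (by rintro rfl; exact hj hi)]
          exact h3 i (by simp [hi]))
    rw [List.flatMap_cons]
    refine RunN.append ?_ (e6.cast ?_)
    · refine RunN.set (tn (bS T) S fun k => cs T ((ncf T y c w).tape j k)) ?_ ?_ ?_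
      · have h4 : (rg T .vv : Exp (SR T.Tape ⊕ O)).eval x cc (Sum.elim s.toF o) = cod w := h1
        rw [eval_add, eval_sub, eval_mul, eval_mul, eval_digE (hh j) e2 e1, eval_tabE _ h4,
          eval_rg, eval_rg]
        simp only [SS.toF, e1, e2]
        simp only at e4 e5
        omega
      · exact (tn_lt (fun k => cs_lt T _) S).trans_le hA
      · rw [upd_ct]
        refine RunN.set (bS T ^ (ncf T y c w).head j) ?_ ?_ ?_
        · exact eval_pw0 (p := c.head j) h1 e2
        · exact (Nat.pow_lt_pow_right (two_le_bS T) (hh' j)).trans_le hA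
        · rw [upd_pw]
          exact RunN.nil
    · congr 2
      simp only [aft, SS.mk.injEq, true_and]
      refine ⟨?_, ?_⟩
      · funext i
        by_cases hi : i ∈ l
        · simp [hi]
        · by_cases hij : i = j
          · subst hij
            simp [hi]
          · simp [hi, hij]
      · funext i
        by_cases hi : i ∈ l
        · simp [hi]
        · by_cases hij : i = j
          · subst hij
            simp [hi]
          · simp [hi, hij]

/-- All work tapes. -/
theorem aft_tapes {y : List β} {S : ℕ} {c : T.Cfg} {w : Val T} (s : SS T.Tape) :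
    aft y S c w (tapes T) s = {s with
      pw := fun j => bS T ^ (ncf T y c w).head j
      ct := fun j => tn (bS T) S (fun k => cs T ((ncf T y c w).tape j k))} := by
  simp only [aft, mem_tapes, if_true]

/-- The bounds. -/
structure Bds (T : NTM β) (y : List β) (A S : ℕ) : Prop where
  K : simK T ≤ A
  n : y.length + 1 < A
  S : bS T ^ S ≤ A

/-- A step of the simulation. -/
theorem run_simStep {S : ℕ} {c : T.Cfg} {y : List β} {o : O → ℕ} {ve nn : Exp (SR T.Tape ⊕ O)}
    (hv : Virt T x cc y o ve nn) (hB : Bds T y A S) (hh : ∀ j, c.head j < S)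
    (hp : c.pos ≤ y.length + 1) (u : ℕ → Bool)
    (hh' : ∀ j, (ncf T y c (pick T (keyC T y c) (gb (K0 T) u))).head j < S) :
    RunN x cc A body k (simStep T nn)
      (Sum.elim ({rp T S c with ky := cod (keyC T y c)} : SS T.Tape).toF o) u
      (Sum.elim (rp T S (ncf T y c (pick T (keyC T y c) (gb (K0 T) u)))).toF o)
      (sh (K0 T) u) := by
  have hK := hB.K
  have h2K := Nat.two_pow_pos (K0 T)
  unfold simK at hK
  have hA0 : 0 < A := by omega
  set w := pick T (keyC T y c) (gb (K0 T) u) with hw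
  have hcw := cod_lt w
  have hlt : gb (K0 T) u < 2 ^ K0 T := gb_lt _ _
  rw [simStep]
  refine RunN.cons (run_gk (r := Sum.inl SR.op) (fl := Sum.inl SR.fl) (by simp) rfl (K := K0 T)
    (by omega) k u) ?_
  rw [upd_op]
  refine RunN.set (cod w) ?_ (by omega) ?_
  · exact eval_valE rfl hlt
  rw [upd_vv]
  refine RunN.set (cod w.1) ?_ ?_ ?_
  · exact eval_tabE (fun w : Val T => cod w.1) (t := w) rfl
  · have := cod_lt w.1
    omega
  rw [upd_st]
  refine RunN.set (w.2.1.apply y.length c.pos) ?_ ?_ ?_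
  · exact eval_psE hv rfl hp
  · have := hB.n
    cases w.2.1 <;> simp [Move.apply] <;> omega
  rw [upd_ps]
  refine RunN.append (run_tapeL (c := c) (w := w) y hh hh' hB.S _ (tapes T) (nodup_tapes T) _
    rfl (fun j _ => rfl) (fun j _ => rfl)) ?_
  rw [aft_tapes]
  refine RunN.set 0 rfl hA0 ?_
  rw [upd_ky]
  refine RunN.set 0 rfl hA0 ?_
  rw [upd_op]
  refine RunN.set 0 rfl hA0 ?_
  rw [upd_vv]
  exact RunN.nil

/-- A round of the simulation, if there is a move. -/
theorem run_simB {S : ℕ} {c : T.Cfg} {y : List β} {o : O → ℕ} {ve nn : Exp (SR T.Tape ⊕ O)}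
    (hv : Virt T x cc y o ve nn) (hB : Bds T y A S) (hh : ∀ j, c.head j < S)
    (hp : c.pos ≤ y.length + 1) (hn : (nxt T (keyC T y c)).Nonempty) (u : ℕ → Bool)
    (hh' : ∀ j, (ncf T y c (pick T (keyC T y c) (gb (K0 T) u))).head j < S) :
    RunN x cc A body k (simB T ve nn) (Sum.elim (rp T S c).toF o) u
      (Sum.elim (rp T S (ncf T y c (pick T (keyC T y c) (gb (K0 T) u)))).toF o)
      (sh (K0 T) u) := by
  have hK := hB.K
  have h2K := Nat.two_pow_pos (K0 T)
  unfold simK at hK
  have hA0 : 0 < A := by omega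
  have hk := cod_lt (keyC T y c)
  refine RunN.set (cod (keyC T y c)) ?_ (by omega) ?_
  · exact eval_keyE hv hh rfl rfl (fun _ => rfl) (fun _ => rfl)
  rw [upd_ky]
  refine RunN.set 0 ?_ hA0 ?_
  · rw [eval_tabE (haltF T) (t := keyC T y c) rfl, haltF, if_neg hn.ne_empty]
  rw [upd_fl]
  exact RunN.cons (RunN.iteF _ _ _ _ _ _ _ _ rfl (run_simStep hv hB hh hp u hh')) RunN.nil

/-- The last round of the simulation. -/
theorem run_simB_halt {S : ℕ} {c : T.Cfg} {y : List β} {o : O → ℕ} {ve nn : Exp (SR T.Tape ⊕ O)}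
    (hv : Virt T x cc y o ve nn) (hB : Bds T y A S) (hh : ∀ j, c.head j < S)
    (hn : nxt T (keyC T y c) = ∅) (u : ℕ → Bool) :
    RunN x cc A body k (simB T ve nn) (Sum.elim (rp T S c).toF o) u
      (Sum.elim ({rp T S c with
        ky := cod (keyC T y c)
        fl := 1
        res := accF T (keyC T y c)
        go := 0} : SS T.Tape).toF o) u := by
  have hK := hB.K
  have h2K := Nat.two_pow_pos (K0 T)
  unfold simK at hK
  have hb := two_le_bS T
  have hA0 : 0 < A := by omega
  have hk := cod_lt (keyC T y c)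
  refine RunN.set (cod (keyC T y c)) ?_ (by omega) ?_
  · exact eval_keyE hv hh rfl rfl (fun _ => rfl) (fun _ => rfl)
  rw [upd_ky]
  refine RunN.set 1 ?_ (by omega) ?_
  · rw [eval_tabE (haltF T) (t := keyC T y c) rfl, haltF, if_pos hn]
  rw [upd_fl]
  refine RunN.cons (RunN.iteT _ _ _ _ _ _ _ _ ?_ (RunN.set (accF T (keyC T y c)) ?_ ?_ ?_))
    RunN.nil
  · exact one_ne_zero
  · exact eval_tabE (accF T) (t := keyC T y c) rfl
  · unfold accF
    split_ifs <;> omega
  · rw [upd_res]
    refine RunN.set 0 rfl hA0 ?_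
    rw [upd_go]
    exact RunN.nil

/-! ### The loop -/

theorem Reach.pos_le {y : List β} {c : T.Cfg} (h : T.Reach y c) : c.pos ≤ y.length + 1 := by
  induction h with
  | start => exact Nat.zero_le _
  | step c c' _ h' ih =>
    obtain ⟨w, -, rfl⟩ := h'
    simp only
    cases w.2.1 <;> simp [Move.apply] <;> omega

variable {S : ℕ} {y : List β} {o : O → ℕ} {ve nn : Exp (SR T.Tape ⊕ O)}

/-- The simulation halts, and it is sound. -/
theorem run_loop_total (hv : Virt T x cc y o ve nn) (hB : Bds T y A S)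
    (hS : ∀ c, T.Reach y c → ∀ j, c.head j < S) {c : T.Cfg} (hc : T.Reach y c)
    (hac : Acc (fun a b => T.Step y b a) c) : ∀ u : ℕ → Bool, ∃ (s : SS T.Tape) (v : ℕ → Bool),
      RunN x cc A body k (Stmt.loop (Sum.inl .go) (simB T ve nn)) (Sum.elim (rp T S c).toF o) u
        (Sum.elim s.toF o) v ∧ (s.res ≠ 0 → T.Accepts y) := by
  induction hac with
  | intro c _ ih =>
    intro u
    have hp := Reach.pos_le hc
    rcases Set.eq_empty_or_nonempty (nxt T (keyC T y c)) with hn | hn
    · refine ⟨_, u, RunN.loopT _ _ _ _ _ _ _ _ _ one_ne_zero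
        (run_simB_halt hv hB (hS c hc) hn u) (RunN.loopF _ _ _ _ _ rfl), fun h => ?_⟩
      simp only [accF] at h
      refine ⟨c, hc, fun c' hc' => ?_, ?_⟩
      · obtain ⟨w, hw, -⟩ := hc'
        have : w ∈ nxt T (keyC T y c) := hw
        rw [hn] at this
        exact this
      · by_contra h'
        exact h (if_neg h')
    · have h1 := pick_mem T hn (gb (K0 T) u)
      have h2 : T.Step y c (ncf T y c (pick T (keyC T y c) (gb (K0 T) u))) := ⟨_, h1, rfl⟩
      have h3 : T.Reach y (ncf T y c (pick T (keyC T y c) (gb (K0 T) u))) :=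
        NTM.Reach.step _ _ hc h2
      obtain ⟨s, v, h4, h5⟩ := ih _ h2 h3 (sh (K0 T) u)
      exact ⟨s, v, RunN.loopT _ _ _ _ _ _ _ _ _ one_ne_zero
        (run_simB hv hB (hS c hc) hp hn u (hS _ h3)) h4, h5⟩

/-- The simulation finds accepting computations. -/
theorem run_loop_complete (hv : Virt T x cc y o ve nn) (hB : Bds T y A S)
    (hS : ∀ c, T.Reach y c → ∀ j, c.head j < S) (h : T.Accepts y) :
    ∀ v : ℕ → Bool, ∃ (u : ℕ → Bool) (s : SS T.Tape),
      RunN x cc A body k (Stmt.loop (Sum.inl .go) (simB T ve nn)) (Sum.elim (rp T S T.init).toF o) u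
        (Sum.elim s.toF o) v ∧ s.res ≠ 0 := by
  obtain ⟨cf, h1, h2, h3⟩ := h
  have key : ∀ c, T.Reach y c → (∀ v : ℕ → Bool, ∃ (u : ℕ → Bool) (s : SS T.Tape),
      RunN x cc A body k (Stmt.loop (Sum.inl .go) (simB T ve nn)) (Sum.elim (rp T S c).toF o) u
        (Sum.elim s.toF o) v ∧ s.res ≠ 0) → ∀ v : ℕ → Bool, ∃ (u : ℕ → Bool) (s : SS T.Tape),
      RunN x cc A body k (Stmt.loop (Sum.inl .go) (simB T ve nn)) (Sum.elim (rp T S T.init).toF o) u
        (Sum.elim s.toF o) v ∧ s.res ≠ 0 := by
    intro c hc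
    induction hc with
    | start => exact fun h => h
    | step c c' hc h' ih =>
      intro hP
      refine ih fun v => ?_
      obtain ⟨u', s, h4, h5⟩ := hP v
      have hc' : T.Reach y c' := NTM.Reach.step _ _ hc h'
      obtain ⟨w, hw, hcw⟩ := (step_iff T y c c').1 h'
      obtain ⟨m, hm, hmw⟩ := exists_pick T hw
      obtain ⟨u, hu1, hu2⟩ := gb_surj (K0 T) m hm u'
      have h6 := run_simB (x := x) (cc := cc) (A := A) (body := body) (k := k) hv hB (hS c hc)
        (Reach.pos_le hc) ⟨w, hw⟩ u (by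
          rw [hu1, hmw, ← hcw]
          exact hS _ hc')
      rw [hu1, hmw, ← hcw, hu2] at h6
      exact ⟨u, s, RunN.loopT _ _ _ _ _ _ _ _ _ one_ne_zero h6 h4, h5⟩
  refine key cf h1 fun v => ⟨v, _, RunN.loopT _ _ _ _ _ _ _ _ _ one_ne_zero
    (run_simB_halt hv hB (hS cf h1) (Set.eq_empty_iff_forall_notMem.2 fun w hw => h2 _ ⟨w, hw, rfl⟩)
      v) (RunN.loopF _ _ _ _ _ rfl), ?_⟩
  have h4 : T.accept (keyC T y cf).1 (keyC T y cf).2.2 := h3
  simp only [accF]
  rw [if_pos h4]
  exact one_ne_zero

open Classical in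
/-- Set the registers of a list to one. -/
theorem run_ones {R : Type} {body : F → NStmt R F} (l : List R) (hA : 1 < A) (s : R → ℕ)
    (u : ℕ → Bool) :
    RunN x cc A body k (sqN (l.map fun q => asg q 1)) s u (fun q => if q ∈ l then 1 else s q) u := by
  induction l generalizing s with
  | nil =>
    refine (RunN.nil).cast ?_
    funext q
    simp
  | cons p l ih =>
    refine RunN.set 1 rfl hA ((ih _).cast ?_)
    funext q
    by_cases h1 : q ∈ l
    · simp [h1]
    · by_cases h2 : q = p
      · subst h2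
        simp
      · simp [h1, h2]

theorem mem_clrL (r : SR T.Tape ⊕ O) : r ∈ clrL T O ↔ ∃ q, q ≠ SR.res ∧ r = Sum.inl q := by
  unfold clrL
  simp only [List.mem_append, List.mem_cons, List.not_mem_nil, or_false, List.mem_map, mem_tapes,
    true_and]
  constructor
  · rintro (h | h)
    · rcases h with h | h | h | h | h | h | h <;> exact ⟨_, by simp, h⟩
    · rcases h with ⟨j, h⟩ | ⟨j, h⟩ <;> exact ⟨_, by simp, h.symm⟩
  · rintro ⟨q, h1, rfl⟩
    cases q <;> simp_all

/-- The parts of the simulation before and after the loop. -/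
theorem run_simP (hB : Bds T y A S) {s : SS T.Tape} {u v : ℕ → Bool}
    (h : RunN x cc A body k (Stmt.loop (Sum.inl .go) (simB T ve nn))
      (Sum.elim (rp T S T.init).toF o) u (Sum.elim s.toF o) v) :
    RunN x cc A body k (simP T ve nn) (Sum.elim (fun _ => 0) o) u
      (Sum.elim (upd (fun _ => 0) .res s.res) o) v := by
  classical
  have hK := hB.K
  have h2K := Nat.two_pow_pos (K0 T)
  have hb := two_le_bS T
  unfold simK at hK
  have hst := cod_lt T.start
  have e0 : (Sum.elim (fun _ => 0) o : SR T.Tape ⊕ O → ℕ) =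
      Sum.elim (⟨0, 0, 0, 0, 0, 0, 0, 0, fun _ => 0, fun _ => 0⟩ : SS T.Tape).toF o := by
    funext q
    rcases q with q | q
    · cases q <;> rfl
    · rfl
  rw [simP]
  refine RunN.set (cod T.start) rfl (by omega) (RunN.set 1 rfl (by omega) ?_)
  refine RunN.append (t := Sum.elim (rp T S T.init).toF o) (v := u) ?_ ?_
  · have e1 := run_ones (x := x) (cc := cc) (A := A) (body := body) (k := k)
      ((tapes T).map fun j => Sum.inl (.pw j)) (by omega)
      (upd (upd (Sum.elim (fun _ => 0) o) (Sum.inl .st) (cod T.start)) (Sum.inl .go) 1) u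
    rw [List.map_map] at e1
    refine RunN.cast e1 ?_
    rw [e0, upd_st, upd_go]
    funext q
    rcases q with q | q
    · cases q <;> simp [SS.toF, rp, mem_tapes, NTM.init, tn, cs_blank]
    · simp
  · refine RunN.cons h ((run_clear (clrL T O) (by omega) _ v).cast ?_)
    funext q
    rcases q with q | q
    · by_cases hq : q = SR.res
      · subst hq
        rw [if_neg (by rw [mem_clrL]; rintro ⟨q, h1, h2⟩; exact h1 (Sum.inl_injective h2).symm)]
        simp [SS.toF]
      · rw [if_pos ((mem_clrL _).2 ⟨q, hq, rfl⟩)]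
        simp [upd_ne hq]
    · rw [if_neg (by rw [mem_clrL]; rintro ⟨q, -, h2⟩; simp at h2)]
      rfl

/-- **The simulation.** -/
theorem simP_spec {Lg : List β → Prop} {sp : ℕ → ℕ} (hT : T.AcceptsIn Lg sp)
    (hv : Virt T x cc y o ve nn) (hB : Bds T y A (sp y.length)) :
    (∀ u : ℕ → Bool, ∃ (r : ℕ) (v : ℕ → Bool), RunN x cc A body k (simP T ve nn)
      (Sum.elim (fun _ => 0) o) u (Sum.elim (upd (fun _ => 0) .res r) o) v ∧ (r ≠ 0 → Lg y)) ∧
    (Lg y → ∀ v : ℕ → Bool, ∃ (u : ℕ → Bool) (r : ℕ), r ≠ 0 ∧ RunN x cc A body k (simP T ve nn)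
      (Sum.elim (fun _ => 0) o) u (Sum.elim (upd (fun _ => 0) .res r) o) v) := by
  obtain ⟨h1, h2, h3⟩ := hT y
  have hac : Acc (fun a b => T.Step y b a) T.init := by
    by_contra h
    obtain ⟨f, hf0, hf⟩ := not_acc_iff_exists_descending_chain.1 h
    exact h2 ⟨f, hf0, hf⟩
  refine ⟨fun u => ?_, fun hL v => ?_⟩
  · obtain ⟨s, v, h4, h5⟩ := run_loop_total (x := x) (cc := cc) (body := body) (k := k) hv hB h3
      NTM.Reach.start hac u
    exact ⟨s.res, v, run_simP hB h4, fun h => h1.1 (h5 h)⟩
  · obtain ⟨u, s, h4, h5⟩ := run_loop_complete (x := x) (cc := cc) (body := body) (k := k) hv hB h3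
      (h1.2 hL) v
    exact ⟨u, s.res, h5, run_simP hB h4⟩

end

/-! ### The virtual input -/

section

variable {α : Type} [Finite α] (M : NPDA α) (T : NTM M.Sym2)

/-- A register of the main loop. -/
abbrev ro (r : RO) : Exp (SR T.Tape ⊕ RO) := Exp.var (Sum.inr r)

/-- The code of the truth value of `a = b`. -/
noncomputable def eqE {R : Type} (a b : Exp R) : Exp R :=
  Exp.tab (fun n => cod (decide (n = 1))) 2 (1 - ((a - b) + (b - a)))

theorem eval_eqE {R : Type} {x : List α} {cc : Cell α → ℕ} {s : R → ℕ} (a b : Exp R) :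
    (eqE a b).eval x cc s = cod (decide (a.eval x cc s = b.eval x cc s)) := by
  rw [eqE, Exp.eval, eval_sub, eval_one, eval_add, eval_sub, eval_sub]
  by_cases h : a.eval x cc s = b.eval x cc s
  · rw [h, Nat.sub_self, if_pos (by omega)]
    simp
  · rw [if_pos (by omega)]
    have : 1 - (a.eval x cc s - b.eval x cc s + (b.eval x cc s - a.eval x cc s)) = 0 := by omega
    rw [this]
    simp [h]

/-- The letter of the virtual input before the position of the head. -/
noncomputable def letE : Exp (SR T.Tape ⊕ RO) :=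
  pairE (Cell α) (Bool × Bool × M.State × M.Stack × Option M.State) (Exp.inp (rg T .ps - 1))
    (pairE Bool (Bool × M.State × M.Stack × Option M.State) (eqE (rg T .ps - 1) (ro M T .i))
      (pairE Bool (M.State × M.Stack × Option M.State) (eqE (rg T .ps - 1) (ro M T .j))
        (pairE M.State (M.Stack × Option M.State) (ro M T .q)
          (pairE M.Stack (Option M.State) (ro M T .X) (ro M T .d)))))

/-- The code of the cell of the virtual input under the head. -/
noncomputable def virE : Exp (SR T.Tape ⊕ RO) :=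
  Exp.tab (fun n => cod (if n / Nat.card M.Sym2 = 0 then (Cell.left : Cell M.Sym2) else
      if n / Nat.card M.Sym2 = 1 then Cell.letter (dcd (n % Nat.card M.Sym2)) else Cell.right))
    (3 * Nat.card M.Sym2)
    (((1 - (1 - rg T .ps)) + (1 - (ro M T .n + 3 - rg T .ps))) * Exp.lit (Nat.card M.Sym2) +
      letE M T)

theorem vword_length (x : List α) (q : M.State) (i : ℕ) (X : M.Stack) (d : Option M.State)
    (j : ℕ) : (M.vword x q i X d j).length = x.length + 2 := by
  simp [NPDA.vword]

theorem cell_vword (x : List α) (q : M.State) (i : ℕ) (X : M.Stack) (d : Option M.State)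
    (j p : ℕ) : cell (M.vword x q i X d j) p = if p = 0 then Cell.left else
      if p < x.length + 3 then Cell.letter (cell x (p - 1), decide (p - 1 = i),
        decide (p - 1 = j), q, X, d) else Cell.right := by
  cases p with
  | zero => rfl
  | succ p =>
    have e : ∀ (y : List M.Sym2) (a : M.Sym2), y[p]? = some a → cell y (p + 1) = Cell.letter a :=
      fun y a h => by simp [cell, h]
    have e' : ∀ y : List M.Sym2, y[p]? = none → cell y (p + 1) = Cell.right :=
      fun y h => by simp [cell, h]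
    rw [if_neg (by omega)]
    by_cases h : p < x.length + 2
    · rw [if_pos (by omega)]
      refine e _ _ ?_
      rw [NPDA.vword, List.getElem?_map, List.getElem?_range h]
      rfl
    · rw [if_neg (by omega)]
      refine e' _ ?_
      rw [NPDA.vword]
      exact List.getElem?_eq_none (by simp; omega)

/-- The virtual input. -/
theorem virt {x : List α} {o : RO → ℕ} {q : M.State} {i : ℕ} {X : M.Stack} {d : Option M.State}
    {j : ℕ} (hn : o .n = x.length) (hq : o .q = cod q) (hi : o .i = i) (hX : o .X = cod X)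
    (hd : o .d = cod d) (hj : o .j = j) :
    Virt T x cod (M.vword x q i X d j) o (virE M T) (ro M T .n + 3) := by
  refine ⟨fun r => ?_, fun r => ?_⟩
  · have h1 : (letE M T).eval x cod (Sum.elim r.toF o) =
        cod ((cell x (r.ps - 1), decide (r.ps - 1 = i), decide (r.ps - 1 = j), q, X, d) :
          M.Sym2) := by
      have e1 : (eqE (rg T .ps - 1) (ro M T .i)).eval x cod (Sum.elim r.toF o) =
          cod (decide (r.ps - 1 = i)) := by
        rw [eval_eqE]
        simp only [eval_sub, Exp.eval, eval_one, Sum.elim_inl, Sum.elim_inr, SS.toF, hi]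
      have e2 : (eqE (rg T .ps - 1) (ro M T .j)).eval x cod (Sum.elim r.toF o) =
          cod (decide (r.ps - 1 = j)) := by
        rw [eval_eqE]
        simp only [eval_sub, Exp.eval, eval_one, Sum.elim_inl, Sum.elim_inr, SS.toF, hj]
      exact eval_pairE (A := Cell α) (B := Bool × Bool × M.State × M.Stack × Option M.State) rfl
        (eval_pairE (A := Bool) (B := Bool × M.State × M.Stack × Option M.State) e1
        (eval_pairE (A := Bool) (B := M.State × M.Stack × Option M.State) e2
        (eval_pairE (A := M.State) (B := M.Stack × Option M.State) hq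
        (eval_pairE (A := M.Stack) (B := Option M.State) hX hd))))
    have h2 := cod_lt ((cell x (r.ps - 1), decide (r.ps - 1 = i), decide (r.ps - 1 = j), q, X, d) :
      M.Sym2)
    have h3 : (((1 - (1 - rg T .ps)) + (1 - (ro M T .n + 3 - rg T .ps))) *
        Exp.lit (Nat.card M.Sym2) + letE M T).eval x cod (Sum.elim r.toF o) =
        ((1 - (1 - r.ps)) + (1 - (x.length + 3 - r.ps))) * Nat.card M.Sym2 +
          cod ((cell x (r.ps - 1), decide (r.ps - 1 = i), decide (r.ps - 1 = j), q, X, d) :
            M.Sym2) := by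
      simp only [eval_add, eval_mul, eval_sub, eval_one, eval_ofNat, h1]
      simp only [Exp.eval, Sum.elim_inl, Sum.elim_inr, SS.toF, hn]
    have h4 : ((1 - (1 - r.ps)) + (1 - (x.length + 3 - r.ps))) * Nat.card M.Sym2 +
          cod ((cell x (r.ps - 1), decide (r.ps - 1 = i), decide (r.ps - 1 = j), q, X, d) :
            M.Sym2) < 3 * Nat.card M.Sym2 := by
      have h5 : (1 - (1 - r.ps)) + (1 - (x.length + 3 - r.ps)) ≤ 2 := by omega
      nlinarith [Nat.mul_le_mul_right (Nat.card M.Sym2) h5]
    rw [virE, Exp.eval, h3, if_pos h4, cell_vword]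
    have h6 : ((1 - (1 - r.ps) + (1 - (x.length + 3 - r.ps))) * Nat.card M.Sym2 +
        cod ((cell x (r.ps - 1), decide (r.ps - 1 = i), decide (r.ps - 1 = j), q, X, d) :
          M.Sym2)) / Nat.card M.Sym2 = 1 - (1 - r.ps) + (1 - (x.length + 3 - r.ps)) := by
      rw [Nat.mul_comm, Nat.mul_add_div (by omega), Nat.div_eq_of_lt h2, Nat.add_zero]
    have h7 : ((1 - (1 - r.ps) + (1 - (x.length + 3 - r.ps))) * Nat.card M.Sym2 +
        cod ((cell x (r.ps - 1), decide (r.ps - 1 = i), decide (r.ps - 1 = j), q, X, d) :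
          M.Sym2)) % Nat.card M.Sym2 = cod ((cell x (r.ps - 1), decide (r.ps - 1 = i),
          decide (r.ps - 1 = j), q, X, d) : M.Sym2) := by
      rw [Nat.mul_comm, Nat.mul_add_mod, Nat.mod_eq_of_lt h2]
    rw [h6, h7, dcd_cod]
    congr 1
    by_cases h8 : r.ps = 0
    · rw [if_pos (by omega), if_pos h8]
    · rw [if_neg h8]
      by_cases h9 : r.ps < x.length + 3
      · rw [if_neg (by omega), if_pos (by omega), if_pos h9]
      · rw [if_neg (by omega), if_neg (by omega), if_neg h9]
  · rw [vword_length]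
    simp only [eval_add, eval_ofNat, Exp.eval, Sum.elim_inr, hn]

/-- **The simulation decides the queries.** -/
theorem simSpec : SimSpec M := by
  intro T
  refine ⟨simK T, SR T.Tape, inferInstance, .res, fun F =>
    ⟨simP T (virE M T) (ro M T .n + 3), fun sp hT x A k body hA => ?_⟩⟩
  have hb := two_le_bS T
  have h2K := Nat.two_pow_pos (K0 T)
  have hbK : bS T ≤ simK T := by unfold simK; omega
  have hK2 : 2 ≤ simK T := hb.trans hbK
  have hK1 : 1 ≤ simK T ^ sp (x.length + 2) := Nat.one_le_pow _ _ (by omega)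
  have hB : Bds T (List.replicate (x.length + 2) (default : M.Sym2)) A (sp (x.length + 2)) := by
    refine ⟨?_, ?_, ?_⟩
    · nlinarith [Nat.mul_le_mul (show 1 ≤ x.length + 4 by omega) hK1]
    · rw [List.length_replicate]
      nlinarith [Nat.mul_le_mul_left (x.length + 4) hK1]
    · refine (Nat.pow_le_pow_left hbK _).trans (le_trans ?_ hA)
      calc simK T ^ sp (x.length + 2) = 1 * (1 * simK T ^ sp (x.length + 2)) := by ring
        _ ≤ simK T * ((x.length + 4) * simK T ^ sp (x.length + 2)) :=
          Nat.mul_le_mul (by omega) (Nat.mul_le_mul_right _ (by omega))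
  have hB' : ∀ y : List M.Sym2, y.length = x.length + 2 → Bds T y A (sp y.length) := by
    intro y hy
    rw [hy]
    refine ⟨hB.K, ?_, hB.S⟩
    have := hB.n
    rwa [List.length_replicate, ← hy] at this
  constructor
  · intro o q i X d j hi hj h1 h2 h3 h4 h5 h6 u
    obtain ⟨h7, -⟩ := simP_spec (T := T) (x := x) (cc := cod) (body := body) (k := k) hT
      (virt M T (j := j) h1 h2 h3 h4 h5 h6) (hB' _ (vword_length M x q i X d j))
    obtain ⟨r, v, h8, h9⟩ := h7 u
    exact ⟨r, v, h8, fun h => (M.qM_accepts x q i X d j hi hj).1 (h9 h)⟩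
  · intro o q i X d j hi hj h1 h2 h3 h4 h5 h6 hQ v
    obtain ⟨-, h7⟩ := simP_spec (T := T) (x := x) (cc := cod) (body := body) (k := k) hT
      (virt M T (j := j) h1 h2 h3 h4 h5 h6) (hB' _ (vword_length M x q i X d j))
    exact h7 ((M.qM_accepts x q i X d j hi hj).2 hQ) v

end

end RC

end Pool.Agent.Lib.MP_9277c3_lc
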