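import Pool.Agent.Lib.MP_9277c3_lc.RC.Tab

/-!
# Specification of the query program and of the main loop
-/

set_option autoImplicit false

namespace Pool.Agent.Lib.MP_9277c3_lc

namespace NPDA

variable {α : Type} (M : NPDA α)

instance : Finite M.State := M.finite_state

instance : Finite M.Stack := M.finite_stack

instance : Inhabited M.State := ⟨M.start⟩

instance : Inhabited M.Stack := ⟨M.bottom⟩

end NPDA

namespace RC

open CM NC

/-- The registers of the initial program: the length of the input, its logarithm, the square root of
the logarithm, the threshold, the number of macro configurations, and two auxiliary registers. -/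
inductive RI : Type
  | n | L | s | h | C | i | t

/-- The registers of the main loop: the length `n` of the input, the threshold `h`, the number `C`
of steps which are left, the code of the state `q`, the position `i`, the number `Z` of the stack,
its height `H`; the code of the topmost symbol `X`, the code of the target `d` and its position `j`;
the other registers are auxiliary, at the end `res` is not zero iff the input is accepted. -/
inductive RO : Type
  | n | h | C | q | i | Z | H | X | d | j | go | res | ky | op | vv | fl | t | t'

/-- The registers before the main loop. -/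
def iniO (n h C : ℕ) : RO → ℕ
  | .n => n
  | .h => h
  | .C => C
  | _ => 0

/-- The program `qry` decides nondeterministically the query which is given by the registers
`q, i, X, d, j`. Before and after the query all its own registers `S` are zero, except for the
result `res` after the query. -/
structure QryOK {α S F : Type} [Finite α] (M : NPDA α) (x : List α) (A : ℕ)
    (body : F → NStmt (S ⊕ RO) F) (k : ℕ) (res : S) (qry : NStmt (S ⊕ RO) F) : Prop where
  total : ∀ (o : RO → ℕ) (q : M.State) (i : ℕ) (X : M.Stack) (d : Option M.State) (j : ℕ),
    i ≤ x.length + 1 → j ≤ x.length + 1 → o .n = x.length → o .q = cod q → o .i = i →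
    o .X = cod X → o .d = cod d → o .j = j → ∀ u : ℕ → Bool, ∃ (r : ℕ) (v : ℕ → Bool),
      RunN x cod A body k qry (Sum.elim (fun _ => 0) o) u
        (Sum.elim (upd (fun _ => 0) res r) o) v ∧ (r ≠ 0 → M.Query x q i X d j)
  complete : ∀ (o : RO → ℕ) (q : M.State) (i : ℕ) (X : M.Stack) (d : Option M.State) (j : ℕ),
    i ≤ x.length + 1 → j ≤ x.length + 1 → o .n = x.length → o .q = cod q → o .i = i →
    o .X = cod X → o .d = cod d → o .j = j → M.Query x q i X d j → ∀ v : ℕ → Bool,
      ∃ (u : ℕ → Bool) (r : ℕ), r ≠ 0 ∧
        RunN x cod A body k qry (Sum.elim (fun _ => 0) o) u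
          (Sum.elim (upd (fun _ => 0) res r) o) v

/-- The bound `D` for the lengths of the lists which are pushed. -/
def PushLe {α : Type} (M : NPDA α) (D : ℕ) : Prop :=
  ∀ q c X, ∀ r ∈ M.next q c X, r.2.2.length ≤ D

/-- The main loop, statement. -/
def OuterSpec {α : Type} [Finite α] (M : NPDA α) (K₀ D : ℕ) : Prop :=
  ∀ (S F : Type) (res : S) (qry : NStmt (S ⊕ RO) F), ∃ P : NStmt (S ⊕ RO) F,
    ∀ (x : List α) (A k : ℕ) (body : F → NStmt (S ⊕ RO) F), QryOK M x A body k res qry →
      ∀ h C : ℕ, K₀ * ((x.length + 2) * (Nat.card M.Stack + 1) ^ (h + D + 1)) ≤ A →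
        C = Nat.card M.State * (x.length + 2) * (Nat.card M.Stack + 1) ^ (h + D + 1) →
        (∀ u : ℕ → Bool, ∃ t v, RunN x cod A body k P
          (Sum.elim (fun _ => 0) (iniO x.length h C)) u t v ∧
          (t (Sum.inr .res) ≠ 0 → M.AcceptsLow h x)) ∧
        (M.AcceptsLow h x → ∃ (u : ℕ → Bool) (t : S ⊕ RO → ℕ) (v : ℕ → Bool),
          RunN x cod A body k P (Sum.elim (fun _ => 0) (iniO x.length h C)) u t v ∧
          t (Sum.inr .res) ≠ 0)

end RC

end Pool.Agent.Lib.MP_9277c3_lc
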