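import Pool.Agent.Lib.MP_9277c3_lc.RC.Spec

/-!
# Specifications of the parts of the main loop
-/

set_option autoImplicit false

namespace Pool.Agent.Lib.MP_9277c3_lc

namespace RC

open CM NC

section

variable {α S F : Type} [Finite α] (M : NPDA α)

/-- The number of a stack: the topmost symbol is the lowest digit, and no digit is zero. -/
noncomputable def scode : List M.Stack → ℕ
  | [] => 0
  | X :: γ => (cod X + 1) + (Nat.card M.Stack + 1) * scode γ

/-- The registers at the beginning of a round of the main loop: the configuration is `c`, and `C`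
rounds are left. -/
noncomputable def stO (n h C : ℕ) (c : M.Cfg) (go res : ℕ) : RO → ℕ
  | .n => n
  | .h => h
  | .C => C
  | .q => cod c.1
  | .i => c.2.1
  | .Z => scode M c.2.2
  | .H => c.2.2.length
  | .go => go
  | .res => res
  | _ => 0

/-- The registers of the whole program, when the registers of the query program are zero. -/
noncomputable def stA (S : Type) (n h C : ℕ) (c : M.Cfg) (go res : ℕ) : S ⊕ RO → ℕ :=
  Sum.elim (fun _ => 0) (stO M n h C c go res)

/-- The values are small: what may be assumed about `A` in the low and high steps. -/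
def Big (x : List α) (A K₀ : ℕ) (c : M.Cfg) (D : ℕ) : Prop :=
  c.2.1 ≤ x.length + 1 ∧
    K₀ * ((x.length + 2) * (Nat.card M.Stack + 1) ^ (c.2.2.length + D)) ≤ A

/-- A step with a low stack. If there is no move then the registers `go` and `res` are zero. -/
structure LowOK (x : List α) (A K₀ D : ℕ) (body : F → NStmt (S ⊕ RO) F) (k : ℕ)
    (P : NStmt (S ⊕ RO) F) : Prop where
  none : ∀ (h C : ℕ) (q : M.State) (i : ℕ) (X : M.Stack) (γ : List M.Stack),
    Big M x A K₀ (q, i, X :: γ) D → M.next q (cell x i) X = ∅ → ∀ u : ℕ → Bool,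
    ∃ v, RunN x cod A body k P (stA M S x.length h C (q, i, X :: γ) 1 0) u
      (stA M S x.length h C (q, i, X :: γ) 0 0) v
  total : ∀ (h C : ℕ) (q : M.State) (i : ℕ) (X : M.Stack) (γ : List M.Stack),
    Big M x A K₀ (q, i, X :: γ) D → (M.next q (cell x i) X).Nonempty → ∀ u : ℕ → Bool,
    ∃ r ∈ M.next q (cell x i) X, ∃ v, RunN x cod A body k P
      (stA M S x.length h C (q, i, X :: γ) 1 0) u
      (stA M S x.length h C (r.1, r.2.1.apply x.length i, r.2.2 ++ γ) 1 0) v
  complete : ∀ (h C : ℕ) (q : M.State) (i : ℕ) (X : M.Stack) (γ : List M.Stack),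
    Big M x A K₀ (q, i, X :: γ) D → ∀ r ∈ M.next q (cell x i) X, ∀ v : ℕ → Bool,
    ∃ u, RunN x cod A body k P
      (stA M S x.length h C (q, i, X :: γ) 1 0) u
      (stA M S x.length h C (r.1, r.2.1.apply x.length i, r.2.2 ++ γ) 1 0) v

/-- A step with a high stack. -/
structure HighOK (x : List α) (A K₀ D : ℕ) (body : F → NStmt (S ⊕ RO) F) (k : ℕ)
    (P : NStmt (S ⊕ RO) F) : Prop where
  total : ∀ (h C : ℕ) (q : M.State) (i : ℕ) (X : M.Stack) (γ : List M.Stack),
    Big M x A K₀ (q, i, X :: γ) D → ∀ u : ℕ → Bool,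
    ∃ (c : M.Cfg) (go res : ℕ) (v : ℕ → Bool), RunN x cod A body k P
      (stA M S x.length h C (q, i, X :: γ) 1 0) u (stA M S x.length h C c go res) v ∧
      ((go = 0 ∧ res = 0) ∨ (go = 0 ∧ res = 1 ∧ M.Query x q i X none 0) ∨
        (go = 1 ∧ res = 0 ∧ ∃ q' j, j ≤ x.length + 1 ∧ M.Query x q i X (some q') j ∧
          c = (q', j, γ)))
  accept : ∀ (h C : ℕ) (q : M.State) (i : ℕ) (X : M.Stack) (γ : List M.Stack),
    Big M x A K₀ (q, i, X :: γ) D → M.Query x q i X none 0 → ∀ v : ℕ → Bool,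
    ∃ (c : M.Cfg) (u : ℕ → Bool), RunN x cod A body k P
      (stA M S x.length h C (q, i, X :: γ) 1 0) u (stA M S x.length h C c 0 1) v
  pop : ∀ (h C : ℕ) (q : M.State) (i : ℕ) (X : M.Stack) (γ : List M.Stack),
    Big M x A K₀ (q, i, X :: γ) D → ∀ q' j, j ≤ x.length + 1 → M.Query x q i X (some q') j →
    ∀ v : ℕ → Bool, ∃ u : ℕ → Bool, RunN x cod A body k P
      (stA M S x.length h C (q, i, X :: γ) 1 0) u (stA M S x.length h C (q', j, γ) 1 0) v

/-- The program for low steps, statement. -/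
def LowSpec (D : ℕ) : Prop := PushLe M D → ∃ K₀ : ℕ, ∀ (S F : Type), ∃ P : NStmt (S ⊕ RO) F,
  ∀ (x : List α) (A k : ℕ) (body : F → NStmt (S ⊕ RO) F), LowOK M x A K₀ D body k P

/-- The program for high steps, statement. -/
def HighSpec (D : ℕ) : Prop := ∃ K₀ : ℕ, ∀ (S F : Type) (res : S) (qry : NStmt (S ⊕ RO) F),
  ∃ P : NStmt (S ⊕ RO) F, ∀ (x : List α) (A k : ℕ) (body : F → NStmt (S ⊕ RO) F),
    QryOK M x A body k res qry → HighOK M x A K₀ D body k P

/-- The main loop from its parts, statement. -/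
def LoopSpec (D : ℕ) : Prop := PushLe M D → LowSpec M D → HighSpec M D → ∃ K₀, OuterSpec M K₀ D

end

end RC

end Pool.Agent.Lib.MP_9277c3_lc
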