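import Pool.Agent.Lib.MP_9277c3_lc.NC.Time
import Pool.Agent.Lib.MP_9277c3_lc.RC.Defs

/-!
# Tables in expressions, numbers of tapes, guessing a number with a fixed number of bits
-/

set_option autoImplicit false

namespace Pool.Agent.Lib.MP_9277c3_lc

/-- Finitely many moves. -/
instance : Finite Move := by
  refine Finite.of_injective (β := Fin 3) (fun m => match m with
    | Move.left => 0
    | Move.stay => 1
    | Move.right => 2) fun a b h => ?_
  cases a <;> cases b <;> first | rfl | exact absurd h (by decide)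

instance : Inhabited Move := ⟨Move.stay⟩

instance {β : Type} : Inhabited (Cell β) := ⟨Cell.left⟩

instance {β : Type} [Finite β] : Finite (Cell β) := by
  refine Finite.of_injective (β := Option (Option β)) (fun c => match c with
    | Cell.left => none
    | Cell.right => some none
    | Cell.letter a => some (some a)) fun a b h => ?_
  cases a <;> cases b <;> simp_all

namespace RC

open CM NC

section

variable {R α : Type} {x : List α} {cc : Cell α → ℕ} {s : R → ℕ}

/-- The value of a function of a coded argument. -/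
noncomputable def tabE {T : Type} [Finite T] [Inhabited T] (g : T → ℕ) (e : Exp R) : Exp R :=
  Exp.tab (fun n => g (dcd n)) (Nat.card T) e

theorem eval_tabE {T : Type} [Finite T] [Inhabited T] (g : T → ℕ) {e : Exp R} {t : T}
    (h : e.eval x cc s = cod t) : (tabE g e).eval x cc s = g t := by
  simp only [tabE, Exp.eval, h]
  rw [if_pos (cod_lt t), dcd_cod]

/-- The code of a pair. -/
noncomputable def pairE (A B : Type) [Finite A] [Finite B] [Inhabited A] [Inhabited B]
    (ea eb : Exp R) : Exp R :=
  Exp.tab (fun n => cod ((dcd (n / Nat.card B) : A), (dcd (n % Nat.card B) : B)))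
    (Nat.card A * Nat.card B) (ea * Exp.lit (Nat.card B) + eb)

theorem eval_pairE {A B : Type} [Finite A] [Finite B] [Inhabited A] [Inhabited B]
    {ea eb : Exp R} {a : A} {b : B} (ha : ea.eval x cc s = cod a) (hb : eb.eval x cc s = cod b) :
    (pairE A B ea eb).eval x cc s = cod (a, b) := by
  have h1 := cod_lt a
  have h2 := cod_lt b
  have h3 : (ea * Exp.lit (Nat.card B) + eb).eval x cc s = cod a * Nat.card B + cod b := by
    simp only [eval_add, eval_mul, ha, hb]
    rfl
  have h4 : cod a * Nat.card B + cod b < Nat.card A * Nat.card B := by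
    calc cod a * Nat.card B + cod b < (cod a + 1) * Nat.card B := by
          rw [Nat.add_mul, Nat.one_mul]
          omega
      _ ≤ _ := Nat.mul_le_mul_right _ h1
  rw [pairE, Exp.eval, h3, if_pos h4]
  rw [Nat.mul_comm, Nat.mul_add_div (by omega), Nat.div_eq_of_lt h2, Nat.add_zero,
    Nat.mul_add_mod, Nat.mod_eq_of_lt h2, dcd_cod, dcd_cod]

open Classical in
/-- The code of a function which is given by the codes of its values. -/
noncomputable def vecE (J S : Type) [Finite J] [Finite S] [Inhabited S] (e : J → Exp R) :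
    List J → Exp R
  | [] => Exp.lit (cod (fun _ : J => (default : S)))
  | j :: l => tabE (fun p : (J → S) × S => cod (Function.update p.1 j p.2))
      (pairE (J → S) S (vecE J S e l) (e j))

open Classical in
theorem eval_vecE {J S : Type} [Finite J] [Finite S] [Inhabited S] {e : J → Exp R} {r : J → S}
    (h : ∀ j, (e j).eval x cc s = cod (r j)) (l : List J) :
    (vecE J S e l).eval x cc s = cod (fun j => if j ∈ l then r j else default) := by
  induction l with
  | nil => simp [vecE, Exp.eval]
  | cons j l ih =>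
    rw [vecE, eval_tabE _ (eval_pairE ih (h j))]
    congr 1
    funext i
    by_cases hi : i = j
    · subst hi
      simp
    · simp [hi]

/-- The minimum of two values. -/
theorem sub_sub_min (a b : ℕ) : a - (a - b) = min a b := by omega

end

/-! ### Numbers of tapes -/

/-- The number with the digits `f 0, ..., f (S - 1)`. -/
def tn (b S : ℕ) (f : ℕ → ℕ) : ℕ := ∑ k ∈ Finset.range S, f k * b ^ k

theorem tn_lt {b : ℕ} {f : ℕ → ℕ} (hf : ∀ k, f k < b) (S : ℕ) : tn b S f < b ^ S := by
  induction S with
  | zero => simp [tn]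
  | succ S ih =>
    rw [tn, Finset.sum_range_succ]
    change tn b S f + f S * b ^ S < _
    have h1 : (f S + 1) * b ^ S ≤ b * b ^ S := Nat.mul_le_mul_right _ (hf S)
    rw [pow_succ']
    have h2 : (f S + 1) * b ^ S = f S * b ^ S + b ^ S := by ring
    omega

theorem tn_digit {b : ℕ} {f : ℕ → ℕ} (hf : ∀ k, f k < b) {S p : ℕ} (hp : p < S) :
    tn b S f / b ^ p % b = f p := by
  have hb : 0 < b := (Nat.zero_le _).trans_lt (hf 0)
  induction S with
  | zero => omega
  | succ S ih =>
    rw [tn, Finset.sum_range_succ]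
    change (tn b S f + f S * b ^ S) / b ^ p % b = f p
    rcases Nat.lt_succ_iff_lt_or_eq.1 hp with h | h
    · obtain ⟨d, rfl⟩ : ∃ d, S = p + (d + 1) := ⟨S - p - 1, by omega⟩
      rw [show f (p + (d + 1)) * b ^ (p + (d + 1)) = b ^ p * (b * (f (p + (d + 1)) * b ^ d)) by
        ring, Nat.add_mul_div_left _ _ (by positivity), Nat.add_mul_mod_self_left]
      exact ih h
    · subst h
      rw [Nat.add_mul_div_right _ _ (by positivity), Nat.div_eq_of_lt (tn_lt hf p), Nat.zero_add,
        Nat.mod_eq_of_lt (hf p)]

theorem tn_update (b : ℕ) (f : ℕ → ℕ) {S p : ℕ} (hp : p < S) (e : ℕ) :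
    tn b S (Function.update f p e) + f p * b ^ p = tn b S f + e * b ^ p := by
  have h0 : p ∈ Finset.range S := Finset.mem_range.2 hp
  rw [tn, tn, ← Finset.add_sum_erase _ _ h0, ← Finset.add_sum_erase _ _ h0]
  have h1 : ∑ k ∈ (Finset.range S).erase p, Function.update f p e k * b ^ k =
      ∑ k ∈ (Finset.range S).erase p, f k * b ^ k := by
    refine Finset.sum_congr rfl fun k hk => ?_
    rw [Function.update_of_ne (Finset.ne_of_mem_erase hk)]
  rw [h1, Function.update_self]
  ring

theorem le_tn (b : ℕ) (f : ℕ → ℕ) {S p : ℕ} (hp : p < S) : f p * b ^ p ≤ tn b S f :=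
  Finset.single_le_sum (f := fun k => f k * b ^ k) (fun _ _ => Nat.zero_le _)
    (Finset.mem_range.2 hp)

/-! ### Guessing with a fixed number of bits -/

section

variable {α R F : Type} {x : List α} {cc : Cell α → ℕ} {A : ℕ} {body : F → NStmt R F}

/-- Append `K` bits to the number in `r`. -/
def gkR (r fl : R) : ℕ → NStmt R F
  | 0 => Stmt.skip
  | K + 1 => Stmt.seq (gkR r fl K) (sqN [flip fl, asg r (2 * Exp.var r + Exp.var fl)])

/-- Guess a number which is less than `2 ^ K`. -/
def gk (r fl : R) (K : ℕ) : NStmt R F := sqN [asg r 0, gkR r fl K, asg fl 0]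

theorem run_gkR {r fl : R} (h : r ≠ fl) {s : R → ℕ} (hr : s r = 0) {K : ℕ} (hA : 2 ^ K ≤ A)
    (k : ℕ) (u : ℕ → Bool) : ∃ w : ℕ,
    RunN x cc A body k (gkR r fl K) s u (upd (upd s fl w) r (gb K u)) (sh K u) := by
  induction K with
  | zero =>
    refine ⟨s fl, ?_⟩
    have e : upd (upd s fl (s fl)) r (gb 0 u) = s := by
      rw [upd_eq_self]
      have : gb 0 u = s r := by rw [hr]; rfl
      rw [this, upd_eq_self]
    rw [e]
    exact RunN.skip _ _ _
  | succ K ih =>
    have h2 : 2 ^ (K + 1) = 2 * 2 ^ K := by rw [pow_succ']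
    obtain ⟨w, hw⟩ := ih (by omega)
    refine ⟨(u K).toNat, RunN.seq _ _ _ _ _ _ _ _ _ hw ?_⟩
    rw [sh_succ]
    refine RunN.flips (RunN.set (gb (K + 1) u) ?_ ((gb_lt _ _).trans_le hA) ((RunN.nil).cast ?_))
    · simp only [eval_add, eval_mul, eval_ofNat, eval_var, upd_self, upd_ne h, gb, sh,
        Nat.zero_add]
    · funext q
      by_cases q1 : q = r
      · subst q1
        simp only [upd_self]
      · by_cases q2 : q = fl
        · subst q2
          simp only [upd_ne q1, upd_self, sh, Nat.zero_add]
        · simp only [upd_ne q1, upd_ne q2]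

theorem run_gk {r fl : R} (h : r ≠ fl) {s : R → ℕ} (hf : s fl = 0) {K : ℕ} (hA : 2 ^ K ≤ A)
    (k : ℕ) (u : ℕ → Bool) :
    RunN x cc A body k (gk r fl K) s u (upd s r (gb K u)) (sh K u) := by
  have h0 : 0 < A := (Nat.two_pow_pos K).trans_le hA
  obtain ⟨w, hw⟩ := run_gkR (x := x) (cc := cc) (body := body) h (s := upd s r 0) (upd_self _ _ _)
    hA k u
  refine RunN.set 0 rfl h0 (RunN.cons hw (RunN.set 0 rfl h0 ((RunN.nil).cast ?_)))
  funext q
  by_cases q1 : q = r
  · subst q1
    simp only [upd_self, upd_ne h]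
  · by_cases q2 : q = fl
    · subst q2
      simp only [upd_ne q1, upd_self, hf]
    · simp only [upd_ne q1, upd_ne q2]

/-- Lists of instructions one after the other. -/
theorem RunN.append {k : ℕ} {l l' : List (NStmt R F)} {s t r : R → ℕ} {u v w : ℕ → Bool}
    (h : RunN x cc A body k (sqN l) s u t v) (h' : RunN x cc A body k (sqN l') t v r w) :
    RunN x cc A body k (sqN (l ++ l')) s u r w := by
  induction l generalizing s u with
  | nil =>
    cases h
    exact h'
  | cons b l ih =>
    cases h with
    | seq _ _ _ _ _ _ _ _ _ h1 h2 => exact RunN.seq _ _ _ _ _ _ _ _ _ h1 (ih h2)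

open Classical in
/-- Set the registers of a list to zero. -/
theorem run_clear {k : ℕ} (l : List R) (hA : 0 < A) (s : R → ℕ) (u : ℕ → Bool) :
    RunN x cc A body k (sqN (l.map fun q => asg q 0)) s u (fun q => if q ∈ l then 0 else s q) u := by
  induction l generalizing s with
  | nil =>
    refine (RunN.nil).cast ?_
    funext q
    simp
  | cons p l ih =>
    refine RunN.set 0 rfl hA ((ih _).cast ?_)
    funext q
    by_cases h1 : q ∈ l
    · simp [h1]
    · by_cases h2 : q = p
      · subst h2
        simp
      · simp [h1, h2]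

end

end RC

end Pool.Agent.Lib.MP_9277c3_lc
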